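import Pool.Agent.Lib.LampC.MKP

set_option autoImplicit false

namespace Pool.Agent.LampC

/-- PROOF: the torsion subgroup is finitely generated, so finite
(`AddCommGroup.finite_of_fg_torsion`), take its order. -/
theorem exists_kill (A : Type*) [AddCommGroup A] [AddGroup.FG A] :
    ∃ k : ℕ, 0 < k ∧ ∀ (a : A) (n : ℕ), 0 < n → n • a = 0 → k • a = 0 := by
  classical
  have hfg : Module.Finite ℤ A := Module.Finite.iff_addGroup_fg.2 inferInstance
  have hN : IsNoetherian ℤ A := isNoetherian_of_isNoetherianRing_of_finite ℤ A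
  let T : Submodule ℤ A := Submodule.torsion ℤ A
  have hT : Module.Finite ℤ T := Module.Finite.of_fg (IsNoetherian.noetherian T)
  have hTfg : AddGroup.FG T := Module.Finite.iff_addGroup_fg.1 hT
  have hfin : Finite T := by
    apply AddCommGroup.finite_of_fg_isAddTorsion (G := T)
    intro x
    rw [isOfFinAddOrder_iff_nsmul_eq_zero]
    obtain ⟨x, hx⟩ := x
    rw [Submodule.mem_torsion_iff] at hx
    obtain ⟨c, hc⟩ := hx
    refine ⟨(c : ℤ).natAbs, Int.natAbs_pos.2 (nonZeroDivisors.coe_ne_zero c), ?_⟩
    apply Subtype.ext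
    have h1 : ((c : ℤ)) • x = 0 := hc
    show (c : ℤ).natAbs • x = 0
    rcases Int.natAbs_eq (c : ℤ) with h | h
    · rw [h] at h1
      simpa using h1
    · rw [h] at h1
      simpa using h1
  refine ⟨Nat.card T, Nat.card_pos, ?_⟩
  intro a n hn hna
  have ha : a ∈ T := by
    rw [Submodule.mem_torsion_iff]
    refine ⟨⟨(n : ℤ), mem_nonZeroDivisors_of_ne_zero (by exact_mod_cast hn.ne')⟩, ?_⟩
    show (n : ℤ) • a = 0
    simpa using hna
  have h2 : Nat.card T • (⟨a, ha⟩ : T) = 0 := card_nsmul_eq_zero'
  exact congrArg Subtype.val h2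

/-- PROOF: `m = 4 * k`; if `γ ≠ 1` take the least `n > 0` with `γ^[n] = 1`, a prime divisor `q` of
`n` and apply `mk_prime` to `γ^[n / q]`. -/
theorem mk_core (A : Type*) [AddCommGroup A] [AddGroup.FG A] :
    ∃ m : ℕ, 0 < m ∧ ∀ γ : A →+ A, (∃ n : ℕ, 0 < n ∧ ∀ a, γ^[n] a = a) →
      (∀ a, ∃ b, γ a = a + m • b) → ∀ a, γ a = a := by
  classical
  obtain ⟨k, hk0, hk⟩ := exists_kill A
  refine ⟨4 * k, by omega, ?_⟩
  intro γ hn h
  -- powers of `γ` are congruent to `1`
  have hpow : ∀ (t : ℕ) (a : A), ∃ b, γ^[t] a = a + (4 * k) • b := by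
    intro t
    induction t with
    | zero => intro a; exact ⟨0, by simp⟩
    | succ t ih =>
      intro a
      obtain ⟨b, hb⟩ := ih a
      obtain ⟨c, hc⟩ := h (a + (4 * k) • b)
      refine ⟨b + c, ?_⟩
      rw [Function.iterate_succ_apply', hb, hc, smul_add, add_assoc]
  -- strong induction on `n`
  obtain ⟨n, hn0, hn1⟩ := hn
  induction n using Nat.strong_induction_on with
  | _ n ih =>
    by_cases h1 : n = 1
    · subst h1
      intro a
      simpa using hn1 a
    · obtain ⟨q, hq, hqn⟩ := Nat.exists_prime_and_dvd h1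
      obtain ⟨r, rfl⟩ := hqn
      have hr0 : 0 < r := by
        rcases Nat.eq_zero_or_pos r with h0 | h0
        · subst h0; simp at hn0
        · exact h0
      have hlt : r < q * r := by
        have := hq.two_le
        nlinarith
      -- the homomorphism `γ^r`
      let δ : A →+ A :=
        { toFun := γ^[r]
          map_zero' := iterate_map_zero γ r
          map_add' := fun a b => iterate_map_add γ r a b }
      have hδ : ∀ a, δ a = a := by
        apply mk_prime A k hk δ hq
        · intro a
          show (γ^[r])^[q] a = a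
          rw [← Function.iterate_mul, Nat.mul_comm]
          exact hn1 a
        · intro a
          exact hpow r a
      exact ih r hlt hr0 hδ

end Pool.Agent.LampC
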