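import Pool.Agent.Lib.LampC.Defs
import Pool.Agent.Lib.LampC.MK

set_option autoImplicit false

namespace Pool.Agent.LampC

open Subgroup PolycyclicCent
open scoped commutatorElement

/-- multiplicative form of `mk_core` for the conjugation action on an abelian normal subgroup -/
theorem mk_conj {Γ : Type*} [Group Γ] (N : Subgroup Γ) (hP : PerAb N)
    (A : Subgroup Γ) [A.Normal] (hA : A.FG) (hcA : ∀ a ∈ A, ∀ n ∈ N, a * n = n * a)
    (hAN : A ≤ N) :
    ∃ m : ℕ, 0 < m ∧ ∀ g : Γ, (∀ a ∈ A, ∃ b ∈ A, g * a * g⁻¹ = a * b ^ m) →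
      ∀ a ∈ A, g * a * g⁻¹ = a := by
  let _ : CommGroup A :=
    { (inferInstance : Group A) with
      mul_comm := fun x y => Subtype.ext (hcA x x.2 y (hAN y.2)) }
  have : Group.FG A := (Group.fg_iff_subgroup_fg _).mpr hA
  have : AddGroup.FG (Additive A) := inferInstance
  obtain ⟨m, hm, hcore⟩ := mk_core (Additive A)
  refine ⟨m, hm, fun g hg a ha => ?_⟩
  let c : A →* A := (MulAut.conjNormal g).toMonoidHom
  let γ : Additive A →+ Additive A := MonoidHom.toAdditive c
  have hγ : ∀ a : A, ((γ (Additive.ofMul a)).toMul : Γ) = g * a * g⁻¹ := by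
    intro a
    exact MulAut.conjNormal_apply g a
  have hit : ∀ (n : ℕ) (a : A), ((γ^[n] (Additive.ofMul a)).toMul : Γ) = g ^ n * a * (g ^ n)⁻¹ := by
    intro n
    induction n with
    | zero => intro a; simp
    | succ n ih =>
      intro a
      rw [Function.iterate_succ_apply']
      have h1 := hγ ((γ^[n] (Additive.ofMul a)).toMul)
      rw [ofMul_toMul] at h1
      rw [h1, ih, pow_succ']
      group
  have hfix := hcore γ ?_ ?_
  · have h1 := hfix (Additive.ofMul ⟨a, ha⟩)
    have h2 := hγ ⟨a, ha⟩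
    rw [h1] at h2
    exact h2.symm
  · obtain ⟨n, hn, hgn⟩ := hP.per g
    refine ⟨n, hn, fun a => ?_⟩
    apply Additive.toMul.injective
    apply Subtype.ext
    have h1 := hit n a.toMul
    rw [ofMul_toMul] at h1
    rw [h1, ← hcA _ a.toMul.2 _ hgn, mul_inv_cancel_right]
  · intro a
    obtain ⟨b, hb, hab⟩ := hg a.toMul a.toMul.2
    refine ⟨Additive.ofMul ⟨b, hb⟩, ?_⟩
    apply Additive.toMul.injective
    apply Subtype.ext
    have h1 := hγ a.toMul
    rw [ofMul_toMul] at h1
    rw [h1, hab]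
    rfl

/-- PROOF: `A` is abelian (it is central in `N`). Take `m` from `mk_core` for `Additive A`. The
group `A ⧸ A^m` (as a quotient of `A` by the range of the `m`-th power map) is finite, the kernel
of the action of `Γ` on it by conjugation has finite index, and its elements act on `A` as in
`mk_core` (some power lies in `N` and acts trivially), so they centralize `A`. -/
theorem cent_finiteIndex {Γ : Type*} [Group Γ] (N : Subgroup Γ) (hP : PerAb N)
    (A : Subgroup Γ) [A.Normal] (hA : A.FG) (hAN : A ≤ N) (hc : ⁅A, N⁆ = ⊥) :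
    (centralizer (A : Set Γ)).FiniteIndex := by
  have hcA : ∀ a ∈ A, ∀ n ∈ N, a * n = n * a := by
    intro a ha n hn
    rw [← commutatorElement_eq_one_iff_mul_comm, ← mem_bot, ← hc]
    exact commutator_mem_commutator ha hn
  obtain ⟨m, hm, hmk⟩ := mk_conj N hP A hA hcA hAN
  -- the subgroup of `m`-th powers
  let P : Subgroup Γ :=
    { carrier := {x | ∃ b ∈ A, x = b ^ m}
      one_mem' := ⟨1, one_mem _, by simp⟩
      mul_mem' := by
        rintro x y ⟨b, hb, rfl⟩ ⟨d, hd, rfl⟩
        exact ⟨b * d, mul_mem hb hd, ((show Commute b d from hcA b hb d (hAN hd)).mul_pow m).symm⟩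
      inv_mem' := by
        rintro x ⟨b, hb, rfl⟩
        exact ⟨b⁻¹, inv_mem hb, by simp⟩ }
  have hPn : P.Normal := ⟨by
    rintro x ⟨b, hb, rfl⟩ g
    exact ⟨g * b * g⁻¹, Subgroup.Normal.conj_mem ‹_› b hb g, by rw [conj_pow]⟩⟩
  let A' : Subgroup (Γ ⧸ P) := A.map (QuotientGroup.mk' P)
  have : A'.Normal := Subgroup.Normal.map ‹_› _ (QuotientGroup.mk'_surjective P)
  have : Finite A' := by
    let _ : CommGroup A' :=
      { (inferInstance : Group A') with
        mul_comm := by
          rintro ⟨_, a, ha, rfl⟩ ⟨_, b, hb, rfl⟩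
          apply Subtype.ext
          change QuotientGroup.mk' P a * QuotientGroup.mk' P b =
            QuotientGroup.mk' P b * QuotientGroup.mk' P a
          rw [← map_mul, ← map_mul, hcA a ha b (hAN hb)] }
    have : Group.FG A' := (Group.fg_iff_subgroup_fg _).mpr (map_fg _ hA)
    refine CommGroup.finite_of_fg_torsion A' ?_
    rintro ⟨_, a, ha, rfl⟩
    rw [isOfFinOrder_iff_pow_eq_one]
    refine ⟨m, hm, ?_⟩
    apply Subtype.ext
    change (QuotientGroup.mk' P a) ^ m = 1
    rw [← map_pow]
    exact (QuotientGroup.eq_one_iff _).mpr ⟨a, ha, rfl⟩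
  let f : Γ →* MulAut A' := (MulAut.conjNormal).comp (QuotientGroup.mk' P)
  have : Finite (MulAut A') := inferInstance
  have hf : f.ker.FiniteIndex := inferInstance
  refine Subgroup.finiteIndex_of_le (H := f.ker) ?_
  intro g hg
  rw [mem_centralizer_iff]
  intro a ha
  have hfix := hmk g ?_ a ha
  · have := congrArg (· * g) hfix
    simp only [inv_mul_cancel_right] at this
    exact this.symm
  · intro a ha
    have h1 : f g ⟨QuotientGroup.mk' P a, a, ha, rfl⟩ = ⟨QuotientGroup.mk' P a, a, ha, rfl⟩ := by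
      rw [MonoidHom.mem_ker.mp hg]; rfl
    have h2 : QuotientGroup.mk' P g * QuotientGroup.mk' P a * (QuotientGroup.mk' P g)⁻¹ =
        QuotientGroup.mk' P a := by
      have := congrArg Subtype.val h1
      exact this
    rw [← map_mul, ← map_inv, ← map_mul] at h2
    have h3 : a⁻¹ * (g * a * g⁻¹) ∈ P := QuotientGroup.eq.mp h2.symm
    obtain ⟨b, hb, hab⟩ := h3
    exact ⟨b, hb, by rw [← hab]; group⟩

end Pool.Agent.LampC
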