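import Pool.Agent.Lib.LampC.Defs

set_option autoImplicit false

namespace Pool.Agent.LampC

open Subgroup PolycyclicCent
open scoped commutatorElement

variable {G : Type*} [Group G] (N M : Subgroup G) [N.Normal] [M.Normal]

/-- PROOF: let `x` commute with `g`, `x = m t^k`. Modulo `N` the elements of `M` commute, so
`t^k g t^(-k) ≡ g`, and `k = 0` by `hg'` (for `k < 0` conjugate by `t^(-k)`). -/
theorem cent_le (hab : ∀ x ∈ M, ∀ y ∈ M, ⁅x, y⁆ ∈ N) (t : G)
    (ht : ∀ x : G, ∃ k : ℤ, ∃ m ∈ M, x = m * t ^ k) {g : G} (hg : g ∈ M)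
    (hg' : ∀ n : ℕ, 0 < n → ⁅t ^ n, g⁆ ∉ N) : centralizer {g} ≤ M := by
  intro x hx
  obtain ⟨k, m, hm, rfl⟩ := ht x
  have hc : g * (m * t ^ k) = m * t ^ k * g := (mem_centralizer_iff.1 hx) g rfl
  have key : ∀ s : G, g * (m * s) = m * s * g → g * (s * g⁻¹ * s⁻¹) ∈ N := by
    intro s hs
    have h1 : s * g * s⁻¹ ∈ M := ‹M.Normal›.conj_mem g hg s
    have h2 := hab m hm (s * g * s⁻¹) h1
    have h3 : ⁅m, s * g * s⁻¹⁆ = g * (s * g⁻¹ * s⁻¹) := by
      rw [commutatorElement_def]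
      have : m * (s * g * s⁻¹) * m⁻¹ = g := by
        have : m * s * g = g * (m * s) := hs.symm
        calc m * (s * g * s⁻¹) * m⁻¹ = (m * s * g) * s⁻¹ * m⁻¹ := by group
          _ = g * (m * s) * s⁻¹ * m⁻¹ := by rw [this]
          _ = g := by group
      rw [this]
      group
    rw [← h3]
    exact h2
  have h := key (t ^ k) hc
  rcases lt_trichotomy k 0 with hk | hk | hk
  · exfalso
    obtain ⟨n, hn⟩ : ∃ n : ℕ, k = -(n : ℤ) := ⟨k.natAbs, by omega⟩
    have hn0 : 0 < n := by omega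
    apply hg' n hn0
    subst hn
    have h2 := ‹N.Normal›.conj_mem _ h (t ^ n)
    have h3 : t ^ n * (g * (t ^ (-(n : ℤ)) * g⁻¹ * (t ^ (-(n : ℤ)))⁻¹)) * (t ^ n)⁻¹ =
        ⁅t ^ n, g⁆ := by
      rw [commutatorElement_def, zpow_neg, zpow_natCast]
      group
    rw [h3] at h2
    exact h2
  · subst hk
    simpa using hm
  · exfalso
    obtain ⟨n, hn⟩ : ∃ n : ℕ, k = (n : ℤ) := ⟨k.natAbs, by omega⟩
    have hn0 : 0 < n := by omega
    apply hg' n hn0
    subst hn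
    have h2 := N.inv_mem h
    have h3 : (g * (t ^ (n : ℤ) * g⁻¹ * (t ^ (n : ℤ))⁻¹))⁻¹ = ⁅t ^ n, g⁆ := by
      rw [commutatorElement_def, zpow_natCast]
      group
    rw [h3] at h2
    exact h2

end Pool.Agent.LampC
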