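import Pool.Agent.Lib.LampC.Defs

set_option autoImplicit false

namespace Pool.Agent.LampC

universe u

open Subgroup PolycyclicCent
open scoped commutatorElement

/-- PROOF: an element `s` of `C = centralizer {g}` has finite order modulo `M`: otherwise `s ^ (B + 1)`
has a power acting trivially on `M ⧸ N`, beyond the bound `B` of the finite set `hker`. So the image of
`C` in `G ⧸ M` is finite and `C ⊓ M` is finitely generated. -/
theorem cent_fg_M {G : Type u} [Group G] (N M : Subgroup G) [N.Normal] [M.Normal]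
    (hT : ∀ x y : G, ⁅x, y⁆ ∈ M)
    (hker : {τ : G ⧸ M | ∃ s : G, (s : G ⧸ M) = τ ∧ ∀ m ∈ M, ⁅s, m⁆ ∈ N}.Finite)
    (hC : ∀ g : G, (centralizer {g}).FG) (g : M)
    (hg : ∀ s : G, ⁅s, (g : G)⁆ ∈ N → ∃ n : ℕ, 0 < n ∧ ∀ m ∈ M, ⁅s ^ n, m⁆ ∈ N) :
    (centralizer {g}).FG := by
  set C : Subgroup G := centralizer {(g : G)} with hCdef
  have hCfg : C.FG := hC g
  have hCg : Group.FG C := (Group.fg_iff_subgroup_fg C).mpr hCfg
  -- every element of `C` has finite order modulo `M`
  have htor : ∀ s ∈ C, IsOfFinOrder ((s : G) : G ⧸ M) := by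
    intro s hs
    by_contra hcon
    have hinj := injective_pow_iff_not_isOfFinOrder.mpr hcon
    have hfin : {n : ℕ | ((s : G ⧸ M)) ^ n ∈
        {τ : G ⧸ M | ∃ s : G, (s : G ⧸ M) = τ ∧ ∀ m ∈ M, ⁅s, m⁆ ∈ N}}.Finite :=
      hker.preimage hinj.injOn
    obtain ⟨B, hB⟩ := hfin.bddAbove
    have h1 : ⁅s ^ (B + 1), (g : G)⁆ ∈ N := by
      have h2 : s ^ (B + 1) ∈ C := C.pow_mem hs _
      have h3 : ⁅s ^ (B + 1), (g : G)⁆ = 1 := by
        rw [commutatorElement_eq_one_iff_mul_comm]
        exact (mem_centralizer_singleton_iff.mp h2)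
      rw [h3]
      exact N.one_mem
    obtain ⟨n, hn, h4⟩ := hg _ h1
    have h5 : (B + 1) * n ≤ B := by
      apply hB
      refine ⟨(s ^ (B + 1)) ^ n, ?_, h4⟩
      rw [← pow_mul, QuotientGroup.mk_pow]
    nlinarith
  let f : C →* G ⧸ M := (QuotientGroup.mk' M).comp C.subtype
  have hfr : Finite f.range := by
    have hcomm : ∀ a b : f.range, a * b = b * a := by
      rintro ⟨_, x, rfl⟩ ⟨_, y, rfl⟩
      apply Subtype.ext
      change f x * f y = f y * f x
      rw [← commutatorElement_eq_one_iff_mul_comm, ← map_commutatorElement]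
      change ((⁅x, y⁆ : C) : G ⧸ M) = 1
      rw [QuotientGroup.eq_one_iff]
      exact hT x y
    let _ : CommGroup f.range := { (inferInstance : Group f.range) with mul_comm := hcomm }
    have hfg : Group.FG f.range := inferInstance
    refine CommGroup.finite_of_fg_torsion f.range ?_
    rintro ⟨_, x, rfl⟩
    have := htor x x.2
    rw [isOfFinOrder_iff_pow_eq_one] at this ⊢
    obtain ⟨n, hn, h⟩ := this
    exact ⟨n, hn, Subtype.ext h⟩
  have hfi : f.ker.FiniteIndex := inferInstance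
  have hkfg : Group.FG f.ker := Subgroup.fg_of_index_ne_zero f.ker
  have hker' : f.ker.map C.subtype = C ⊓ M := by
    ext z
    constructor
    · rintro ⟨y, hy, rfl⟩
      exact ⟨y.2, (QuotientGroup.eq_one_iff _).mp hy⟩
    · rintro ⟨h1, h2⟩
      exact ⟨⟨z, h1⟩, (QuotientGroup.eq_one_iff _).mpr h2, rfl⟩
  have hinf : (C ⊓ M).FG := by
    rw [← hker']
    exact map_fg C.subtype ((Group.fg_iff_subgroup_fg _).mp hkfg)
  have h3 : (centralizer {g} : Subgroup M) = (C ⊓ M).subgroupOf M := by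
    ext z
    rw [mem_subgroupOf, mem_inf, mem_centralizer_singleton_iff, mem_centralizer_singleton_iff,
      Subtype.ext_iff]
    exact ⟨fun h => ⟨h, z.2⟩, fun h => h.1⟩
  have h2 : Group.FG (C ⊓ M : Subgroup G) := (Group.fg_iff_subgroup_fg _).mpr hinf
  rw [h3]
  exact (Group.fg_iff_subgroup_fg _).mp
    (Group.fg_of_surjective (f := (subgroupOfEquivOfLe (inf_le_right : C ⊓ M ≤ M)).symm.toMonoidHom)
      (subgroupOfEquivOfLe (inf_le_right : C ⊓ M ≤ M)).symm.surjective)

end Pool.Agent.LampC
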