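import Mathlib

set_option autoImplicit false

namespace Pool.Agent.LampC

lemma sum_mul_mod {A : Type*} [AddCommMonoid A] {p : ℕ} (hp : p.Prime) {i : ℕ}
    (hi : 0 < i) (hip : i < p) (F : ℕ → A) :
    ∑ j ∈ Finset.range p, F ((i * j) % p) = ∑ j ∈ Finset.range p, F j := by
  have hcop : Nat.gcd p i = 1 := by
    rw [← Nat.coprime_iff_gcd_eq_one, Nat.Prime.coprime_iff_not_dvd hp]
    intro h
    exact absurd (Nat.le_of_dvd hi h) (not_le.2 hip)
  have hinj : Set.InjOn (fun j => (i * j) % p) (Finset.range p : Set ℕ) := by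
    intro j hj j' hj' h
    have hj1 := Finset.mem_range.1 (Finset.mem_coe.1 hj)
    have hj2 := Finset.mem_range.1 (Finset.mem_coe.1 hj')
    exact Nat.ModEq.eq_of_lt_of_lt (Nat.ModEq.cancel_left_of_coprime hcop h) hj1 hj2
  have himg : (Finset.range p).image (fun j => (i * j) % p) = Finset.range p := by
    apply Finset.eq_of_subset_of_card_le
    · intro x hx
      obtain ⟨j, -, rfl⟩ := Finset.mem_image.1 hx
      exact Finset.mem_range.2 (Nat.mod_lt _ hp.pos)
    · rw [Finset.card_image_of_injOn hinj]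
  conv_rhs => rw [← himg]
  rw [Finset.sum_image hinj]

/-- the norm identity of `etrick`. PROOF: for `0 < i < p` reindex `j ↦ i j` modulo `p`. -/
theorem norm_identity {A : Type*} [AddCommGroup A] {p : ℕ} (hp : p.Prime) (α β : A →+ A)
    (hβ : ∀ a, β^[p] a = a) (hc : ∀ a, α (β a) = β (α a)) (a : A) :
    p • a = (∑ j ∈ Finset.range p, ∑ i ∈ Finset.range p, (fun b => α (β^[j] b))^[i] a)
      - ∑ i ∈ Finset.Ico 1 p, α^[i] (∑ j ∈ Finset.range p, β^[j] a) := by
  have hcomm : Function.Commute (⇑α) (⇑β) := fun x => hc x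
  have key : ∀ i j : ℕ, (fun b => α (β^[j] b))^[i] a = α^[i] (β^[i * j] a) := by
    intro i j
    induction i with
    | zero => simp
    | succ i ih =>
      have h2 : β^[j] (α^[i] (β^[i * j] a)) = α^[i] (β^[(i + 1) * j] a) := by
        rw [← (hcomm.iterate_iterate i j) (β^[i * j] a), ← Function.iterate_add_apply]
        congr 2
        ring
      rw [Function.iterate_succ_apply', ih, Function.iterate_succ_apply' (⇑α) i]
      exact congrArg α h2
  have hadd : ∀ (i : ℕ) (f : ℕ → A), α^[i] (∑ j ∈ Finset.range p, f j)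
      = ∑ j ∈ Finset.range p, α^[i] (f j) := by
    intro i
    induction i with
    | zero => intro f; rfl
    | succ i ih =>
      intro f
      rw [Function.iterate_succ_apply, map_sum, ih]
      rfl
  have hmod : ∀ m, β^[m % p] a = β^[m] a := fun m =>
    Function.IsPeriodicPt.iterate_mod_apply (hβ a) m
  rw [Finset.sum_comm, Finset.range_eq_Ico, Finset.sum_eq_sum_Ico_succ_bot hp.pos,
    ← Finset.range_eq_Ico]
  have h0 : ∑ j ∈ Finset.range p, (fun b => α (β^[j] b))^[0] a = p • a := by simp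
  rw [h0]
  have h1 : ∀ i ∈ Finset.Ico 1 p, ∑ j ∈ Finset.range p, (fun b => α (β^[j] b))^[i] a
      = α^[i] (∑ j ∈ Finset.range p, β^[j] a) := by
    intro i hi
    rw [Finset.mem_Ico] at hi
    rw [← sum_mul_mod hp (by omega : 0 < i) hi.2 (fun j => β^[j] a), hadd]
    refine Finset.sum_congr rfl fun j _ => ?_
    rw [key, hmod]
  rw [zero_add, Finset.sum_congr rfl h1]
  abel

end Pool.Agent.LampC
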