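import Pool.Agent.Lib.LampC.TorA
import Pool.Agent.Lib.LampC.NormId

set_option autoImplicit false

namespace Pool.Agent.LampC

private theorem et_sum_fixed {A : Type*} [AddCommGroup A] {p : ℕ} (γ : A → A) (γ' : A →+ A)
    (hγ' : ∀ a, γ' a = γ a) (hγ : ∀ a, γ^[p] a = a) (a : A) :
    γ (∑ i ∈ Finset.range p, γ^[i] a) = ∑ i ∈ Finset.range p, γ^[i] a := by
  rw [← hγ', map_sum]
  have h : ∀ i ∈ Finset.range p, γ' (γ^[i] a) = γ^[i + 1] a := by
    intro i _
    rw [hγ', Function.iterate_succ_apply']
  rw [Finset.sum_congr rfl h]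
  have h1 := Finset.sum_range_succ (fun i => γ^[i] a) p
  have h2 := Finset.sum_range_succ' (fun i => γ^[i] a) p
  rw [h1] at h2
  simp only [hγ, Function.iterate_zero, id_eq] at h2
  exact (add_right_cancel h2).symm

private theorem et_iter_one {A : Type*} {p : ℕ} {β : A → A} (hβ : ∀ a, β^[p] a = a) (j : ℕ) (a : A) :
    (β^[j])^[p] a = a := by
  rw [← Function.iterate_mul, mul_comm, Function.iterate_mul]
  have h : β^[p] = id := funext hβ
  rw [h, Function.iterate_id]
  rfl

/-- PROOF. Put `N γ a = ∑ i < p, γ^[i] a`. For all `a`: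
`p • a = (∑ j < p, N (α β^j) a) - ∑ i ∈ [1, p), α^[i] (N β a)`
(the term `(i, j)` of the double sum is `α^i β^(i j) a`; for `0 < i < p` the map `j ↦ i j` is a
bijection modulo `p`). `N (α β^j) a` is fixed by `α β^j`, and `α^[i] (N β a)` is fixed by `β`.
So `p • A` lies in the sum of the `p + 1` groups of fixed points, which is noetherian (all its
subgroups are finitely generated), hence `p • A` is finitely generated. `A[p]` is finitely
generated by `fg_torsion`. -/
theorem etrick {A : Type*} [AddCommGroup A] {p : ℕ} (hp : p.Prime) (α β : A →+ A)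
    (hα : ∀ a, α^[p] a = a) (hβ : ∀ a, β^[p] a = a) (hc : ∀ a, α (β a) = β (α a))
    (h1 : ∀ H : AddSubgroup A, (∀ a ∈ H, β a = a) → H.FG)
    (h2 : ∀ j < p, ∀ H : AddSubgroup A, (∀ a ∈ H, α (β^[j] a) = a) → H.FG) :
    AddGroup.FG A := by
  classical
  have hcomm : Function.Commute α β := hc
  -- the maps `α β^j`
  let γ : ℕ → A →+ A := fun j => α.comp ((show AddMonoid.End A from β) ^ j : AddMonoid.End A)
  have hγ : ∀ j a, γ j a = α (β^[j] a) := by
    intro j a
    change α (((show AddMonoid.End A from β) ^ j : AddMonoid.End A) a) = _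
    rw [AddMonoid.End.coe_pow]
    rfl
  have hγp : ∀ j a, (fun b => α (β^[j] b))^[p] a = a := by
    intro j a
    have h3 : (fun b => α (β^[j] b)) = α ∘ β^[j] := rfl
    rw [h3, (hcomm.iterate_right j).comp_iterate, Function.comp_apply, et_iter_one hβ, hα]
  -- the submodules of fixed points
  let F0 : Submodule ℤ A := LinearMap.ker (β.toIntLinearMap - LinearMap.id)
  let FF : Fin p → Submodule ℤ A := fun j => LinearMap.ker ((γ j).toIntLinearMap - LinearMap.id)
  have hF0 : ∀ a, a ∈ F0 ↔ β a = a := by
    intro a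
    change _ - _ = (0 : A) ↔ _
    rw [sub_eq_zero]
    rfl
  have hFF : ∀ j a, a ∈ FF j ↔ α (β^[(j : ℕ)] a) = a := by
    intro j a
    change γ j a - a = (0 : A) ↔ _
    rw [sub_eq_zero, hγ]
  have n0 : IsNoetherian ℤ F0 := by
    rw [isNoetherian_submodule]
    intro s hs
    rw [Submodule.fg_iff_addSubgroup_fg]
    exact h1 _ fun a ha => (hF0 a).1 (hs ha)
  have nF : ∀ j, IsNoetherian ℤ (FF j) := by
    intro j
    rw [isNoetherian_submodule]
    intro s hs
    rw [Submodule.fg_iff_addSubgroup_fg]
    exact h2 j j.2 _ fun a ha => (hFF j a).1 (hs ha)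
  have nS : IsNoetherian ℤ (⨆ j, FF j : Submodule ℤ A) := isNoetherian_iSup
  have nT : IsNoetherian ℤ (F0 ⊔ ⨆ j, FF j : Submodule ℤ A) := isNoetherian_sup _ _
  -- multiplication by `p`
  let m : A →ₗ[ℤ] A := (p : ℤ) • LinearMap.id
  have hm : ∀ a, m a = p • a := by
    intro a
    change (p : ℤ) • a = _
    rw [natCast_zsmul]
  have hr : LinearMap.range m ≤ F0 ⊔ ⨆ j, FF j := by
    rintro _ ⟨a, rfl⟩
    rw [hm, norm_identity hp α β hβ hc a]
    apply Submodule.sub_mem
    · apply Submodule.sum_mem
      intro j hj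
      apply Submodule.mem_sup_right
      apply Submodule.mem_iSup_of_mem ⟨j, Finset.mem_range.1 hj⟩
      rw [hFF]
      exact et_sum_fixed (fun b => α (β^[j] b)) (γ j) (hγ j) (hγp j) a
    · apply Submodule.sum_mem
      intro i _
      apply Submodule.mem_sup_left
      rw [hF0]
      have h3 : β (∑ j ∈ Finset.range p, β^[j] a) = ∑ j ∈ Finset.range p, β^[j] a :=
        et_sum_fixed β β (fun _ => rfl) hβ a
      have h4 := (hcomm.iterate_left i).eq (∑ j ∈ Finset.range p, β^[j] a)
      rw [← h4, h3]
  have hrfg : (LinearMap.range m).FG := isNoetherian_submodule.1 nT _ hr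
  -- the `p`-torsion
  have hK : (LinearMap.ker m).FG := by
    have hmem : ∀ a : A, a ∈ LinearMap.ker m ↔ p • a = 0 := by
      intro a
      rw [LinearMap.mem_ker, hm]
    let α' : LinearMap.ker m →+ LinearMap.ker m :=
      { toFun := fun a => ⟨α a, by
          rw [hmem, ← map_nsmul, (hmem _).1 a.2, map_zero]⟩
        map_zero' := by
          apply Subtype.ext
          exact map_zero α
        map_add' := by
          intro a b
          apply Subtype.ext
          exact map_add α _ _ }
    have hit : ∀ (n : ℕ) (a : LinearMap.ker m), ((α'^[n] a : LinearMap.ker m) : A) = α^[n] a := by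
      intro n
      induction n with
      | zero => intro a; rfl
      | succ n ih =>
        intro a
        rw [Function.iterate_succ_apply, Function.iterate_succ_apply, ih]
        rfl
    have hfg : AddGroup.FG (LinearMap.ker m) := by
      refine fg_torsion hp α' ?_ ?_ ?_
      · intro a
        apply Subtype.ext
        exact (hmem _).1 a.2
      · intro a
        apply Subtype.ext
        rw [hit]
        exact hα a
      · intro H hH
        have h5 : (AddSubgroup.toIntSubmodule H).FG := by
          apply Submodule.fg_of_fg_map_injective (LinearMap.ker m).subtype Subtype.val_injective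
          rw [Submodule.fg_iff_addSubgroup_fg]
          apply h2 0 hp.pos
          rintro _ ⟨a, ha, rfl⟩
          have h6 := congrArg Subtype.val (hH a ha)
          exact h6
        rw [Submodule.fg_iff_addSubgroup_fg] at h5
        exact h5
    rw [← Module.Finite.iff_fg, Module.Finite.iff_addGroup_fg]
    exact hfg
  rw [← Module.Finite.iff_addGroup_fg]
  refine ⟨Submodule.fg_of_fg_map_of_fg_inf_ker m ?_ ?_⟩
  · rw [Submodule.map_top]
    exact hrfg
  · rw [top_inf_eq]
    exact hK

end Pool.Agent.LampC
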