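import Pool.Agent.Lib.LampC.InfFg
import Pool.Agent.Lib.LampC.ETrick

set_option autoImplicit false

namespace Pool.Agent.LampC

open Subgroup PolycyclicCent
open scoped commutatorElement

/-- PROOF: `etrick` for `Additive A`, `α`, `β` = conjugation by `x`, `y` (they commute as
`⁅x, y⁆ ∈ N` centralizes `A`, and `x^p`, `y^p ∈ N` act trivially). For `g = y` or `x y^j` the
group `centralizer {g} ⊓ N` is finitely generated (`inf_fg`) and nilpotent, so all its subgroups
are finitely generated (`noethSub_of_nilpotent_fg`), in particular groups of fixed points of `g`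
in `A`. -/
theorem central_fg {Γ : Type*} [Group Γ] (N : Subgroup Γ) [N.Normal]
    (hN : Group.IsNilpotent N) (hP : PerAb N) (A : Subgroup Γ) [A.Normal] (hAN : A ≤ N)
    (hc : ⁅A, N⁆ = ⊥) {p : ℕ} (hp : p.Prime) {x y : Γ} (hx : x ^ p ∈ N) (hy : y ^ p ∈ N)
    (h1 : (centralizer {y}).FG) (h2 : ∀ j < p, (centralizer {x * y ^ j}).FG) : A.FG := by
  classical
  have hcm : ∀ a ∈ A, ∀ n ∈ N, n * a = a * n := by
    intro a ha n hn
    have h1 : ⁅a, n⁆ ∈ ⁅A, N⁆ := commutator_mem_commutator ha hn
    rw [hc, mem_bot, commutatorElement_eq_one_iff_mul_comm] at h1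
    exact h1.symm
  letI : CommGroup A := { (inferInstance : Group A) with
    mul_comm := fun x y => Subtype.ext (hcm y y.2 x (hAN x.2)) }
  -- elements of `N` act trivially
  have hNt : ∀ n ∈ N, ∀ b : A, MulAut.conjNormal n b = b := by
    intro n hn b
    refine Subtype.ext ?_
    rw [MulAut.conjNormal_apply, hcm _ b.2 _ hn, mul_inv_cancel_right]
  let c : Γ → Additive A →+ Additive A := fun γ =>
    MonoidHom.toAdditive (MulAut.conjNormal γ).toMonoidHom
  have hca : ∀ (γ : Γ) (b : A),
      c γ (Additive.ofMul b) = Additive.ofMul (MulAut.conjNormal γ b) := fun γ b => rfl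
  have hcit : ∀ (γ : Γ) (n : ℕ) (b : A),
      (c γ)^[n] (Additive.ofMul b) = Additive.ofMul (MulAut.conjNormal (γ ^ n) b) := by
    intro γ n
    induction n with
    | zero =>
      intro b
      rw [pow_zero, map_one]
      rfl
    | succ n ih =>
      intro b
      rw [Function.iterate_succ_apply', ih b, hca, pow_succ', map_mul]
      rfl
  -- fixed points
  have hfix : ∀ g : Γ, (centralizer {g}).FG → ∀ K : Subgroup A,
      (∀ b ∈ K, MulAut.conjNormal g b = b) → K.FG := by
    intro g hg K hK
    have h3 : (centralizer {g} ⊓ N).FG := inf_fg N hP hg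
    have h4 : Group.IsNilpotent (centralizer {g} ⊓ N : Subgroup Γ) := by
      rw [← Group.isNilpotent_congr (Subgroup.subgroupOfEquivOfLe
        (inf_le_right : centralizer {g} ⊓ N ≤ N))]
      infer_instance
    have h5 : (K.map A.subtype).FG := by
      refine noethSub_of_nilpotent_fg h4 h3 _ ?_
      rintro _ ⟨b, hb, rfl⟩
      refine ⟨?_, hAN b.2⟩
      change (b : Γ) ∈ centralizer {g}
      rw [mem_centralizer_singleton_iff]
      have h6 := congrArg Subtype.val (hK b hb)
      rw [MulAut.conjNormal_apply] at h6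
      have h7 : g * (b : Γ) = b * g := by
        rw [← mul_inv_eq_iff_eq_mul]
        exact h6
      first
        | exact h7
        | exact h7.symm
    have e := K.equivMapOfInjective A.subtype A.subtype_injective
    rw [← Group.fg_iff_subgroup_fg] at h5 ⊢
    exact Group.fg_of_surjective (f := e.symm.toMonoidHom) e.symm.surjective
  have key : AddGroup.FG (Additive A) := by
    refine etrick hp (c x) (c y) ?_ ?_ ?_ ?_ ?_
    · intro a
      have h3 := hcit x p (Additive.toMul a)
      rw [hNt _ hx, ofMul_toMul] at h3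
      exact h3
    · intro a
      have h3 := hcit y p (Additive.toMul a)
      rw [hNt _ hy, ofMul_toMul] at h3
      exact h3
    · intro a
      obtain ⟨b, rfl⟩ : ∃ b : A, Additive.ofMul b = a := ⟨Additive.toMul a, rfl⟩
      rw [hca, hca, hca, hca]
      congr 1
      rw [← MulAut.mul_apply, ← MulAut.mul_apply, ← map_mul, ← map_mul]
      have h3 : x * y = (y * x) * (x⁻¹ * y⁻¹ * x⁻¹⁻¹ * y⁻¹⁻¹) := by group
      have h4 : x⁻¹ * y⁻¹ * x⁻¹⁻¹ * y⁻¹⁻¹ ∈ N := by
        have h5 := hP.ab x⁻¹ y⁻¹
        rw [commutatorElement_def] at h5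
        exact h5
      rw [h3, map_mul, MulAut.mul_apply, hNt _ h4]
    · intro H hH
      obtain ⟨K, rfl⟩ := Subgroup.toAddSubgroup.surjective H
      rw [← Subgroup.fg_iff_add_fg]
      refine hfix y h1 K ?_
      intro b hb
      exact hH (Additive.ofMul b) hb
    · intro j hj H hH
      obtain ⟨K, rfl⟩ := Subgroup.toAddSubgroup.surjective H
      rw [← Subgroup.fg_iff_add_fg]
      refine hfix (x * y ^ j) (h2 j hj) K ?_
      intro b hb
      have h3 := hH (Additive.ofMul b) hb
      rw [hcit, hca, ← MulAut.mul_apply, ← map_mul] at h3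
      exact h3
  have h3 : Group.FG A := by
    rw [GroupFG.iff_add_fg]
    exact key
  exact (Group.fg_iff_subgroup_fg A).mp h3

end Pool.Agent.LampC
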