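import Pool.Agent.Lib.LampC.Defs

set_option autoImplicit false

namespace Pool.Agent.LampC

open Subgroup PolycyclicCent
open scoped commutatorElement

/-- PROOF: let `D` be the preimage, i.e. the `x` with `⁅x, g⁆ ∈ A`, `K = centralizer A`. On
`X = D ⊓ K` the map `x ↦ ⁅x, g⁆` is a homomorphism to `A` with kernel `centralizer {g} ⊓ K`,
which has finite index in `centralizer {g}` and so is finitely generated; subgroups of `A` are
finitely generated (`comm_fg'`), so `X` is finitely generated (`fg_of_ker_range`), and so is `D`,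
as `X` has finite index in `D`. Compare the proof of `fg_of_centralizer_fg` in
`MP_d5e6ed_al/CentNilp.lean`. -/
theorem quot_cent_fg {Γ : Type*} [Group Γ] (A : Subgroup Γ) [A.Normal] (hA : A.FG)
    (hcomm : ∀ a ∈ A, ∀ b ∈ A, a * b = b * a) (hK : (centralizer (A : Set Γ)).FiniteIndex)
    {g : Γ} (hg : (centralizer {g}).FG) : (centralizer {QuotientGroup.mk' A g}).FG := by
  set K : Subgroup Γ := centralizer (A : Set Γ) with hKdef
  have hKn : K.Normal := by rw [hKdef]; infer_instance
  set mk := QuotientGroup.mk' A with hmk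
  set D : Subgroup Γ := (centralizer {mk g}).comap mk with hD
  have hDm : ∀ x : Γ, x ∈ D ↔ ⁅x, g⁆ ∈ A := by
    intro x
    rw [hD, mem_comap, mem_centralizer_singleton_iff, ← commutatorElement_eq_one_iff_mul_comm,
      ← map_commutatorElement, hmk, QuotientGroup.mk'_apply, QuotientGroup.eq_one_iff]
  have hA' : Group.FG A := (Group.fg_iff_subgroup_fg _).mpr hA
  have hCD : centralizer {g} ≤ D := by
    intro x hx
    rw [hDm]
    rw [mem_centralizer_singleton_iff, ← commutatorElement_eq_one_iff_mul_comm] at hx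
    rw [hx]; exact one_mem _
  let φ : (D ⊓ K : Subgroup Γ) →* A :=
    { toFun := fun x => ⟨⁅(x : Γ), g⁆, (hDm x).mp x.2.1⟩
      map_one' := by ext; simp
      map_mul' := by
        intro x y
        ext
        have hy : ⁅(y : Γ), g⁆ ∈ A := (hDm y).mp y.2.1
        have hx : ⁅(x : Γ), g⁆ ∈ A := (hDm x).mp x.2.1
        have hxK : (x : Γ) ∈ K := x.2.2
        have h1 : ⁅(y : Γ), g⁆ * (x : Γ) = (x : Γ) * ⁅(y : Γ), g⁆ :=
          (mem_centralizer_iff.mp hxK) _ hy
        change ⁅(x : Γ) * y, g⁆ = ⁅(x : Γ), g⁆ * ⁅(y : Γ), g⁆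
        rw [commutatorElement_mul_left_eq_conj_mul, ← h1, mul_inv_cancel_right]
        exact hcomm _ hy _ hx }
  have hker : φ.ker = (centralizer {g} ⊓ K).subgroupOf (D ⊓ K) := by
    ext x
    rw [MonoidHom.mem_ker, mem_subgroupOf, mem_inf, mem_centralizer_singleton_iff,
      ← commutatorElement_eq_one_iff_mul_comm]
    constructor
    · intro h; exact ⟨congrArg Subtype.val h, x.2.2⟩
    · intro h; ext; exact h.1
  have hCK : (centralizer {g} ⊓ K).FG := by
    have h1 : Group.FG (centralizer {g}) := (Group.fg_iff_subgroup_fg _).mpr hg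
    have h2 : Group.FG (K.subgroupOf (centralizer {g})) := by infer_instance
    have h3 := map_fg (centralizer {g}).subtype ((Group.fg_iff_subgroup_fg _).mp h2)
    rwa [subgroupOf_map_subtype, inf_comm] at h3
  have hkfg : Group.FG φ.ker := by
    rw [hker]
    have e := (subgroupOfEquivOfLe (inf_le_inf_right K hCD)).symm
    have : Group.FG (centralizer {g} ⊓ K : Subgroup Γ) := (Group.fg_iff_subgroup_fg _).mpr hCK
    exact Group.fg_of_surjective (f := e.toMonoidHom) e.surjective
  have hrfg : Group.FG φ.range := by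
    have h0 : (φ.range : Subgroup A).FG :=
      comm_fg' (fun x y => by ext; exact hcomm _ x.2 _ y.2) hA' φ.range
    exact (Group.fg_iff_subgroup_fg _).mpr h0
  have hXfg : (D ⊓ K).FG := (Group.fg_iff_subgroup_fg _).mp (fg_of_ker_range φ hkfg hrfg)
  have hDfg : D.FG := by
    refine fg_of_map_of_inf_ker (QuotientGroup.mk' K) D ?_ ?_
    · rw [QuotientGroup.ker_mk']; exact hXfg
    · have : Finite (Γ ⧸ K) := inferInstance
      rw [← Group.fg_iff_subgroup_fg]
      infer_instance
  have : centralizer {mk g} = D.map mk := by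
    rw [hD, map_comap_eq_self_of_surjective (QuotientGroup.mk'_surjective _)]
  rw [this]
  exact map_fg _ hDfg

end Pool.Agent.LampC
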