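import Pool.Agent.Lib.LampC.Central
import Pool.Agent.Lib.LampC.Cent
import Pool.Agent.Lib.LampC.Quot

set_option autoImplicit false

namespace Pool.Agent.LampC

universe u

open Subgroup PolycyclicCent
open scoped commutatorElement

/-- PROOF: induction on `c`. If `c = 0` then `N = ⊥`, `Γ` is abelian and `centralizer {y} = ⊤`.
Otherwise `A = N.lowerCentralSeries c` is normal, `A ≤ N`, `⁅A, N⁆ = ⊥` (`lcs_succ`), so `A` is
finitely generated (`central_fg`) and its centralizer has finite index (`cent_finiteIndex`);
`quot_cent_fg` gives the hypotheses for `Γ ⧸ A` and `N.map (mk' A)`, whose lower central series is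
the image of that of `N`. Then `Γ ⧸ A` and `A` are finitely generated, and so are `Γ` and `N`. -/
theorem core (p : ℕ) (hp : p.Prime) : ∀ (c : ℕ) (Γ : Type u) [Group Γ] (N : Subgroup Γ)
    [N.Normal], N.lowerCentralSeries c = ⊥ → PerAb N → ∀ x y : Γ, x ^ p ∈ N → y ^ p ∈ N →
    (centralizer {y}).FG → (∀ j < p, (centralizer {x * y ^ j}).FG) →
    Group.FG Γ ∧ N.FG := by
  intro c
  induction c with
  | zero =>
    intro Γ _ N _ hN hP x y _ _ hy _
    rw [Subgroup.lowerCentralSeries_zero] at hN
    subst hN
    have hcomm : ∀ a b : Γ, a * b = b * a := by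
      intro a b
      have h1 := hP.ab a b
      rw [Subgroup.mem_bot, commutatorElement_eq_one_iff_mul_comm] at h1
      exact h1
    have htop : centralizer {y} = ⊤ := by
      rw [eq_top_iff]
      intro a _
      rw [mem_centralizer_iff]
      intro b _
      exact hcomm b a
    rw [htop] at hy
    exact ⟨Group.fg_def.mpr hy, ⟨∅, by simp⟩⟩
  | succ c ih =>
    intro Γ _ N _ hN hP x y hx hy h1 h2
    set A : Subgroup Γ := N.lowerCentralSeries c with hA
    have hAn : A.Normal := by rw [hA]; infer_instance
    have hAN : A ≤ N := lcs_le N c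
    have hc : ⁅A, N⁆ = ⊥ := by rw [hA, ← lcs_succ]; exact hN
    have hNil : Group.IsNilpotent N := Subgroup.isNilpotent_of_lowerCentralSeries_eq_bot hN
    have hAfg : A.FG := central_fg N hNil hP A hAN hc hp hx hy h1 h2
    have hK := cent_finiteIndex N hP A hAfg hAN hc
    have hcomm : ∀ a ∈ A, ∀ b ∈ A, a * b = b * a := by
      intro a ha b hb
      have h3 : ⁅a, b⁆ ∈ (⁅A, N⁆ : Subgroup Γ) := commutator_mem_commutator ha (hAN hb)
      rw [hc, Subgroup.mem_bot, commutatorElement_eq_one_iff_mul_comm] at h3
      exact h3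
    set mk := QuotientGroup.mk' A with hmk
    have hNn : (N.map mk).Normal := Normal.map inferInstance mk (QuotientGroup.mk'_surjective A)
    have hlcs : (N.map mk).lowerCentralSeries c = ⊥ := by
      rw [← Subgroup.map_lowerCentralSeries, ← hA, hmk, QuotientGroup.map_mk'_self]
    have hPQ : PerAb (N.map mk) := by
      constructor
      · intro q
        obtain ⟨g, rfl⟩ := QuotientGroup.mk'_surjective A q
        obtain ⟨n, hn, hg⟩ := hP.per g
        refine ⟨n, hn, ?_⟩
        rw [← map_pow]
        exact mem_map_of_mem _ hg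
      · intro q r
        obtain ⟨g, rfl⟩ := QuotientGroup.mk'_surjective A q
        obtain ⟨h, rfl⟩ := QuotientGroup.mk'_surjective A r
        rw [← map_commutatorElement]
        exact mem_map_of_mem _ (hP.ab g h)
    have hxq : (mk x) ^ p ∈ N.map mk := by
      rw [← map_pow]; exact mem_map_of_mem _ hx
    have hyq : (mk y) ^ p ∈ N.map mk := by
      rw [← map_pow]; exact mem_map_of_mem _ hy
    have h1q : (centralizer {mk y}).FG := quot_cent_fg A hAfg hcomm hK h1
    have h2q : ∀ j < p, (centralizer {mk x * (mk y) ^ j}).FG := by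
      intro j hj
      rw [← map_pow, ← map_mul]
      exact quot_cent_fg A hAfg hcomm hK (h2 j hj)
    obtain ⟨hQ, hNQ⟩ := ih (Γ ⧸ A) (N.map mk) hlcs hPQ (mk x) (mk y) hxq hyq h1q h2q
    constructor
    · rw [Group.fg_def]
      refine fg_of_map_of_inf_ker mk ⊤ ?_ ?_
      · rw [top_inf_eq, hmk, QuotientGroup.ker_mk']
        exact hAfg
      · rw [← MonoidHom.range_eq_map, MonoidHom.range_eq_top.mpr (QuotientGroup.mk'_surjective _)]
        exact Group.fg_def.mp hQ
    · refine fg_of_map_of_inf_ker mk N ?_ hNQ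
      rw [hmk, QuotientGroup.ker_mk', inf_eq_right.mpr hAN]
      exact hAfg

end Pool.Agent.LampC
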