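import Pool.Agent.Lib.LampC.DetDef
import Pool.Agent.Lib.LampC.Core

set_option autoImplicit false

namespace Pool.Agent.LampC

universe u

open Subgroup PolycyclicCent
open scoped commutatorElement

private theorem central_fg_det {Γ : Type u} [Group Γ] (N : Subgroup Γ) [N.Normal]
    (hN : Group.IsNilpotent N) (hP : PerAb N) (A : Subgroup Γ) [A.Normal] (hAN : A ≤ N)
    (hc : ⁅A, N⁆ = ⊥) (𝒢 : Set Γ) (hD : Det N 𝒢)
    (hG : ∀ g ∈ 𝒢, (centralizer {g}).FG) : A.FG := by
  classical
  have hcm : ∀ a ∈ A, ∀ n ∈ N, n * a = a * n := by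
    intro a ha n hn
    have h1 : ⁅a, n⁆ ∈ ⁅A, N⁆ := commutator_mem_commutator ha hn
    rw [hc, mem_bot, commutatorElement_eq_one_iff_mul_comm] at h1
    exact h1.symm
  letI : CommGroup A := { (inferInstance : Group A) with
    mul_comm := fun x y => Subtype.ext (hcm y y.2 x (hAN x.2)) }
  -- elements of `N` act trivially
  have hNt : ∀ n ∈ N, (MulAut.conjNormal n : MulAut A) = 1 := by
    intro n hn
    refine MulEquiv.ext fun b => ?_
    refine Subtype.ext ?_
    rw [MulAut.conjNormal_apply, hcm _ b.2 _ hn, mul_inv_cancel_right]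
    rfl
  -- fixed points
  have hfix : ∀ g : Γ, (centralizer {g}).FG → ∀ K : Subgroup A,
      (∀ b ∈ K, MulAut.conjNormal g b = b) → K.FG := by
    intro g hg K hK
    have h3 : (centralizer {g} ⊓ N).FG := inf_fg N hP hg
    have h4 : Group.IsNilpotent (centralizer {g} ⊓ N : Subgroup Γ) := by
      rw [← Group.isNilpotent_congr (Subgroup.subgroupOfEquivOfLe
        (inf_le_right : centralizer {g} ⊓ N ≤ N))]
      infer_instance
    have h5 : (K.map A.subtype).FG := by
      refine noethSub_of_nilpotent_fg h4 h3 _ ?_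
      rintro _ ⟨b, hb, rfl⟩
      refine ⟨?_, hAN b.2⟩
      change (b : Γ) ∈ centralizer {g}
      rw [mem_centralizer_singleton_iff]
      have h6 := congrArg Subtype.val (hK b hb)
      rw [MulAut.conjNormal_apply] at h6
      have h7 : g * (b : Γ) = b * g := by
        rw [← mul_inv_eq_iff_eq_mul]
        exact h6
      first
        | exact h7
        | exact h7.symm
    have e := K.equivMapOfInjective A.subtype A.subtype_injective
    rw [← Group.fg_iff_subgroup_fg] at h5 ⊢
    exact Group.fg_of_surjective (f := e.symm.toMonoidHom) e.symm.surjective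
  have h3 : Group.FG A := hD A MulAut.conjNormal hNt (fun g hg K hK => hfix g (hG g hg) K hK)
  exact (Group.fg_iff_subgroup_fg A).mp h3

/-- PROOF: as `core` (Core.lean), with `central_fg` (Central.lean) replaced by its version for `Det`
(action of `Γ` on `A` by conjugation, `MulAut.conjNormal`); `Det` passes to `Γ ⧸ A`, `N.map mk`,
`mk '' 𝒢` (compose the action with `mk`). -/
theorem core_det : ∀ (c : ℕ) (Γ : Type u) [Group Γ] (N : Subgroup Γ) [N.Normal] (𝒢 : Set Γ),
    N.lowerCentralSeries c = ⊥ → PerAb N → Det N 𝒢 → 𝒢.Nonempty →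
    (∀ g ∈ 𝒢, (centralizer {g}).FG) → Group.FG Γ ∧ N.FG := by
  intro c
  induction c with
  | zero =>
    intro Γ _ N _ 𝒢 hN hP _ hne hG
    obtain ⟨y, hyG⟩ := hne
    have hy := hG y hyG
    rw [Subgroup.lowerCentralSeries_zero] at hN
    subst hN
    have hcomm : ∀ a b : Γ, a * b = b * a := by
      intro a b
      have h1 := hP.ab a b
      rw [Subgroup.mem_bot, commutatorElement_eq_one_iff_mul_comm] at h1
      exact h1
    have htop : centralizer {y} = ⊤ := by
      rw [eq_top_iff]
      intro a _
      rw [mem_centralizer_iff]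
      intro b _
      exact hcomm b a
    rw [htop] at hy
    exact ⟨Group.fg_def.mpr hy, ⟨∅, by simp⟩⟩
  | succ c ih =>
    intro Γ _ N _ 𝒢 hN hP hD hne hG
    set A : Subgroup Γ := N.lowerCentralSeries c with hA
    have hAn : A.Normal := by rw [hA]; infer_instance
    have hAN : A ≤ N := lcs_le N c
    have hc : ⁅A, N⁆ = ⊥ := by rw [hA, ← lcs_succ]; exact hN
    have hNil : Group.IsNilpotent N := Subgroup.isNilpotent_of_lowerCentralSeries_eq_bot hN
    have hAfg : A.FG := central_fg_det N hNil hP A hAN hc 𝒢 hD hG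
    have hK := cent_finiteIndex N hP A hAfg hAN hc
    have hcomm : ∀ a ∈ A, ∀ b ∈ A, a * b = b * a := by
      intro a ha b hb
      have h3 : ⁅a, b⁆ ∈ (⁅A, N⁆ : Subgroup Γ) := commutator_mem_commutator ha (hAN hb)
      rw [hc, Subgroup.mem_bot, commutatorElement_eq_one_iff_mul_comm] at h3
      exact h3
    set mk := QuotientGroup.mk' A with hmk
    have hNn : (N.map mk).Normal := Normal.map inferInstance mk (QuotientGroup.mk'_surjective A)
    have hlcs : (N.map mk).lowerCentralSeries c = ⊥ := by
      rw [← Subgroup.map_lowerCentralSeries, ← hA, hmk, QuotientGroup.map_mk'_self]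
    have hPQ : PerAb (N.map mk) := by
      constructor
      · intro q
        obtain ⟨g, rfl⟩ := QuotientGroup.mk'_surjective A q
        obtain ⟨n, hn, hg⟩ := hP.per g
        refine ⟨n, hn, ?_⟩
        rw [← map_pow]
        exact mem_map_of_mem _ hg
      · intro q r
        obtain ⟨g, rfl⟩ := QuotientGroup.mk'_surjective A q
        obtain ⟨h, rfl⟩ := QuotientGroup.mk'_surjective A r
        rw [← map_commutatorElement]
        exact mem_map_of_mem _ (hP.ab g h)
    have hDQ : Det (N.map mk) (mk '' 𝒢) := by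
      intro B _ ρ hρ hfix
      refine hD B (ρ.comp mk) ?_ ?_
      · intro n hn
        exact hρ _ (mem_map_of_mem mk hn)
      · intro g hg K hK
        exact hfix (mk g) (Set.mem_image_of_mem mk hg) K hK
    have hGQ : ∀ g ∈ mk '' 𝒢, (centralizer {g}).FG := by
      rintro _ ⟨g, hg, rfl⟩
      exact quot_cent_fg A hAfg hcomm hK (hG g hg)
    obtain ⟨hQ, hNQ⟩ := ih (Γ ⧸ A) (N.map mk) (mk '' 𝒢) hlcs hPQ hDQ (hne.image mk) hGQ
    constructor
    · rw [Group.fg_def]
      refine fg_of_map_of_inf_ker mk ⊤ ?_ ?_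
      · rw [top_inf_eq, hmk, QuotientGroup.ker_mk']
        exact hAfg
      · rw [← MonoidHom.range_eq_map, MonoidHom.range_eq_top.mpr (QuotientGroup.mk'_surjective _)]
        exact Group.fg_def.mp hQ
    · refine fg_of_map_of_inf_ker mk N ?_ hNQ
      rw [hmk, QuotientGroup.ker_mk', inf_eq_right.mpr hAN]
      exact hAfg

end Pool.Agent.LampC
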