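import Pool.Agent.Lib.LampC.Defs

set_option autoImplicit false

namespace Pool.Agent.LampC

open Subgroup PolycyclicCent
open scoped commutatorElement

/-- a finitely generated periodic abelian subgroup is finite -/
theorem finite_closure_of_periodic {H : Type*} [Group H] {Y : Set H} (hY : Y.Finite)
    {K : Subgroup H} (hYK : Y ⊆ K) (hab : ∀ x ∈ K, ∀ y ∈ K, x * y = y * x)
    (hper : ∀ x ∈ K, ∃ n : ℕ, 0 < n ∧ x ^ n = 1) : Finite (closure Y) := by
  have hle : closure Y ≤ K := (closure_le _).2 hYK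
  have hFG : Group.FG (closure Y) := (Group.fg_iff_subgroup_fg _).2 ⟨hY.toFinset, by simp⟩
  let C : CommGroup (closure Y) :=
    { (inferInstance : Group (closure Y)) with
      mul_comm := fun a b => Subtype.ext (hab _ (hle a.2) _ (hle b.2)) }
  refine @CommGroup.finite_of_fg_isMulTorsion (closure Y) C hFG ?_
  intro a
  obtain ⟨n, hn, h⟩ := hper _ (hle a.2)
  exact isOfFinOrder_iff_pow_eq_one.2 ⟨n, hn, Subtype.ext (by simpa using h)⟩

variable {G : Type*} [Group G] (N M : Subgroup G) [N.Normal] [M.Normal]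

/-- PROOF: `commutator G ≤ M` as `G ⧸ M` is cyclic; `normal_fg` (`MP_d5e6ed_al/Main.lean`) gives a
finite `X ⊆ M` such that `M` is contained in every normal subgroup that contains `X`. Let `n > 0`
be a common period: `⁅t^n, x⁆ ∈ N` for `x ∈ X`. Then `L = closure {t^i x t^(-i) | i < n} ⊔ N` is
normal in `G` (normalised by `t`, `t⁻¹` and, as it contains `N`, by `M`), so `M ≤ L`, and `M ⧸ N` is a
finitely generated periodic abelian group, hence finite. -/
theorem finite_of_periodic [Group.FG G] (hNM : N ≤ M)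
    (hper : ∀ x ∈ M, ∃ n : ℕ, 0 < n ∧ x ^ n ∈ N) (hab : ∀ x ∈ M, ∀ y ∈ M, ⁅x, y⁆ ∈ N) (t : G)
    (ht : ∀ x : G, ∃ k : ℤ, ∃ m ∈ M, x = m * t ^ k)
    (hall : ∀ g ∈ M, ∃ n : ℕ, 0 < n ∧ ⁅t ^ n, g⁆ ∈ N) : (N.subgroupOf M).FiniteIndex := by
  have hcomm : commutator G ≤ M := by
    rw [_root_.commutator_def, commutator_le]
    intro x _ y _
    obtain ⟨k, m, hm, rfl⟩ := ht x
    obtain ⟨l, m', hm', rfl⟩ := ht y
    rw [← QuotientGroup.eq_one_iff (N := M), ← QuotientGroup.mk'_apply, map_commutatorElement,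
      commutatorElement_eq_one_iff_mul_comm]
    have e1 : QuotientGroup.mk' M m = 1 := (QuotientGroup.eq_one_iff m).2 hm
    have e2 : QuotientGroup.mk' M m' = 1 := (QuotientGroup.eq_one_iff m').2 hm'
    rw [map_mul, map_mul, e1, e2, one_mul, one_mul, map_zpow, map_zpow]
    exact (Commute.refl (QuotientGroup.mk' M t)).zpow_zpow k l |>.eq
  obtain ⟨X, hXf, hXM, hX⟩ := normal_fg M hcomm
  set π := QuotientGroup.mk' N with hπ
  have hone : ∀ g : G, π g = 1 ↔ g ∈ N := fun g => QuotientGroup.eq_one_iff g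
  have hcm : ∀ g h : G, ⁅g, h⁆ ∈ N ↔ π g * π h = π h * π g := by
    intro g h
    rw [← hone, map_commutatorElement, commutatorElement_eq_one_iff_mul_comm]
  -- periods
  choose! p hp0 hp using hall
  -- the finite orbit
  set Y : Set (G ⧸ N) := ⋃ x ∈ X, (fun i : ℕ => π t ^ i * π x * (π t ^ i)⁻¹) '' Set.Iio (p x) with hY
  have hYf : Y.Finite := hXf.biUnion fun x _ => (Set.finite_Iio _).image _
  have hmem : ∀ x ∈ X, ∀ i : ℤ, π t ^ i * π x * (π t ^ i)⁻¹ ∈ Y := by
    intro x hx i
    have hx0 := hp0 x (hXM hx)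
    have hc : Commute (π t ^ (p x)) (π x) := by
      have := (hcm _ _).1 (hp x (hXM hx))
      rwa [map_pow] at this
    refine Set.mem_biUnion hx ⟨(i % (p x : ℤ)).toNat, ?_, ?_⟩
    · have h1 := Int.emod_lt_of_pos i (by exact_mod_cast hx0 : (0 : ℤ) < p x)
      have h2 := Int.emod_nonneg i (by exact_mod_cast hx0.ne' : (p x : ℤ) ≠ 0)
      simp only [Set.mem_Iio]
      omega
    · have h2 := Int.emod_nonneg i (by exact_mod_cast hx0.ne' : (p x : ℤ) ≠ 0)
      have e : π t ^ i = π t ^ ((i % (p x : ℤ)).toNat) * (π t ^ (p x)) ^ (i / (p x : ℤ)) := by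
        conv_lhs => rw [← Int.emod_add_mul_ediv i (p x : ℤ)]
        rw [zpow_add, zpow_mul, zpow_natCast]
        congr 1
        rw [← zpow_natCast, Int.toNat_of_nonneg h2]
      have hc' : Commute ((π t ^ (p x)) ^ (i / (p x : ℤ))) (π x) := hc.zpow_left _
      simp only
      rw [e, mul_inv_rev, mul_assoc (π t ^ _) _ (π x), hc'.eq]
      group
  have hYK : Y ⊆ (M.map π : Subgroup (G ⧸ N)) := by
    intro y hy
    simp only [hY, Set.mem_iUnion] at hy
    obtain ⟨x, hx, i, _, rfl⟩ := hy
    refine ⟨t ^ i * x * (t ^ i)⁻¹, ?_, by simp⟩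
    exact (inferInstance : M.Normal).conj_mem x (hXM hx) _
  have hfin : Finite (closure Y) := by
    refine finite_closure_of_periodic hYf hYK ?_ ?_
    · rintro _ ⟨x, hx, rfl⟩ _ ⟨y, hy, rfl⟩
      exact (hcm x y).1 (hab x hx y hy)
    · rintro _ ⟨x, hx, rfl⟩
      obtain ⟨n, hn, h⟩ := hper x hx
      exact ⟨n, hn, by rw [← map_pow]; exact (hone _).2 h⟩
  have hleY : closure Y ≤ M.map π := (closure_le _).2 hYK
  -- conjugation by powers of t
  have hconjt : ∀ k : ℤ, ∀ y ∈ closure Y, π t ^ k * y * (π t ^ k)⁻¹ ∈ closure Y := by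
    intro k y hy
    induction hy using Subgroup.closure_induction with
    | mem y hy =>
      simp only [hY, Set.mem_iUnion] at hy
      obtain ⟨x, hx, i, _, rfl⟩ := hy
      have := hmem x hx (k + i)
      rw [zpow_add, zpow_natCast] at this
      refine subset_closure ?_
      convert this using 1
      group
    | one => simp
    | mul x y _ _ h1 h2 =>
      have := mul_mem h1 h2
      convert this using 1
      group
    | inv x _ h1 =>
      have := inv_mem h1
      convert this using 1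
      group
  have hLn : ((closure Y).comap π).Normal := by
    refine ⟨fun n hn g => ?_⟩
    rw [mem_comap] at hn ⊢
    obtain ⟨k, m, hm, rfl⟩ := ht g
    have h1 := hconjt k _ hn
    have h2 : π m * (π t ^ k * π n * (π t ^ k)⁻¹) = (π t ^ k * π n * (π t ^ k)⁻¹) * π m := by
      obtain ⟨m', hm', e⟩ := hleY h1
      rw [← e]
      exact (hcm _ _).1 (hab m hm m' hm')
    have e3 : π (m * t ^ k * n * (m * t ^ k)⁻¹) =
        π m * (π t ^ k * π n * (π t ^ k)⁻¹) * (π m)⁻¹ := by
      simp only [map_mul, map_inv, map_zpow, mul_inv_rev]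
      group
    rw [e3, h2, mul_inv_cancel_right]
    exact h1
  have hML : M ≤ (closure Y).comap π := by
    refine hX _ hLn ?_
    intro x hx
    have := hmem x hx 0
    rw [zpow_zero, one_mul, inv_one, mul_one] at this
    exact subset_closure this
  let f : M →* G ⧸ N := π.comp M.subtype
  have hker : f.ker = N.subgroupOf M := by
    ext x
    rw [MonoidHom.mem_ker, mem_subgroupOf]
    exact hone _
  have hrange : f.range ≤ closure Y := by
    rintro _ ⟨x, rfl⟩
    exact hML x.2
  have : Finite f.range := Finite.of_injective (Subgroup.inclusion hrange)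
    (Subgroup.inclusion_injective hrange)
  rw [← hker]
  exact Subgroup.finiteIndex_ker f

end Pool.Agent.LampC
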