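import Pool.Agent.Lib.LampC.FinIdx
import Pool.Agent.Lib.LampC.FinPer

set_option autoImplicit false

namespace Pool.Agent.LampC

universe u

open Subgroup PolycyclicCent
open scoped commutatorElement

/-- If for every prime `p` some positive power of `t` centralizes the elements of order `p` of the
abelian normal subgroup `K`, then some positive power of `t` centralizes a given periodic element
of `K`. -/
private theorem per_step {Q : Type*} [Group Q] (K : Subgroup Q) [K.Normal]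
    (hK : ∀ x ∈ K, ∀ y ∈ K, Commute x y) (t : Q)
    (hn : ∀ p : ℕ, p.Prime → ∃ n : ℕ, 0 < n ∧ ∀ m ∈ K, m ^ p = 1 → Commute (t ^ n) m) :
    ∀ k : ℕ, 0 < k → ∀ x ∈ K, x ^ k = 1 → ∃ n : ℕ, 0 < n ∧ Commute (t ^ n) x := by
  intro k
  induction k using Nat.strong_induction_on with
  | _ k ih =>
    intro hk x hx hxk
    by_cases h1 : k = 1
    · subst h1
      rw [pow_one] at hxk
      exact ⟨1, one_pos, by rw [hxk]; exact Commute.one_right _⟩
    obtain ⟨p, hp, k', rfl⟩ := Nat.exists_prime_and_dvd h1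
    have hk' : 0 < k' := Nat.pos_of_ne_zero (by rintro rfl; simp at hk)
    have hlt : k' < p * k' := by nlinarith [hp.two_le]
    obtain ⟨n, hn0, hfix⟩ := ih k' hlt hk' (x ^ p) (K.pow_mem hx p) (by rw [← pow_mul]; exact hxk)
    obtain ⟨l, hl0, hl⟩ := hn p hp
    set a : Q := t ^ (n * l) with ha
    have ha1 : Commute a (x ^ p) := by
      rw [ha, pow_mul]
      exact hfix.pow_left l
    have ha2 : ∀ m ∈ K, m ^ p = 1 → Commute a m := by
      intro m hm hmp
      rw [ha, mul_comm, pow_mul]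
      exact (hl m hm hmp).pow_left n
    have haK : a * x * a⁻¹ ∈ K := Subgroup.Normal.conj_mem inferInstance _ hx _
    set z : Q := x⁻¹ * (a * x * a⁻¹) with hz
    have hzK : z ∈ K := K.mul_mem (K.inv_mem hx) haK
    have hzp : z ^ p = 1 := by
      rw [hz, (hK _ (K.inv_mem hx) _ haK).mul_pow, conj_pow, ha1.eq, mul_inv_cancel_right, inv_pow,
        inv_mul_cancel]
    have hza : Commute a z := ha2 z hzK hzp
    have haz : a * x * a⁻¹ = x * z := by rw [hz]; group
    have hj : ∀ j : ℕ, a ^ j * x * (a ^ j)⁻¹ = x * z ^ j := by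
      intro j
      induction j with
      | zero => simp
      | succ j ihj =>
        have e1 : a ^ (j + 1) * x * (a ^ (j + 1))⁻¹ = a * (a ^ j * x * (a ^ j)⁻¹) * a⁻¹ := by
          rw [pow_succ']; group
        have e2 : a * (x * z ^ j) * a⁻¹ = (a * x * a⁻¹) * (a * z ^ j * a⁻¹) := by group
        have e3 : a * z ^ j * a⁻¹ = z ^ j := by
          rw [(hza.pow_right j).eq, mul_inv_cancel_right]
        rw [e1, ihj, e2, e3, haz, mul_assoc, ← pow_succ']
    have hfin := hj p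
    rw [hzp, mul_one] at hfin
    refine ⟨n * l * p, Nat.mul_pos (Nat.mul_pos hn0 hl0) hp.pos, ?_⟩
    rw [pow_mul, ← ha]
    exact mul_inv_eq_iff_eq_mul.1 hfin

/-- If `G ⧸ M` is cyclic then the alternative of `main_perab'` always holds. -/
theorem hker_of_cyclic {G : Type*} [Group G] [Group.FG G] (N M : Subgroup G) [N.Normal] [M.Normal]
    (hNM : N ≤ M) (hper : ∀ x ∈ M, ∃ n : ℕ, 0 < n ∧ x ^ n ∈ N)
    (hab : ∀ x ∈ M, ∀ y ∈ M, ⁅x, y⁆ ∈ N) (hcyc : IsCyclic (G ⧸ M)) :
    (N.subgroupOf M).FiniteIndex ∨ ∃ p : ℕ, p.Prime ∧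
      {τ : G ⧸ M | ∃ s : G, (s : G ⧸ M) = τ ∧ ∀ m ∈ M, m ^ p ∈ N → ⁅s, m⁆ ∈ N}.Finite := by
  by_contra hcon
  rw [not_or] at hcon
  obtain ⟨h1, h2⟩ := hcon
  obtain ⟨τ, hτ⟩ := hcyc.exists_generator
  obtain ⟨t, rfl⟩ := QuotientGroup.mk_surjective τ
  have ht : ∀ x : G, ∃ k : ℤ, ∃ m ∈ M, x = m * t ^ k := by
    intro x
    obtain ⟨k, hk⟩ := Subgroup.mem_zpowers_iff.1 (hτ (QuotientGroup.mk x))
    refine ⟨k, x * (t ^ k)⁻¹, ?_, by group⟩
    rw [← QuotientGroup.eq_one_iff, QuotientGroup.mk_mul, QuotientGroup.mk_inv,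
      QuotientGroup.mk_zpow, hk, mul_inv_cancel]
  have hcomm : ∀ u v : G, ⁅u, v⁆ ∈ N ↔
      Commute (QuotientGroup.mk' N u) (QuotientGroup.mk' N v) := by
    intro u v
    rw [← QuotientGroup.eq_one_iff, ← QuotientGroup.mk'_apply, map_commutatorElement,
      commutatorElement_eq_one_iff_mul_comm]
    rfl
  have hpp : ∀ (u : G) (k : ℕ), u ^ k ∈ N ↔ (QuotientGroup.mk' N u) ^ k = 1 := by
    intro u k
    rw [← map_pow, QuotientGroup.mk'_apply, QuotientGroup.eq_one_iff]
  have hnorm : (M.map (QuotientGroup.mk' N)).Normal :=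
    Subgroup.Normal.map inferInstance _ (QuotientGroup.mk'_surjective N)
  apply h1
  apply finite_of_periodic N M hNM hper hab t ht
  intro g hg
  obtain ⟨k, hk, hgk⟩ := hper g hg
  obtain ⟨n, hn, h⟩ := per_step (M.map (QuotientGroup.mk' N)) (by
      rintro _ ⟨x, hx, rfl⟩ _ ⟨y, hy, rfl⟩
      exact (hcomm x y).1 (hab x hx y hy)) (QuotientGroup.mk' N t) (by
      intro p hp
      have h3 : {τ : G ⧸ M | ∃ s : G, (s : G ⧸ M) = τ ∧
          ∀ m ∈ M, m ^ p ∈ N → ⁅s, m⁆ ∈ N}.Infinite := fun hf => h2 ⟨p, hp, hf⟩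
      obtain ⟨τ, ⟨s, rfl, hs⟩, hτ1⟩ := h3.nontrivial.exists_ne 1
      obtain ⟨k, m₀, hm₀, rfl⟩ := ht s
      have hk0 : k ≠ 0 := by
        rintro rfl
        apply hτ1
        rw [zpow_zero, mul_one]
        exact (QuotientGroup.eq_one_iff _).2 hm₀
      refine ⟨k.natAbs, Int.natAbs_pos.2 hk0, ?_⟩
      rintro _ ⟨m, hm, rfl⟩ hmp
      have h4 := (hcomm _ _).1 (hs m hm ((hpp m p).2 hmp))
      rw [map_mul, map_zpow] at h4
      have h5 : Commute (QuotientGroup.mk' N m₀)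
          ((QuotientGroup.mk' N t) ^ k * QuotientGroup.mk' N m * ((QuotientGroup.mk' N t) ^ k)⁻¹) := by
        have h6 := (hcomm m₀ (t ^ k * m * (t ^ k)⁻¹)).1
          (hab m₀ hm₀ _ (Subgroup.Normal.conj_mem inferInstance _ hm _))
        simpa only [map_mul, map_inv, map_zpow] using h6
      have h7 : Commute (QuotientGroup.mk' N m₀) (QuotientGroup.mk' N m) :=
        (hcomm _ _).1 (hab m₀ hm₀ m hm)
      have h8 : QuotientGroup.mk' N m₀ *
          ((QuotientGroup.mk' N t) ^ k * QuotientGroup.mk' N m * ((QuotientGroup.mk' N t) ^ k)⁻¹) =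
          QuotientGroup.mk' N m₀ * QuotientGroup.mk' N m := by
        rw [h7.eq, ← mul_assoc, ← mul_assoc, h4.eq]
        group
      have h9 := mul_left_cancel h8
      have h10 : Commute ((QuotientGroup.mk' N t) ^ k) (QuotientGroup.mk' N m) :=
        mul_inv_eq_iff_eq_mul.1 h9
      rcases Int.natAbs_eq k with h | h
      · rw [h, zpow_natCast] at h10
        exact h10
      · rw [h, zpow_neg, zpow_natCast, Commute.inv_left_iff] at h10
        exact h10) k hk _ ⟨g, hg, rfl⟩ ((hpp g k).1 hgk)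
  refine ⟨n, hn, (hcomm _ _).2 ?_⟩
  rw [map_pow]
  exact h

end Pool.Agent.LampC
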