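import Mathlib

set_option autoImplicit false

namespace Pool.Agent.LampC

/-- DOUBLE. PROOF: put `s = τ^[k * l]`. Then `s - 1` is divisible by `τ^k - 1` and by `τ^l - 1` (in
`Module.End ℤ V`), so `(s - 1)^2 w = 0`, hence `s^r w = w + r • (s - 1) w`, and `r • w = 0` gives
`s^r w = w`. -/
theorem double {V : Type*} [AddCommGroup V] (τ : V →+ V) {k l r : ℕ} (hk : 0 < k) (hl : 0 < l)
    (hr : 0 < r) {w : V} (hw : r • w = 0)
    (h : τ^[l] (τ^[k] w - w) = τ^[k] w - w) : ∃ n : ℕ, 0 < n ∧ τ^[n] w = w := by
  have hadd : ∀ (n : ℕ) (x y : V), τ^[n] (x + y) = τ^[n] x + τ^[n] y := by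
    intro n
    induction n with
    | zero => intro x y; rfl
    | succ n ih => intro x y; rw [Function.iterate_succ_apply, map_add, ih,
        ← Function.iterate_succ_apply, ← Function.iterate_succ_apply]
  have hnsmul : ∀ (n m : ℕ) (x : V), τ^[n] (m • x) = m • τ^[n] x := by
    intro n
    induction n with
    | zero => intro m x; rfl
    | succ n ih => intro m x; rw [Function.iterate_succ_apply, map_nsmul, ih,
        ← Function.iterate_succ_apply]
  have hcomm : ∀ (n m : ℕ) (x : V), τ^[n] (τ^[m] x) = τ^[m] (τ^[n] x) := by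
    intro n m x
    rw [← Function.iterate_add_apply, ← Function.iterate_add_apply, add_comm]
  obtain ⟨u, hu⟩ : ∃ u, u = τ^[k] w - w := ⟨_, rfl⟩
  rw [← hu] at h
  have hsu : τ^[k * l] u = u := by
    rw [mul_comm, Function.iterate_mul]
    exact Function.iterate_fixed h k
  have hku : τ^[k] w = u + w := by rw [hu]; abel
  have hz : ∀ i : ℕ, ∃ z, τ^[k * i] w = w + z ∧ τ^[k * l] z = z := by
    intro i
    induction i with
    | zero => exact ⟨0, by simp, by
        have := hnsmul (k * l) 0 0
        simpa using this⟩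
    | succ i ih =>
      obtain ⟨z, hz1, hz2⟩ := ih
      refine ⟨τ^[k * i] u + z, ?_, ?_⟩
      · rw [Nat.mul_succ, Function.iterate_add_apply, hku, hadd, hz1]
        abel
      · rw [hadd, hcomm, hsu, hz2]
  obtain ⟨z, hz1, hz2⟩ := hz l
  have hj : ∀ j : ℕ, τ^[(k * l) * j] w = w + j • z := by
    intro j
    induction j with
    | zero => simp
    | succ j ih =>
      rw [Nat.mul_succ, Nat.add_comm, Function.iterate_add_apply, ih, hadd, hnsmul, hz1, hz2,
        succ_nsmul]
      abel
  have hrz : r • z = 0 := by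
    have h1 : τ^[k * l] (r • w) = r • (w + z) := by rw [hnsmul, hz1]
    rw [hw, smul_add, hw, zero_add] at h1
    rw [← h1]
    have := hnsmul (k * l) 0 0
    simpa using this
  exact ⟨k * l * r, by positivity, by rw [hj, hrz, add_zero]⟩

end Pool.Agent.LampC
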