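import Pool.Agent.Lib.MP_d5e6ed_al.B.Red

/-!
# Nilpotent-by-(periodic abelian)-by-cyclic groups with finitely generated centralizers

(helper50, problem MP_d5e6ed_al). `PolycyclicCent.NoethSub N` : all subgroups of `N` are finitely
generated. Useful library: `PolycyclicCent.fg_of_map_of_inf_ker`, `map_fg`, `comm_fg`, `comm_fg'`,
`noethSub_of_ext`, `noethSub_of_comm`, `noethSub_of_nilpotent_fg`, `fg_of_ker_range`,
`D5.Red.fg_of_ext`, `lcs_succ`, `lcs_normal`, `lcs_le`.
-/

set_option autoImplicit false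

namespace Pool.Agent.LampC

open scoped commutatorElement

/-- the quotient by `N` is periodic and abelian -/
structure PerAb {Γ : Type*} [Group Γ] (N : Subgroup Γ) : Prop where
  per : ∀ x : Γ, ∃ n : ℕ, 0 < n ∧ x ^ n ∈ N
  ab : ∀ x y : Γ, ⁅x, y⁆ ∈ N

end Pool.Agent.LampC
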