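import Pool.Agent.Lib.LampC.DetDef
import Pool.Agent.Lib.LampC.ETrick

set_option autoImplicit false

namespace Pool.Agent.LampC

universe u

open Subgroup PolycyclicCent
open scoped commutatorElement

theorem det_one {Γ : Type u} [Group Γ] (N : Subgroup Γ) : Det N {(1 : Γ)} := by
  intro A _ ρ _ h
  have h1 := h 1 rfl ⊤ (by intro b _; rw [map_one]; rfl)
  exact Group.fg_def.mpr h1

/-- PROOF: let `A`, `ρ` be given. By `h` it is enough that for `g ∈ 𝒢` the group `B` of all elements
fixed by `g` is finitely generated (subgroups of a f.g. commutative group are f.g.). `B` is invariant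
under `Γ` (`Γ ⧸ N` is abelian), and `etrick` for `Additive B`, `α = ρ x`, `β = ρ y` applies: an
element of `B` fixed by `z` (`z = y` or `x y^j`) is fixed by `g z`. -/
theorem det_step {Γ : Type u} [Group Γ] (N : Subgroup Γ) (hab : ∀ x y : Γ, ⁅x, y⁆ ∈ N)
    {𝒢 : Set Γ} (h : Det N 𝒢) {p : ℕ} (hp : p.Prime) {x y : Γ} (hx : x ^ p ∈ N) (hy : y ^ p ∈ N) :
    Det N {u | ∃ g ∈ 𝒢, u = g * y ∨ ∃ j < p, u = g * (x * y ^ j)} := by
  intro A _ ρ hρ hfix
  refine h A ρ hρ ?_
  intro g hg K hK
  -- the action is commutative
  have hcomm : ∀ a b : Γ, ∀ v : A, ρ a (ρ b v) = ρ b (ρ a v) := by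
    intro a b v
    have h1 : ρ (a * b) = ρ (b * a) := by
      have h2 : a * b = ⁅a, b⁆ * (b * a) := by
        rw [commutatorElement_def]; group
      rw [h2, map_mul, hρ _ (hab a b), one_mul]
    rw [← MulAut.mul_apply, ← MulAut.mul_apply, ← map_mul, ← map_mul, h1]
  -- the group of fixed points of `g`
  let B : Subgroup A :=
    { carrier := {v | ρ g v = v}
      mul_mem' := by
        intro a b ha hb
        rw [Set.mem_setOf_eq] at ha hb ⊢
        rw [map_mul, ha, hb]
      one_mem' := by
        rw [Set.mem_setOf_eq, map_one]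
      inv_mem' := by
        intro a ha
        rw [Set.mem_setOf_eq] at ha ⊢
        rw [map_inv, ha] }
  have hB : ∀ v : A, v ∈ B ↔ ρ g v = v := fun v => Iff.rfl
  let c : Γ → B →* B := fun γ =>
    { toFun := fun v => ⟨ρ γ v, by
        rw [hB, hcomm g γ, (hB _).mp v.2]⟩
      map_one' := by
        apply Subtype.ext
        exact map_one (ρ γ)
      map_mul' := by
        intro a b
        apply Subtype.ext
        exact map_mul (ρ γ) _ _ }
  have hcc : ∀ (γ : Γ) (v : B), ((c γ v : B) : A) = ρ γ v := fun _ _ => rfl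
  have hcit : ∀ (γ : Γ) (n : ℕ) (v : B), (((c γ)^[n] v : B) : A) = ρ (γ ^ n) v := by
    intro γ n
    induction n with
    | zero => intro v; rw [pow_zero, map_one]; rfl
    | succ n ih =>
      intro v
      rw [Function.iterate_succ_apply', hcc, ih, pow_succ', map_mul, MulAut.mul_apply]
  let α : Γ → Additive B →+ Additive B := fun γ => MonoidHom.toAdditive (c γ)
  have hαit : ∀ (γ : Γ) (n : ℕ) (v : B),
      (α γ)^[n] (Additive.ofMul v) = Additive.ofMul ((c γ)^[n] v) := by
    intro γ n
    induction n with
    | zero => intro v; rfl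
    | succ n ih =>
      intro v
      rw [Function.iterate_succ_apply', Function.iterate_succ_apply', ih]
      rfl
  have key : AddGroup.FG (Additive B) := by
    refine etrick hp (α x) (α y) ?_ ?_ ?_ ?_ ?_
    · intro a
      obtain ⟨v, rfl⟩ : ∃ v : B, Additive.ofMul v = a := ⟨Additive.toMul a, rfl⟩
      rw [hαit]
      congr 1
      apply Subtype.ext
      rw [hcit, hρ _ hx]
      rfl
    · intro a
      obtain ⟨v, rfl⟩ : ∃ v : B, Additive.ofMul v = a := ⟨Additive.toMul a, rfl⟩
      rw [hαit]
      congr 1
      apply Subtype.ext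
      rw [hcit, hρ _ hy]
      rfl
    · intro a
      obtain ⟨v, rfl⟩ : ∃ v : B, Additive.ofMul v = a := ⟨Additive.toMul a, rfl⟩
      refine congrArg Additive.ofMul (a₁ := c x (c y v)) (a₂ := c y (c x v)) ?_
      apply Subtype.ext
      rw [hcc, hcc, hcc, hcc, hcomm x y]
    · intro H hH
      obtain ⟨L, rfl⟩ := Subgroup.toAddSubgroup.surjective H
      rw [← Subgroup.fg_iff_add_fg]
      have h3 : (L.map B.subtype).FG := by
        refine hfix (g * y) ⟨g, hg, Or.inl rfl⟩ _ ?_
        rintro _ ⟨b, hb, rfl⟩
        have h4 := hH (Additive.ofMul b) hb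
        have h5 : c y b = b := Additive.ofMul.injective h4
        have h6 : ρ y (b : A) = b := congrArg Subtype.val h5
        change ρ (g * y) (b : A) = b
        rw [map_mul, MulAut.mul_apply, h6]
        exact (hB _).mp b.2
      have e := L.equivMapOfInjective B.subtype B.subtype_injective
      rw [← Group.fg_iff_subgroup_fg] at h3 ⊢
      exact Group.fg_of_surjective (f := e.symm.toMonoidHom) e.symm.surjective
    · intro j hj H hH
      obtain ⟨L, rfl⟩ := Subgroup.toAddSubgroup.surjective H
      rw [← Subgroup.fg_iff_add_fg]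
      have h3 : (L.map B.subtype).FG := by
        refine hfix (g * (x * y ^ j)) ⟨g, hg, Or.inr ⟨j, hj, rfl⟩⟩ _ ?_
        rintro _ ⟨b, hb, rfl⟩
        have h4 := hH (Additive.ofMul b) hb
        rw [hαit] at h4
        have h5 : c x ((c y)^[j] b) = b := Additive.ofMul.injective h4
        have h6 : ρ x (ρ (y ^ j) (b : A)) = b := by
          have := congrArg Subtype.val h5
          rw [hcc, hcit] at this
          exact this
        change ρ (g * (x * y ^ j)) (b : A) = b
        rw [map_mul, map_mul, MulAut.mul_apply, MulAut.mul_apply, h6]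
        exact (hB _).mp b.2
      have e := L.equivMapOfInjective B.subtype B.subtype_injective
      rw [← Group.fg_iff_subgroup_fg] at h3 ⊢
      exact Group.fg_of_surjective (f := e.symm.toMonoidHom) e.symm.surjective
  have hBfg : Group.FG B := by
    rw [GroupFG.iff_add_fg]
    exact key
  have hKB : K ≤ B := fun b hb => (hB b).mpr (hK b hb)
  have h7 : (K.subgroupOf B).FG := comm_fg' (fun a b => mul_comm a b) hBfg _
  have h8 : (K.subgroupOf B).map B.subtype = K := by
    rw [subgroupOf_map_subtype, inf_eq_left.2 hKB]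
  rw [← h8]
  exact map_fg B.subtype h7

end Pool.Agent.LampC
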