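import Pool.Agent.Lib.LampC.Defs

set_option autoImplicit false

namespace Pool.Agent.LampC

universe u

/-- `𝒢` detects finite generation: if `Γ` acts on a commutative group `A` with `N` acting trivially and
for every `g ∈ 𝒢` all groups of elements fixed by `g` are finitely generated, then so is `A` -/
def Det {Γ : Type u} [Group Γ] (N : Subgroup Γ) (𝒢 : Set Γ) : Prop :=
  ∀ (A : Type u) [CommGroup A] (ρ : Γ →* MulAut A), (∀ n ∈ N, ρ n = 1) →
    (∀ g ∈ 𝒢, ∀ K : Subgroup A, (∀ b ∈ K, ρ g b = b) → K.FG) → Group.FG A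

end Pool.Agent.LampC
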