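import Pool.Agent.Lib.LampC.NormId

set_option autoImplicit false

namespace Pool.Agent.LampC

private theorem er_sum_mem {R A : Type*} [CommRing R] [AddCommGroup A] [Module R A] {p : ℕ}
    (γ : Module.End R A) (hγ : γ ^ p = 1) (a : A) :
    ∑ i ∈ Finset.range p, (γ ^ i) a ∈ LinearMap.ker (γ - 1) := by
  have h1 : (γ - 1) * ∑ i ∈ Finset.range p, γ ^ i = 0 := by
    rw [mul_geom_sum, hγ, sub_self]
  have h2 : (∑ i ∈ Finset.range p, γ ^ i) a = ∑ i ∈ Finset.range p, (γ ^ i) a :=
    LinearMap.sum_apply _ _ _
  rw [LinearMap.mem_ker, ← h2, ← Module.End.mul_apply, h1, LinearMap.zero_apply]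

/-- PROOF: as `etrick` (ETrick.lean) and `fg_torsion` (TorA.lean), with `R`-submodules in place of
subgroups: `p A` lies in the sum of the kernels (`norm_identity`), and on `A[p]` the map `α` is
unipotent (`(α - 1) ^ p = 0` modulo `p`) with noetherian kernel of `α - 1` (the case `j = 0` of `h2`). -/
theorem etrickR {R A : Type*} [CommRing R] [AddCommGroup A] [Module R A] {p : ℕ} (hp : p.Prime)
    (α β : Module.End R A) (hα : α ^ p = 1) (hβ : β ^ p = 1) (hc : Commute α β)
    (h1 : IsNoetherian R (LinearMap.ker (β - 1)))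
    (h2 : ∀ j < p, IsNoetherian R (LinearMap.ker (α * β ^ j - 1))) : IsNoetherian R A := by
  classical
  have hγ : ∀ j : ℕ, (α * β ^ j) ^ p = 1 := by
    intro j
    rw [(hc.pow_right j).mul_pow, hα, one_mul, ← pow_mul, mul_comm j p, pow_mul, hβ, one_pow]
  let F0 : Submodule R A := LinearMap.ker (β - 1)
  let FF : Fin p → Submodule R A := fun j => LinearMap.ker (α * β ^ (j : ℕ) - 1)
  have n0 : IsNoetherian R F0 := h1
  have nF : ∀ j, IsNoetherian R (FF j) := fun j => h2 j j.2
  have nS : IsNoetherian R (⨆ j, FF j : Submodule R A) := isNoetherian_iSup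
  have nT : IsNoetherian R (F0 ⊔ ⨆ j, FF j : Submodule R A) := isNoetherian_sup _ _
  -- multiplication by `p`
  let m : Module.End R A := (p : Module.End R A)
  have hm : ∀ a, m a = p • a := fun a => Module.End.natCast_apply p a
  have hit : ∀ (γ : Module.End R A) (g : A → A), (∀ b, g b = γ b) → ∀ (i : ℕ) (a : A),
      g^[i] a = (γ ^ i) a := by
    intro γ g hg i a
    have : g = γ := funext hg
    rw [this, Module.End.pow_apply]
  have hr : LinearMap.range m ≤ F0 ⊔ ⨆ j, FF j := by
    rintro _ ⟨a, rfl⟩
    have hni := norm_identity hp α.toAddMonoidHom β.toAddMonoidHom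
      (fun a => by
        have := hit β (β.toAddMonoidHom) (fun _ => rfl) p a
        rw [this, hβ]
        rfl)
      (fun a => by
        have := LinearMap.congr_fun hc.eq a
        exact this) a
    rw [hm, hni]
    apply Submodule.sub_mem
    · apply Submodule.sum_mem
      intro j hj
      apply Submodule.mem_sup_right
      apply Submodule.mem_iSup_of_mem ⟨j, Finset.mem_range.1 hj⟩
      have h3 : ∀ i ∈ Finset.range p,
          (fun b => α.toAddMonoidHom ((β.toAddMonoidHom)^[j] b))^[i] a
            = ((α * β ^ j) ^ i) a := by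
        intro i _
        refine hit (α * β ^ j) _ (fun b => ?_) i a
        rw [hit β (β.toAddMonoidHom) (fun _ => rfl) j b]
        rfl
      rw [Finset.sum_congr rfl h3]
      exact er_sum_mem _ (hγ j) a
    · apply Submodule.sum_mem
      intro i _
      apply Submodule.mem_sup_left
      have h3 : ∑ j ∈ Finset.range p, (β.toAddMonoidHom)^[j] a
          = ∑ j ∈ Finset.range p, (β ^ j) a :=
        Finset.sum_congr rfl fun j _ => hit β (β.toAddMonoidHom) (fun _ => rfl) j a
      rw [h3, hit α (α.toAddMonoidHom) (fun _ => rfl) i]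
      have h4 := er_sum_mem β hβ a
      have hc2 : Commute (β - 1) (α ^ i) :=
        (Commute.sub_left (hc.symm.pow_right i) (Commute.one_left _))
      change (β - 1) ((α ^ i) _) = 0
      rw [← Module.End.mul_apply, hc2.eq, Module.End.mul_apply, LinearMap.mem_ker.1 h4, map_zero]
  -- the `p`-torsion
  have h20 : IsNoetherian R (LinearMap.ker (α - 1)) := by
    have := h2 0 hp.pos
    rwa [pow_zero, mul_one] at this
  set δ : Module.End R A := α + (-1) with hδ
  have hδ' : δ = α - 1 := by rw [hδ, sub_eq_add_neg]
  have hδp : ∀ a ∈ LinearMap.ker m, (δ ^ p) a = 0 := by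
    intro a ha
    have ha' : p • a = 0 := by rw [← hm]; exact ha
    have hcc : Commute α (-1 : Module.End R A) := (Commute.one_right α).neg_right
    obtain ⟨r, hr⟩ := hcc.exists_add_pow_prime_eq hp
    rw [hδ, hr, hα, LinearMap.add_apply]
    have e1 : ((1 : Module.End R A) + (-1) ^ p) a = 0 := by
      rcases hp.eq_two_or_odd' with h2 | h2
      · subst h2
        rw [neg_one_sq, LinearMap.add_apply, Module.End.one_apply]
        rw [two_nsmul] at ha'
        exact ha'
      · rw [h2.neg_one_pow, add_neg_cancel, LinearMap.zero_apply]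
    have e2 : ((p : Module.End R A) * α * (-1) * r) a = 0 := by
      rw [mul_assoc, mul_assoc, Module.End.mul_apply, Module.End.natCast_apply, ← map_nsmul, ha',
        map_zero]
    rw [e1, e2, add_zero]
  have hK : ∀ j : ℕ, IsNoetherian R (LinearMap.ker (δ ^ j) ⊓ LinearMap.ker m : Submodule R A) := by
    intro j
    induction j with
    | zero =>
      rw [isNoetherian_submodule]
      intro s hs
      have : s = ⊥ := by
        rw [eq_bot_iff]
        intro x hx
        have h5 : x ∈ LinearMap.ker (δ ^ 0) := (hs hx).1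
        rw [pow_zero, LinearMap.mem_ker, Module.End.one_apply] at h5
        rw [h5]
        exact Submodule.zero_mem _
      rw [this]
      exact Submodule.fg_bot
    | succ j ih =>
      rw [isNoetherian_submodule]
      intro s hs
      refine Submodule.fg_of_fg_map_of_fg_inf_ker (δ ^ j) ?_ ?_
      · refine isNoetherian_submodule.1 h20 _ ?_
        rintro _ ⟨x, hx, rfl⟩
        have hx' : x ∈ LinearMap.ker (δ ^ (j + 1)) := (hs hx).1
        rw [LinearMap.mem_ker, pow_succ', Module.End.mul_apply] at hx'
        rw [LinearMap.mem_ker, ← hδ']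
        exact hx'
      · refine isNoetherian_submodule.1 ih _ ?_
        intro x hx
        exact ⟨hx.2, (hs hx.1).2⟩
  refine ⟨fun s => Submodule.fg_of_fg_map_of_fg_inf_ker m ?_ ?_⟩
  · refine isNoetherian_submodule.1 nT _ ?_
    exact (LinearMap.map_le_range).trans hr
  · refine isNoetherian_submodule.1 (hK p) _ ?_
    intro x hx
    exact ⟨LinearMap.mem_ker.2 (hδp x hx.2), hx.2⟩

end Pool.Agent.LampC
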