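import Pool.Agent.Lib.LampC.DetRDef
import Pool.Agent.Lib.LampC.EtrickR

set_option autoImplicit false

namespace Pool.Agent.LampC

universe u

open Subgroup PolycyclicCent
open scoped commutatorElement

theorem detR_one {Γ : Type u} [Group Γ] (N : Subgroup Γ) : DetR N {(1 : Γ)} := by
  intro R A _ _ _ ρ _ h
  have h1 := h 1 rfl
  rw [map_one, sub_self, LinearMap.ker_zero] at h1
  exact isNoetherian_top_iff.1 h1

/-- PROOF: as `det_step` (Det.lean): for `g ∈ 𝒢` apply `etrickR` to the submodule
`B = ker (ρ g - 1)`, which is invariant under `Γ` (restrict `ρ x`, `ρ y` to it). -/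
theorem detR_step {Γ : Type u} [Group Γ] (N : Subgroup Γ) (hab : ∀ x y : Γ, ⁅x, y⁆ ∈ N)
    {𝒢 : Set Γ} (h : DetR N 𝒢) {p : ℕ} (hp : p.Prime) {x y : Γ} (hx : x ^ p ∈ N) (hy : y ^ p ∈ N) :
    DetR N {u | ∃ g ∈ 𝒢, u = g * y ∨ ∃ j < p, u = g * (x * y ^ j)} := by
  intro R A _ _ _ ρ hρ hfix
  refine h R A ρ hρ ?_
  intro g hg
  have hswap : ∀ a b : Γ, ρ (a * b) = ρ (b * a) := by
    intro a b
    have h2 : a * b = ⁅a, b⁆ * (b * a) := by
      rw [commutatorElement_def]; group
    rw [h2, map_mul, hρ _ (hab a b), one_mul]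
  set B : Submodule R A := LinearMap.ker (ρ g - 1) with hBdef
  have hB : ∀ v : A, v ∈ B ↔ ρ g v = v := by
    intro v
    rw [hBdef, LinearMap.mem_ker, LinearMap.sub_apply, Module.End.one_apply, sub_eq_zero]
  have hinv : ∀ (γ : Γ) (v : A), v ∈ B → ρ γ v ∈ B := by
    intro γ v hv
    rw [hB] at hv ⊢
    rw [← Module.End.mul_apply, ← map_mul, hswap, map_mul, Module.End.mul_apply, hv]
  let c : Γ →* Module.End R B :=
    { toFun := fun γ => (ρ γ).restrict (hinv γ)
      map_one' := by
        refine LinearMap.ext fun v => Subtype.ext ?_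
        change ρ 1 (v : A) = v
        rw [map_one]
        rfl
      map_mul' := by
        intro a b
        refine LinearMap.ext fun v => Subtype.ext ?_
        change ρ (a * b) (v : A) = ρ a (ρ b (v : A))
        rw [map_mul, Module.End.mul_apply] }
  have hcc : ∀ (γ : Γ) (v : B), ((c γ v : B) : A) = ρ γ v := fun _ _ => rfl
  have hcN : ∀ n ∈ N, c n = 1 := by
    intro n hn
    refine LinearMap.ext fun v => Subtype.ext ?_
    rw [hcc, hρ n hn]
    rfl
  have hker : ∀ z : Γ, IsNoetherian R (LinearMap.ker (ρ (g * z) - 1)) →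
      IsNoetherian R (LinearMap.ker (c z - 1)) := by
    intro z hz
    have hmem : ∀ b : LinearMap.ker (c z - 1),
        (B.subtype ∘ₗ (LinearMap.ker (c z - 1)).subtype) b ∈ LinearMap.ker (ρ (g * z) - 1) := by
      intro b
      have h1 : c z (b : B) = (b : B) := by
        have h2 := b.2
        rw [LinearMap.mem_ker, LinearMap.sub_apply, Module.End.one_apply, sub_eq_zero] at h2
        exact h2
      have h3 : ρ z ((b : B) : A) = ((b : B) : A) := by
        rw [← hcc, h1]
      rw [LinearMap.mem_ker, LinearMap.sub_apply, Module.End.one_apply, sub_eq_zero]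
      change ρ (g * z) ((b : B) : A) = ((b : B) : A)
      rw [map_mul, Module.End.mul_apply, h3]
      exact (hB _).1 (b : B).2
    refine isNoetherian_of_injective
      ((B.subtype ∘ₗ (LinearMap.ker (c z - 1)).subtype).codRestrict _ hmem) ?_
    intro a b hab'
    apply Subtype.ext
    apply Subtype.ext
    have h5 := congrArg Subtype.val hab'
    exact h5
  refine etrickR hp (c x) (c y) ?_ ?_ ?_ ?_ ?_
  · rw [← map_pow]
    exact hcN _ hx
  · rw [← map_pow]
    exact hcN _ hy
  · change c x * c y = c y * c x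
    have h2 : x * y = ⁅x, y⁆ * (y * x) := by
      rw [commutatorElement_def]; group
    rw [← map_mul, ← map_mul, h2, map_mul, hcN _ (hab x y), one_mul]
  · exact hker y (hfix (g * y) ⟨g, hg, Or.inl rfl⟩)
  · intro j hj
    rw [← map_pow, ← map_mul]
    exact hker (x * y ^ j) (hfix (g * (x * y ^ j)) ⟨g, hg, Or.inr ⟨j, hj, rfl⟩⟩)

end Pool.Agent.LampC
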