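import Pool.Agent.Lib.LampC.Defs

set_option autoImplicit false

namespace Pool.Agent.LampC

universe u

/-- `𝒢` detects noetherian modules: if `Γ` acts `R`-linearly on `A` with `N` acting trivially and
for every `g ∈ 𝒢` the module of elements fixed by `g` is noetherian, then so is `A` -/
def DetR {Γ : Type u} [Group Γ] (N : Subgroup Γ) (𝒢 : Set Γ) : Prop :=
  ∀ (R A : Type u) [CommRing R] [AddCommGroup A] [Module R A] (ρ : Γ →* Module.End R A),
    (∀ n ∈ N, ρ n = 1) → (∀ g ∈ 𝒢, IsNoetherian R (LinearMap.ker (ρ g - 1))) → IsNoetherian R A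

end Pool.Agent.LampC
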