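import Pool.Agent.Lib.LampC.Defs
import Pool.Agent.Lib.MP_d5e6ed_al.Main

set_option autoImplicit false

namespace Pool.Agent.LampC

open Subgroup PolycyclicCent
open scoped commutatorElement

/-- PROOF: `normal_fg` (MP_d5e6ed_al/Main.lean) for `G ⧸ N` and `M.map mk`: it is the normal closure of
a finite set `X`; `e` = product of the orders of the elements of `X`; `{v ∈ M ⧸ N | v ^ e = 1}` is a
normal subgroup (`M ⧸ N` is abelian) containing `X`. -/
theorem exists_exp {G : Type*} [Group G] [Group.FG G] (N M : Subgroup G) [N.Normal] [M.Normal]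
    (hper : ∀ x ∈ M, ∃ n : ℕ, 0 < n ∧ x ^ n ∈ N) (hab : ∀ x ∈ M, ∀ y ∈ M, ⁅x, y⁆ ∈ N)
    (hT : ∀ x y : G, ⁅x, y⁆ ∈ M) : ∃ e : ℕ, 0 < e ∧ ∀ x ∈ M, x ^ e ∈ N := by
  classical
  have hcom : commutator G ≤ M := by
    rw [_root_.commutator_def, commutator_le]
    exact fun x _ y _ => hT x y
  obtain ⟨X, hX, hXM, hXL⟩ := normal_fg M hcom
  choose! f hf0 hf using hper
  set e : ℕ := ∏ x ∈ hX.toFinset, f x with he
  have he0 : 0 < e := Finset.prod_pos fun x hx => hf0 x (hXM (hX.mem_toFinset.1 hx))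
  let L : Subgroup G :=
    { carrier := {m | m ∈ M ∧ m ^ e ∈ N}
      mul_mem' := by
        rintro a b ⟨ha, ha'⟩ ⟨hb, hb'⟩
        refine ⟨M.mul_mem ha hb, ?_⟩
        have h1 : Commute (QuotientGroup.mk' N a) (QuotientGroup.mk' N b) := by
          show QuotientGroup.mk' N a * QuotientGroup.mk' N b =
            QuotientGroup.mk' N b * QuotientGroup.mk' N a
          rw [← commutatorElement_eq_one_iff_mul_comm, ← map_commutatorElement,
            QuotientGroup.mk'_apply, QuotientGroup.eq_one_iff]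
          exact hab a ha b hb
        rw [← QuotientGroup.eq_one_iff, QuotientGroup.mk_pow, QuotientGroup.mk_mul]
        have h2 := h1.mul_pow e
        have h3 : (QuotientGroup.mk' N a) ^ e = 1 := by
          rw [← map_pow, QuotientGroup.mk'_apply, QuotientGroup.eq_one_iff]
          exact ha'
        have h4 : (QuotientGroup.mk' N b) ^ e = 1 := by
          rw [← map_pow, QuotientGroup.mk'_apply, QuotientGroup.eq_one_iff]
          exact hb'
        rw [h3, h4, one_mul] at h2
        exact h2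
      one_mem' := ⟨M.one_mem, by rw [one_pow]; exact N.one_mem⟩
      inv_mem' := by
        rintro a ⟨ha, ha'⟩
        exact ⟨M.inv_mem ha, by rw [inv_pow]; exact N.inv_mem ha'⟩ }
  have hL : L.Normal := by
    constructor
    rintro m ⟨hm, hm'⟩ g
    refine ⟨(inferInstance : M.Normal).conj_mem m hm g, ?_⟩
    rw [conj_pow]
    exact (inferInstance : N.Normal).conj_mem _ hm' g
  have hXL' : X ⊆ L := by
    intro x hx
    refine ⟨hXM hx, ?_⟩
    obtain ⟨k, hk⟩ : f x ∣ e := Finset.dvd_prod_of_mem f (hX.mem_toFinset.2 hx)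
    rw [hk, pow_mul]
    exact N.pow_mem (hf x (hXM hx)) k
  exact ⟨e, he0, fun x hx => (hXL L hL hXL' hx).2⟩

end Pool.Agent.LampC
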