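import Pool.Agent.Lib.LampC.NonPer
import Pool.Agent.Lib.LampC.FinPer

set_option autoImplicit false

namespace Pool.Agent.LampC

universe u

open Subgroup PolycyclicCent
open scoped commutatorElement

/-- PROOF: take `t` over a generator of `G ⧸ M`. If some `g₀ ∈ M` is not periodic: `main_nonper`.
Otherwise `finite_of_periodic`, and `D5.main` with `P₀ = ⊤`: all subgroups of `G ⧸ N` are finitely
generated (`M ⧸ N` finite, `G ⧸ M` cyclic) and `G ⧸ N` is soluble. -/
theorem main {G : Type u} [Group G] (N M : Subgroup G) [N.Normal] [M.Normal]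
    (hN : Group.IsNilpotent N) (hNM : N ≤ M) (hper : ∀ x ∈ M, ∃ n : ℕ, 0 < n ∧ x ^ n ∈ N)
    (hab : ∀ x ∈ M, ∀ y ∈ M, ⁅x, y⁆ ∈ N) (hcyc : IsCyclic (G ⧸ M))
    (hC : ∀ g : G, (centralizer {g}).FG) (H : Subgroup G) : H.FG := by
  have hG : Group.FG G := by
    have h1 := hC 1
    have h2 : centralizer {(1 : G)} = ⊤ := by
      rw [eq_top_iff]; intro x _; rw [mem_centralizer_singleton_iff]; simp
    rw [h2] at h1
    exact Group.fg_def.mpr h1
  obtain ⟨τ, hτ⟩ := hcyc.exists_generator
  obtain ⟨t, rfl⟩ := QuotientGroup.mk_surjective τ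
  have ht : ∀ x : G, ∃ k : ℤ, ∃ m ∈ M, x = m * t ^ k := by
    intro x
    obtain ⟨k, hk⟩ := Subgroup.mem_zpowers_iff.1 (hτ (QuotientGroup.mk x))
    refine ⟨k, x * (t ^ k)⁻¹, ?_, by group⟩
    rw [← QuotientGroup.eq_one_iff, QuotientGroup.mk_mul, QuotientGroup.mk_inv,
      QuotientGroup.mk_zpow, hk, mul_inv_cancel]
  by_cases h0 : ∃ g₀ ∈ M, ∀ n : ℕ, 0 < n → ⁅t ^ n, g₀⁆ ∉ N
  · obtain ⟨g₀, hg₀, h0⟩ := h0
    exact main_nonper N M hN hNM hper hab hcyc hC t ht hg₀ h0 H
  push Not at h0
  have hfin := finite_of_periodic N M hNM hper hab t ht h0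
  -- the subgroup `M ⧸ N`
  set Q : Subgroup (G ⧸ N) := M.map (QuotientGroup.mk' N) with hQ
  have hQfin : Finite Q := by
    have hF : Finite (M ⧸ N.subgroupOf M) := inferInstance
    let f : M →* Q :=
      { toFun := fun x => ⟨QuotientGroup.mk' N x, ⟨x, x.2, rfl⟩⟩
        map_one' := rfl
        map_mul' := fun _ _ => rfl }
    have hf : Function.Surjective f := by
      rintro ⟨_, x, hx, rfl⟩
      exact ⟨⟨x, hx⟩, rfl⟩
    have hker : N.subgroupOf M ≤ f.ker := by
      intro x hx
      rw [MonoidHom.mem_ker]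
      exact Subtype.ext ((QuotientGroup.eq_one_iff _).2 hx)
    refine Finite.of_surjective (QuotientGroup.lift (N.subgroupOf M) f hker) ?_
    intro y
    obtain ⟨x, rfl⟩ := hf y
    exact ⟨QuotientGroup.mk x, rfl⟩
  have hQn : Q.Normal := by
    rw [hQ]
    exact Subgroup.Normal.map (inferInstance : M.Normal) _ (QuotientGroup.mk'_surjective N)
  have hQno : NoethSub Q := by
    intro K hK
    have : Finite K := Finite.of_injective (Subgroup.inclusion hK) (Subgroup.inclusion_injective hK)
    rw [← Group.fg_iff_subgroup_fg]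
    infer_instance
  have hcyc' : IsCyclic ((G ⧸ N) ⧸ Q) := by
    refine isCyclic_of_surjective (QuotientGroup.quotientQuotientEquivQuotient N M hNM).symm
      (MulEquiv.surjective _)
  have hsub : ∀ K : Subgroup ((G ⧸ N) ⧸ Q), K.FG := by
    intro K
    have hcfg : Group.FG ((G ⧸ N) ⧸ Q) := by
      rw [Group.fg_iff]
      obtain ⟨c, hc⟩ := hcyc'.exists_generator
      refine ⟨{c}, ?_, Set.finite_singleton c⟩
      rw [← Subgroup.zpowers_eq_closure, eq_top_iff]
      exact fun x _ => hc x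
    exact comm_fg' (fun x y => IsCyclic.commGroup.mul_comm x y) hcfg K
  have hfg : ∀ K : Subgroup (G ⧸ N), K.FG := D5.Red.fg_of_ext Q hQno hsub
  have hsol : Group.IsSolvable (⊤ : Subgroup (G ⧸ N)) := by
    have hQs : Group.IsSolvable Q := by
      refine Group.isSolvable_of_comm ?_
      rintro ⟨_, x, hx, rfl⟩ ⟨_, y, hy, rfl⟩
      apply Subtype.ext
      change QuotientGroup.mk' N x * QuotientGroup.mk' N y
        = QuotientGroup.mk' N y * QuotientGroup.mk' N x
      rw [← commutatorElement_eq_one_iff_mul_comm, ← map_commutatorElement,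
        QuotientGroup.mk'_apply, QuotientGroup.eq_one_iff]
      exact hab x hx y hy
    have hCs : Group.IsSolvable ((G ⧸ N) ⧸ Q) := by
      refine Group.isSolvable_of_comm ?_
      intro x y
      exact (IsCyclic.commGroup.mul_comm x y)
    have hS : Group.IsSolvable (G ⧸ N) :=
      Group.isSolvable_of_ker_le_range Q.subtype (QuotientGroup.mk' Q) (by
        rw [QuotientGroup.ker_mk', Subgroup.range_subtype])
    infer_instance
  exact D5.main N hN ⊤ inferInstance hsol hfg hC H

end Pool.Agent.LampC
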