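import Pool.Agent.Lib.MP_d5e6ed_al.Generic

set_option autoImplicit false

namespace Pool.Agent.LampC

open scoped Pointwise in
/-- B. H. Neumann: a group is not covered by finitely many subgroups of infinite index. -/
private theorem neumann_avoid {T : Type*} [Group T] (s : Finset (Subgroup T)) :
    ∃ t : T, ∀ H ∈ s, ¬ H.FiniteIndex → t ∉ H := by
  classical
  by_contra hcon
  push Not at hcon
  have hcov : ⋃ H ∈ s.filter (fun H => ¬ H.FiniteIndex), ((1 : T) • (H : Set T)) = Set.univ := by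
    refine Set.eq_univ_of_forall fun t => ?_
    obtain ⟨H, hH, hfin, ht⟩ := hcon t
    refine Set.mem_iUnion₂.2 ⟨H, Finset.mem_filter.2 ⟨hH, hfin⟩, ?_⟩
    rw [one_smul]
    exact ht
  obtain ⟨H, hH, hfin⟩ := Subgroup.exists_finiteIndex_of_leftCoset_cover
    (s := s.filter (fun H => ¬ H.FiniteIndex)) (H := fun H => H) (g := fun _ => (1 : T)) hcov
  exact (Finset.mem_filter.1 hH).2 hfin

/-- elements of `T` which have finite order in `K` -/
private def tors {K T : Type*} [CommRing K] [CommGroup T] (φ : T →* K) : Subgroup T where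
  carrier := {t | ∃ n : ℕ, 0 < n ∧ φ t ^ n = 1}
  one_mem' := ⟨1, one_pos, by simp⟩
  mul_mem' := by
    rintro a b ⟨n, hn, h1⟩ ⟨m, hm, h2⟩
    refine ⟨n * m, Nat.mul_pos hn hm, ?_⟩
    rw [map_mul, mul_pow, pow_mul, h1, one_pow, mul_comm n m, pow_mul, h2, one_pow, one_mul]
  inv_mem' := by
    rintro a ⟨n, hn, h1⟩
    refine ⟨n, hn, ?_⟩
    have h3 : φ a⁻¹ ^ n * φ a ^ n = 1 := by
      rw [← mul_pow, ← map_mul, inv_mul_cancel, map_one, one_pow]
    rwa [h1, mul_one] at h3

private theorem mem_tors {K T : Type*} [CommRing K] [CommGroup T] (φ : T →* K) (t : T) :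
    t ∈ tors φ ↔ ∃ n : ℕ, 0 < n ∧ φ t ^ n = 1 := Iff.rfl

private theorem tors_root {K T : Type*} [CommRing K] [CommGroup T] (φ : T →* K) (t : T)
    {n : ℕ} (hn : 0 < n) (h : t ^ n ∈ tors φ) : t ∈ tors φ := by
  obtain ⟨m, hm, h1⟩ := h
  refine ⟨n * m, Nat.mul_pos hn hm, ?_⟩
  rw [pow_mul, ← map_pow, h1]

private theorem cast_pow_eq_one {K : Type*} [CommRing K] {p : ℕ} (hp : p.Prime)
    (hK : (p : K) = 0) {a : ℕ} (ha : ¬ p ∣ a) : (a : K) ^ (p - 1) = 1 := by
  have h1 : a ^ (p - 1) ≡ 1 [MOD p] := by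
    have := Nat.ModEq.pow_totient ((Nat.Prime.coprime_iff_not_dvd hp).2 ha).symm
    rwa [Nat.totient_prime hp] at this
  have h2 : ((a ^ (p - 1) : ℕ) : ℤ) ≡ ((1 : ℕ) : ℤ) [ZMOD (p : ℤ)] :=
    (Int.natCast_modEq_iff).2 h1
  obtain ⟨c, hc⟩ := (Int.modEq_iff_dvd.1 h2.symm)
  have h3 := congrArg (fun z : ℤ => (z : K)) hc
  push_cast at h3
  rw [hK, zero_mul, sub_eq_zero] at h3
  exact h3

/-- `a + b x = 0` makes the unit `x` of finite order. -/
private theorem order_of_lin {K : Type*} [CommRing K] [IsDomain K] {p : ℕ} (hp : p.Prime)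
    (hK : (p : K) = 0) {a b : ℕ} (hab : ¬ (p ∣ a ∧ p ∣ b)) {x y : K} (hxy : x * y = 1)
    (h : (a : K) + (b : K) * x = 0) : ∃ n : ℕ, 0 < n ∧ x ^ n = 1 := by
  have hdvd : ∀ c : ℕ, p ∣ c → (c : K) = 0 := by
    rintro c ⟨d, rfl⟩
    rw [Nat.cast_mul, hK, zero_mul]
  have hp1 : 0 < p - 1 := Nat.sub_pos_of_lt hp.one_lt
  by_cases hb : p ∣ b
  · have ha : ¬ p ∣ a := fun h' => hab ⟨h', hb⟩
    rw [hdvd b hb, zero_mul, add_zero] at h
    have h1 := cast_pow_eq_one hp hK ha
    rw [h, zero_pow hp1.ne'] at h1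
    exact absurd h1 zero_ne_one
  · have hb1 := cast_pow_eq_one hp hK hb
    by_cases ha : p ∣ a
    · rw [hdvd a ha, zero_add] at h
      rcases mul_eq_zero.1 h with h0 | h0
      · rw [h0, zero_pow hp1.ne'] at hb1
        exact absurd hb1 zero_ne_one
      · rw [h0, zero_mul] at hxy
        exact absurd hxy zero_ne_one
    · have ha1 := cast_pow_eq_one hp hK ha
      refine ⟨(p - 1) * 2, Nat.mul_pos hp1 two_pos, ?_⟩
      have h2 : (b : K) * x = - (a : K) := by linear_combination h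
      have h3 : ((b : K) * x) ^ ((p - 1) * 2) = 1 := by
        rw [h2, pow_mul, neg_pow, ha1, mul_one, ← pow_mul, mul_comm, pow_mul]
        simp
      rw [mul_pow, pow_mul (b : K), hb1, one_pow, one_mul] at h3
      exact h3

/-- PROOF. `w` from `exists_generic` (`r • w = 0 → r ∈ (ann V).radical`, i.e. `r` in all minimal
primes `q` of `ann V`, finitely many, `(p : R) ∈ q`). For `q` let `T_q` be the subgroup of the
`t : T` with `f t ^ n - 1 ∈ q` for some `n > 0`; it is closed under roots. `t₀` lies in no `T_q` of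
infinite index (B. H. Neumann). -/
theorem gen_pair {R V T : Type*} [CommRing R] [IsNoetherianRing R] [AddCommGroup V] [Module R V]
    [Module.Finite R V] [CommGroup T] (f : T →* R) {p : ℕ} (hp : p.Prime)
    (hV : ∀ v : V, p • v = 0) :
    ∃ (w : V) (t₀ : T), ∀ a b : ℕ, ¬ (p ∣ a ∧ p ∣ b) → ∀ s : T,
      f s • (a • w + b • f t₀ • w) = a • w + b • f t₀ • w →
      ∃ n : ℕ, 0 < n ∧ ∀ v : V, f (s ^ n) • v = v := by
  classical
  obtain ⟨w, hw⟩ := PolycyclicCent.exists_generic R V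
  have hfin := (Module.annihilator R V).finite_minimalPrimes_of_isNoetherianRing R
  let φ : Ideal R → Σ q : Ideal R, (T →* R ⧸ q) := fun q =>
    ⟨q, ((Ideal.Quotient.mk q : R →+* R ⧸ q) : R →* R ⧸ q).comp f⟩
  let S : Ideal R → Subgroup T := fun q => tors (φ q).2
  obtain ⟨t₀, ht₀⟩ := neumann_avoid (hfin.toFinset.image S)
  refine ⟨w, t₀, fun a b hab s hs => ?_⟩
  have hann : ((p : R)) ∈ Module.annihilator R V := by
    rw [Module.mem_annihilator]
    intro v
    rw [Nat.cast_smul_eq_nsmul]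
    exact hV v
  have hrad : (f s - 1) * ((a : R) + (b : R) * f t₀) ∈ (Module.annihilator R V).radical := by
    apply hw
    have h1 : ((a : R) + (b : R) * f t₀) • w = a • w + b • f t₀ • w := by
      rw [add_smul, mul_smul, Nat.cast_smul_eq_nsmul, Nat.cast_smul_eq_nsmul]
    rw [mul_smul, h1, sub_smul, one_smul, hs, sub_self]
  have key : ∀ q ∈ (Module.annihilator R V).minimalPrimes, s ∈ S q := by
    intro q hq
    have hqp : q.IsPrime := hq.1.1
    have hle : Module.annihilator R V ≤ q := hq.1.2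
    have hmem : (f s - 1) * ((a : R) + (b : R) * f t₀) ∈ q :=
      ((hqp.radical_le_iff).2 hle) hrad
    by_cases hfi : (S q).FiniteIndex
    · obtain ⟨n, hn, -, hsn⟩ := Subgroup.exists_pow_mem_of_index_ne_zero hfi.index_ne_zero s
      exact tors_root _ s hn hsn
    · have ht : t₀ ∉ S q := ht₀ (S q) (Finset.mem_image_of_mem S (hfin.mem_toFinset.2 hq)) hfi
      rcases hqp.mem_or_mem hmem with h1 | h1
      · refine ⟨1, one_pos, ?_⟩
        rw [pow_one]
        have h2 := Ideal.Quotient.eq_zero_iff_mem.2 h1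
        rw [map_sub, map_one, sub_eq_zero] at h2
        exact h2
      · exfalso
        apply ht
        have h2 := Ideal.Quotient.eq_zero_iff_mem.2 h1
        rw [map_add, map_mul, map_natCast, map_natCast] at h2
        have h3 : (p : R ⧸ q) = 0 := by
          have := Ideal.Quotient.eq_zero_iff_mem.2 (hle hann)
          rwa [map_natCast] at this
        refine order_of_lin (K := R ⧸ q) hp h3 hab (x := Ideal.Quotient.mk q (f t₀))
          (y := Ideal.Quotient.mk q (f t₀⁻¹)) ?_ h2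
        rw [← map_mul, ← map_mul, mul_inv_cancel, map_one, map_one]
  have hn : ∃ n : ℕ, 0 < n ∧ ∀ q ∈ (Module.annihilator R V).minimalPrimes, f s ^ n - 1 ∈ q := by
    choose! n hn0 hn1 using key
    refine ⟨∏ q ∈ hfin.toFinset, n q, Finset.prod_pos fun q hq =>
      hn0 q (hfin.mem_toFinset.1 hq), fun q hq => ?_⟩
    obtain ⟨c, hc⟩ := Finset.dvd_prod_of_mem n (hfin.mem_toFinset.2 hq)
    rw [hc, ← Ideal.Quotient.eq_zero_iff_mem, map_sub, map_one, sub_eq_zero, map_pow, pow_mul]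
    have h4 : (Ideal.Quotient.mk q) (f s) ^ n q = 1 := hn1 q hq
    rw [h4, one_pow]
  obtain ⟨n, hn0, hn1⟩ := hn
  have hr2 : f s ^ n - 1 ∈ (Module.annihilator R V).radical := by
    rw [← Ideal.sInf_minimalPrimes]
    exact (Submodule.mem_sInf).2 fun q hq => hn1 q hq
  obtain ⟨k, hk⟩ := hr2
  obtain ⟨r, hr⟩ := exists_add_pow_prime_pow_eq hp (f s ^ n - 1) (1 : R) k
  have hkp : k ≤ p ^ k := (Nat.lt_pow_self hp.one_lt).le
  have hfinal : f s ^ (n * p ^ k) - 1 ∈ Module.annihilator R V := by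
    have h5 : f s ^ (n * p ^ k) - 1 = (f s ^ n - 1) ^ (p ^ k) +
        (p : R) * ((f s ^ n - 1) * 1 * r) := by
      rw [sub_add_cancel, one_pow] at hr
      rw [pow_mul, hr]
      ring
    rw [h5]
    refine Ideal.add_mem _ ?_ (Ideal.mul_mem_right _ _ hann)
    obtain ⟨d, hd⟩ := Nat.exists_eq_add_of_le hkp
    rw [hd, pow_add]
    exact Ideal.mul_mem_right _ _ hk
  refine ⟨n * p ^ k, Nat.mul_pos hn0 (pow_pos hp.pos k), fun v => ?_⟩
  have h6 := (Module.mem_annihilator.1 hfinal) v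
  rw [sub_smul, one_smul, sub_eq_zero] at h6
  rw [map_pow]
  exact h6

end Pool.Agent.LampC
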