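import Pool.Agent.Lib.LampC.Defs
import Pool.Agent.Lib.LampC.GP
import Pool.Agent.Lib.MP_d5e6ed_al.Main

set_option autoImplicit false

namespace Pool.Agent.LampC

open Subgroup PolycyclicCent
open scoped commutatorElement

/-- The pair for an abelian normal subgroup `K` with abelian quotient, of exponent `p`. -/
private theorem xy_aux {Q : Type*} [Group Q] [Group.FG Q] (K : Subgroup Q) [K.Normal]
    {p : ℕ} (hp : p.Prime) (hpow : ∀ x ∈ K, x ^ p = 1)
    (hK : ∀ x ∈ K, ∀ y ∈ K, x * y = y * x) (hab : commutator Q ≤ K) :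
    ∃ x ∈ K, ∃ g : Q, ∀ a b : ℕ, ¬ (p ∣ a ∧ p ∣ b) → ∀ s : Q,
      s * (x ^ a * (g * x * g⁻¹) ^ b) * s⁻¹ = x ^ a * (g * x * g⁻¹) ^ b →
      ∃ n : ℕ, 0 < n ∧ ∀ m ∈ K, s ^ n * m * (s ^ n)⁻¹ = m := by
  classical
  have hAfg : Group.FG (Abelianization Q) :=
    Group.fg_of_surjective (f := Abelianization.of) (QuotientGroup.mk'_surjective _)
  -- the module structure
  let R := MonoidAlgebra ℤ (Abelianization Q)
  let V := Additive (Abelianization K)
  let _ : Module R V := Module.compHom V (ringAct K hab).toRingHom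
  have hsmul : ∀ (g : Q) (m : V),
      (MonoidAlgebra.of ℤ _ (Abelianization.of g) : R) • m = act K g m := by
    intro g m
    change (ringAct K hab (MonoidAlgebra.of ℤ _ (Abelianization.of g))) m = _
    rw [ringAct_of]
  have hRnoeth : IsNoetherianRing R := Algebra.FiniteType.isNoetherianRing ℤ R
  have hMfin : Module.Finite R V := by
    obtain ⟨X, hX, hXN, hXL⟩ := normal_fg K hab
    let X' : Set K := {n | (n : Q) ∈ X}
    have hX' : X'.Finite := hX.preimage (Subtype.val_injective.injOn)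
    let W : Submodule R V := Submodule.span R (cls K '' X')
    let L : Subgroup Q :=
      { carrier := {x | ∃ h : x ∈ K, cls K ⟨x, h⟩ ∈ W}
        mul_mem' := by
          rintro a b ⟨ha, ha'⟩ ⟨hb, hb'⟩
          refine ⟨K.mul_mem ha hb, ?_⟩
          have : (⟨a * b, K.mul_mem ha hb⟩ : K) = ⟨a, ha⟩ * ⟨b, hb⟩ := rfl
          rw [this, cls_mul]
          exact W.add_mem ha' hb'
        one_mem' := ⟨K.one_mem, by
          have : (⟨1, K.one_mem⟩ : K) = 1 := rfl
          rw [this, cls_one]; exact W.zero_mem⟩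
        inv_mem' := by
          rintro a ⟨ha, ha'⟩
          refine ⟨K.inv_mem ha, ?_⟩
          have : (⟨a⁻¹, K.inv_mem ha⟩ : K) = ⟨a, ha⟩⁻¹ := rfl
          rw [this, cls_inv]
          exact W.neg_mem ha' }
    have hLn : L.Normal := by
      constructor
      rintro n ⟨hn, hn'⟩ g
      have hg : g * n * g⁻¹ ∈ K := Subgroup.Normal.conj_mem inferInstance _ hn _
      refine ⟨hg, ?_⟩
      have h1 := W.smul_mem (MonoidAlgebra.of ℤ _ (Abelianization.of g) : R) hn'
      rw [hsmul, act_cls] at h1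
      have : (MulAut.conjNormal g : MulAut K) ⟨n, hn⟩ = ⟨g * n * g⁻¹, hg⟩ := by
        ext; simp
      rwa [this] at h1
    have hNL : K ≤ L := hXL L hLn (by
      intro x hx
      exact ⟨hXN hx, Submodule.subset_span ⟨⟨x, hXN hx⟩, hx, rfl⟩⟩)
    refine ⟨⟨(hX'.image (cls K)).toFinset, ?_⟩⟩
    rw [Set.Finite.coe_toFinset, eq_top_iff]
    rintro x -
    obtain ⟨n, rfl⟩ := cls_surj K x
    obtain ⟨h, h'⟩ := hNL n.2
    exact h'
  -- the class map is injective
  have hbot : ⁅K, K⁆ ≤ ⊥ := by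
    rw [commutator_le]
    intro x hx y hy
    rw [mem_bot, commutatorElement_eq_one_iff_mul_comm]
    exact hK x hx y hy
  have hinj : ∀ a b : K, cls K a = cls K b → a = b := by
    intro a b h
    have h1 := hbot (cls_eq K a b h)
    rw [mem_bot] at h1
    have h2 : a⁻¹ * b = 1 := Subtype.ext h1
    exact inv_mul_eq_one.1 h2
  have hpowcls : ∀ (a : K) (n : ℕ), cls K (a ^ n) = n • cls K a := by
    intro a n
    induction n with
    | zero => simp [cls_one]
    | succ n ih => rw [pow_succ, cls_mul, ih, succ_nsmul]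
  have hV : ∀ v : V, p • v = 0 := by
    intro v
    obtain ⟨n, rfl⟩ := cls_surj K v
    rw [← hpowcls]
    have : n ^ p = 1 := Subtype.ext (hpow n n.2)
    rw [this, cls_one]
  obtain ⟨w, t₀, hw⟩ := gen_pair (R := R) (V := V)
    (MonoidAlgebra.of ℤ (Abelianization Q) : Abelianization Q →* R) hp hV
  obtain ⟨x, rfl⟩ := cls_surj K w
  obtain ⟨g, rfl⟩ := QuotientGroup.mk'_surjective _ t₀
  change ∀ a b : ℕ, ¬ (p ∣ a ∧ p ∣ b) → ∀ s : Abelianization Q,
      (MonoidAlgebra.of ℤ (Abelianization Q) s : R) • (a • cls K x +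
        b • (MonoidAlgebra.of ℤ (Abelianization Q) (Abelianization.of g) : R) • cls K x) =
        a • cls K x +
        b • (MonoidAlgebra.of ℤ (Abelianization Q) (Abelianization.of g) : R) • cls K x →
      ∃ n : ℕ, 0 < n ∧ ∀ v : V,
        (MonoidAlgebra.of ℤ (Abelianization Q) (s ^ n) : R) • v = v at hw
  refine ⟨x, x.2, g, fun a b hab' s hs => ?_⟩
  have hcomb : a • cls K x +
        b • (MonoidAlgebra.of ℤ (Abelianization Q) (Abelianization.of g) : R) • cls K x =
      cls K (x ^ a * (MulAut.conjNormal g : MulAut K) x ^ b) := by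
    rw [hsmul, act_cls, cls_mul, hpowcls, hpowcls]
  obtain ⟨n, hn, hn'⟩ := hw a b hab' (Abelianization.of s) (by
    rw [hcomb, hsmul, act_cls]
    congr 1
    ext
    rw [MulAut.conjNormal_apply]
    simpa using hs)
  refine ⟨n, hn, fun m hm => ?_⟩
  have h1 := hn' (cls K ⟨m, hm⟩)
  rw [← map_pow, hsmul, act_cls] at h1
  have h2 := congrArg Subtype.val (hinj _ _ h1)
  rw [MulAut.conjNormal_apply] at h2
  exact h2

/-- PROOF. Apply the constructions of `MP_d5e6ed_al/Main.lean` (`act`, `actAb`, `ringAct`, the module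
structure and its finiteness as in `main_step`, from `normal_fg`) to the group `G ⧸ N` and its abelian
normal subgroup `M.map (mk' N)` (commutator of `G ⧸ N` inside by `hT`), and `gen_pair` with
`R = MonoidAlgebra ℤ (Abelianization (G ⧸ N))`, `f = MonoidAlgebra.of`. `x` over `w`, `y` over
`f t₀ • w`; use `a = 0, b = 1` for `y` and `a = 1, b = j` for `x * y ^ j`. (Any other way to make `M ⧸ N`
a finitely generated module over a noetherian commutative ring is fine.) -/
theorem exists_xy_ab {G : Type*} [Group G] [Group.FG G] (N M : Subgroup G) [N.Normal] [M.Normal]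
    (hNM : N ≤ M) {p : ℕ} (hp : p.Prime) (hpow : ∀ x ∈ M, x ^ p ∈ N)
    (hab : ∀ x ∈ M, ∀ y ∈ M, ⁅x, y⁆ ∈ N) (hT : ∀ x y : G, ⁅x, y⁆ ∈ M) :
    ∃ x ∈ M, ∃ y ∈ M,
      (∀ s : G, ⁅s, y⁆ ∈ N → ∃ n : ℕ, 0 < n ∧ ∀ m ∈ M, ⁅s ^ n, m⁆ ∈ N) ∧
      ∀ j < p, ∀ s : G, ⁅s, x * y ^ j⁆ ∈ N → ∃ n : ℕ, 0 < n ∧ ∀ m ∈ M, ⁅s ^ n, m⁆ ∈ N := by
  have hnorm : (M.map (QuotientGroup.mk' N)).Normal :=
    Subgroup.Normal.map inferInstance _ (QuotientGroup.mk'_surjective N)
  have hcomm : ∀ u v : G, ⁅u, v⁆ ∈ N ↔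
      (QuotientGroup.mk' N u) * (QuotientGroup.mk' N v) * (QuotientGroup.mk' N u)⁻¹ =
        QuotientGroup.mk' N v := by
    intro u v
    rw [← QuotientGroup.eq_one_iff, ← QuotientGroup.mk'_apply, map_commutatorElement,
      commutatorElement_def, mul_inv_eq_one]
  obtain ⟨x', hx', g', h⟩ := xy_aux (M.map (QuotientGroup.mk' N)) hp
    (by
      rintro _ ⟨x, hx, rfl⟩
      rw [← map_pow, QuotientGroup.mk'_apply, QuotientGroup.eq_one_iff]
      exact hpow x hx)
    (by
      rintro _ ⟨x, hx, rfl⟩ _ ⟨y, hy, rfl⟩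
      have h1 := (hcomm x y).1 (hab x hx y hy)
      exact mul_inv_eq_iff_eq_mul.1 h1)
    (by
      rw [_root_.commutator_def, commutator_le]
      intro u _ v _
      obtain ⟨a, rfl⟩ := QuotientGroup.mk'_surjective N u
      obtain ⟨b, rfl⟩ := QuotientGroup.mk'_surjective N v
      rw [← map_commutatorElement]
      exact ⟨_, hT a b, rfl⟩)
  obtain ⟨x, hx, rfl⟩ := hx'
  obtain ⟨g, rfl⟩ := QuotientGroup.mk'_surjective N g'
  have key : ∀ a b : ℕ, ¬ (p ∣ a ∧ p ∣ b) → ∀ s : G,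
      ⁅s, x ^ a * (g * x * g⁻¹) ^ b⁆ ∈ N → ∃ n : ℕ, 0 < n ∧ ∀ m ∈ M, ⁅s ^ n, m⁆ ∈ N := by
    intro a b hab' s hs
    obtain ⟨n, hn, hn'⟩ := h a b hab' (QuotientGroup.mk' N s) (by
      have h1 := (hcomm _ _).1 hs
      simpa only [map_mul, map_pow, map_inv] using h1)
    refine ⟨n, hn, fun m hm => (hcomm _ _).2 ?_⟩
    have h2 := hn' _ ⟨m, hm, rfl⟩
    simpa only [map_pow] using h2
  refine ⟨x, hx, g * x * g⁻¹, Subgroup.Normal.conj_mem inferInstance _ hx _, ?_, ?_⟩
  · intro s hs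
    exact key 0 1 (fun h => hp.one_lt.ne' (Nat.dvd_one.1 h.2)) s (by simpa using hs)
  · intro j _ s hs
    exact key 1 j (fun h => hp.one_lt.ne' (Nat.dvd_one.1 h.1)) s (by simpa using hs)

end Pool.Agent.LampC
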