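import Pool.Agent.Lib.LampC.Core
import Pool.Agent.Lib.LampC.XYab
import Pool.Agent.Lib.LampC.CentM

set_option autoImplicit false

namespace Pool.Agent.LampC

universe u

open Subgroup PolycyclicCent
open scoped commutatorElement

/-- PROOF: `exists_xy_ab`, `cent_fg_M`, `core` for `↥M` and `N.subgroupOf M`: `M`, `N` are finitely
generated; `N`, `M` (modulo `N` finitely generated abelian) and `G` (`G ⧸ M` finitely generated abelian)
have all subgroups finitely generated. Compare `main_nonper` in `NonPer.lean`. -/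
theorem main_ab {G : Type u} [Group G] (N M : Subgroup G) [N.Normal] [M.Normal]
    (hN : Group.IsNilpotent N) (hNM : N ≤ M) {p : ℕ} (hp : p.Prime)
    (hpow : ∀ x ∈ M, x ^ p ∈ N) (hab : ∀ x ∈ M, ∀ y ∈ M, ⁅x, y⁆ ∈ N)
    (hT : ∀ x y : G, ⁅x, y⁆ ∈ M)
    (hker : {τ : G ⧸ M | ∃ s : G, (s : G ⧸ M) = τ ∧ ∀ m ∈ M, ⁅s, m⁆ ∈ N}.Finite)
    (hC : ∀ g : G, (centralizer {g}).FG) (H : Subgroup G) : H.FG := by
  have hG : Group.FG G := by
    have h1 := hC 1
    have h2 : centralizer {(1 : G)} = ⊤ := by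
      rw [eq_top_iff]; intro x _; rw [mem_centralizer_singleton_iff]; simp
    rw [h2] at h1
    exact Group.fg_def.mpr h1
  obtain ⟨x, hx, y, hy, hyn, hxyn⟩ := exists_xy_ab N M hNM hp hpow hab hT
  obtain ⟨c, hc⟩ := (isNilpotent_iff_lowerCentralSeries N).1 hN
  have hmapN : (N.subgroupOf M).map M.subtype = N := by
    rw [subgroupOf_map_subtype, inf_eq_left.2 hNM]
  have hc' : (N.subgroupOf M).lowerCentralSeries c = ⊥ := by
    apply Subgroup.map_injective M.subtype_injective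
    rw [map_lowerCentralSeries, hmapN, hc, Subgroup.map_bot]
  have hP : PerAb (N.subgroupOf M) :=
    { per := fun x => ⟨p, hp.pos, mem_subgroupOf.2 (by simpa using hpow x x.2)⟩
      ab := fun x y => mem_subgroupOf.2 (hab x x.2 y y.2) }
  have h5 := core p hp c M (N.subgroupOf M) hc' hP ⟨x, hx⟩ ⟨y, hy⟩
    (mem_subgroupOf.2 (hpow x hx)) (mem_subgroupOf.2 (hpow y hy))
    (cent_fg_M N M hT hker hC ⟨y, hy⟩ hyn)
    (fun j hj => cent_fg_M N M hT hker hC (⟨x, hx⟩ * ⟨y, hy⟩ ^ j) (hxyn j hj))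
  obtain ⟨hM, hNfg⟩ := h5
  have hNfg' : N.FG := by
    have := map_fg M.subtype hNfg
    rwa [hmapN] at this
  have hNN : NoethSub N := noethSub_of_nilpotent_fg hN hNfg'
  have hMN : NoethSub M := noethSub_of_comm hNN hab M ((Group.fg_iff_subgroup_fg M).mp hM)
    le_sup_left le_rfl
  have hQ : Group.FG (G ⧸ M) := Group.fg_of_surjective (QuotientGroup.mk'_surjective M)
  have hQc : ∀ x y : G ⧸ M, x * y = y * x := by
    intro x y
    obtain ⟨x, rfl⟩ := QuotientGroup.mk_surjective x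
    obtain ⟨y, rfl⟩ := QuotientGroup.mk_surjective y
    rw [← commutatorElement_eq_one_iff_mul_comm]
    exact (QuotientGroup.eq_one_iff _).2 (hT x y)
  exact D5.Red.fg_of_ext M hMN (fun K => comm_fg' hQc hQ K) H

end Pool.Agent.LampC
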