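import Pool.Agent.Lib.LampC.Defs
import Pool.Agent.Lib.LampC.FinPerAb

set_option autoImplicit false

namespace Pool.Agent.LampC

universe u

open Subgroup PolycyclicCent
open scoped commutatorElement

/-- `M ⧸ N` finite and abelian, `G ⧸ M` abelian: `D5.main` with `P₀ = ⊤`. -/
theorem main_fin {G : Type u} [Group G] (N M : Subgroup G) [N.Normal] [M.Normal]
    (hN : Group.IsNilpotent N) (hNM : N ≤ M) (hab : ∀ x ∈ M, ∀ y ∈ M, ⁅x, y⁆ ∈ N)
    (hT : ∀ x y : G, ⁅x, y⁆ ∈ M) (hfin : (N.subgroupOf M).FiniteIndex)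
    (hC : ∀ g : G, (centralizer {g}).FG) (H : Subgroup G) : H.FG := by
  have hG : Group.FG G := by
    have h1 := hC 1
    have h2 : centralizer {(1 : G)} = ⊤ := by
      rw [eq_top_iff]; intro x _; rw [mem_centralizer_singleton_iff]; simp
    rw [h2] at h1
    exact Group.fg_def.mpr h1
  -- the subgroup `M ⧸ N`
  set Q : Subgroup (G ⧸ N) := M.map (QuotientGroup.mk' N) with hQ
  have hQfin : Finite Q := by
    have hF : Finite (M ⧸ N.subgroupOf M) := inferInstance
    let f : M →* Q :=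
      { toFun := fun x => ⟨QuotientGroup.mk' N x, ⟨x, x.2, rfl⟩⟩
        map_one' := rfl
        map_mul' := fun _ _ => rfl }
    have hf : Function.Surjective f := by
      rintro ⟨_, x, hx, rfl⟩
      exact ⟨⟨x, hx⟩, rfl⟩
    have hker : N.subgroupOf M ≤ f.ker := by
      intro x hx
      rw [MonoidHom.mem_ker]
      exact Subtype.ext ((QuotientGroup.eq_one_iff _).2 hx)
    refine Finite.of_surjective (QuotientGroup.lift (N.subgroupOf M) f hker) ?_
    intro y
    obtain ⟨x, rfl⟩ := hf y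
    exact ⟨QuotientGroup.mk x, rfl⟩
  have hQn : Q.Normal := by
    rw [hQ]
    exact Subgroup.Normal.map (inferInstance : M.Normal) _ (QuotientGroup.mk'_surjective N)
  have hQno : NoethSub Q := by
    intro K hK
    have : Finite K := Finite.of_injective (Subgroup.inclusion hK) (Subgroup.inclusion_injective hK)
    rw [← Group.fg_iff_subgroup_fg]
    infer_instance
  have hGN : Group.FG (G ⧸ N) := Group.fg_of_surjective (QuotientGroup.mk'_surjective N)
  have hcfg : Group.FG ((G ⧸ N) ⧸ Q) := Group.fg_of_surjective (QuotientGroup.mk'_surjective Q)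
  have hcm : ∀ x y : (G ⧸ N) ⧸ Q, x * y = y * x := by
    intro x y
    obtain ⟨x, rfl⟩ := QuotientGroup.mk'_surjective Q x
    obtain ⟨y, rfl⟩ := QuotientGroup.mk'_surjective Q y
    obtain ⟨x, rfl⟩ := QuotientGroup.mk'_surjective N x
    obtain ⟨y, rfl⟩ := QuotientGroup.mk'_surjective N y
    rw [← commutatorElement_eq_one_iff_mul_comm, ← map_commutatorElement, ← map_commutatorElement,
      QuotientGroup.mk'_apply, QuotientGroup.eq_one_iff]
    exact ⟨_, hT x y, rfl⟩
  have hsub : ∀ K : Subgroup ((G ⧸ N) ⧸ Q), K.FG := fun K => comm_fg' hcm hcfg K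
  have hfg : ∀ K : Subgroup (G ⧸ N), K.FG := D5.Red.fg_of_ext Q hQno hsub
  have hsol : Group.IsSolvable (⊤ : Subgroup (G ⧸ N)) := by
    have hQs : Group.IsSolvable Q := by
      refine Group.isSolvable_of_comm ?_
      rintro ⟨_, x, hx, rfl⟩ ⟨_, y, hy, rfl⟩
      apply Subtype.ext
      change QuotientGroup.mk' N x * QuotientGroup.mk' N y
        = QuotientGroup.mk' N y * QuotientGroup.mk' N x
      rw [← commutatorElement_eq_one_iff_mul_comm, ← map_commutatorElement,
        QuotientGroup.mk'_apply, QuotientGroup.eq_one_iff]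
      exact hab x hx y hy
    have hCs : Group.IsSolvable ((G ⧸ N) ⧸ Q) := Group.isSolvable_of_comm hcm
    have hS : Group.IsSolvable (G ⧸ N) :=
      Group.isSolvable_of_ker_le_range Q.subtype (QuotientGroup.mk' Q) (by
        rw [QuotientGroup.ker_mk', Subgroup.range_subtype])
    infer_instance
  exact D5.main N hN ⊤ inferInstance hsol hfg hC H

/-- `M ⧸ N` finite, or for some prime `p` only finitely many elements of `G ⧸ M` act trivially on
the elements of order `p` of the periodic abelian group `M ⧸ N`. -/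
theorem main_perab' {G : Type u} [Group G] (N M : Subgroup G) [N.Normal] [M.Normal]
    (hN : Group.IsNilpotent N) (hNM : N ≤ M)
    (hper : ∀ x ∈ M, ∃ n : ℕ, 0 < n ∧ x ^ n ∈ N) (hab : ∀ x ∈ M, ∀ y ∈ M, ⁅x, y⁆ ∈ N)
    (hT : ∀ x y : G, ⁅x, y⁆ ∈ M)
    (hker : (N.subgroupOf M).FiniteIndex ∨ ∃ p : ℕ, p.Prime ∧
      {τ : G ⧸ M | ∃ s : G, (s : G ⧸ M) = τ ∧ ∀ m ∈ M, m ^ p ∈ N → ⁅s, m⁆ ∈ N}.Finite)
    (hC : ∀ g : G, (centralizer {g}).FG) (H : Subgroup G) : H.FG := by
  rcases hker with h | ⟨p, hp, h⟩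
  · exact main_fin N M hN hNM hab hT h hC H
  · exact main_perab N M hN hNM hper hab hT hp h hC H

end Pool.Agent.LampC
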