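import Pool.Agent.Lib.LampC.Core
import Pool.Agent.Lib.LampC.GP

/-!
Nilpotent-by-(periodic abelian)-by-abelian groups with finitely generated centralizers, if for some
prime `p` only finitely many elements of the top act trivially on the elements of order dividing `p` of
the middle (helper50, helper81; the pieces are those of helpers 83, 39, 19, 78, 1 for exponent `p`).
-/

set_option autoImplicit false

namespace Pool.Agent.LampC

universe u

open Subgroup PolycyclicCent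
open scoped commutatorElement

/-- `gen_pair` for the elements of order dividing `p` of an abelian normal subgroup, with abelian
quotient, of a finitely generated group -/
theorem pair_p {Q : Type*} [Group Q] [Group.FG Q] (P : Subgroup Q) [P.Normal]
    (hab : commutator Q ≤ P) (hPab : ⁅P, P⁆ = ⊥) {p : ℕ} (hp : p.Prime) :
    ∃ w ∈ P, w ^ p = 1 ∧ ∃ t₀ : Q, ∀ a b : ℕ, ¬ (p ∣ a ∧ p ∣ b) → ∀ s : Q,
      s * (w ^ a * (t₀ * w * t₀⁻¹) ^ b) * s⁻¹ = w ^ a * (t₀ * w * t₀⁻¹) ^ b →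
      ∃ n : ℕ, 0 < n ∧ ∀ v ∈ P, v ^ p = 1 → s ^ n * v * (s ^ n)⁻¹ = v := by
  classical
  have hAfg : Group.FG (Abelianization Q) :=
    Group.fg_of_surjective (f := Abelianization.of) (QuotientGroup.mk'_surjective _)
  let R := MonoidAlgebra ℤ (Abelianization Q)
  let M := Additive (Abelianization P)
  let _ : Module R M := Module.compHom M (ringAct P hab).toRingHom
  have hsmul : ∀ (g : Q) (m : M),
      (MonoidAlgebra.of ℤ _ (Abelianization.of g) : R) • m = act P g m := by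
    intro g m
    change (ringAct P hab (MonoidAlgebra.of ℤ _ (Abelianization.of g))) m = _
    rw [ringAct_of]
  have hRnoeth : IsNoetherianRing R := Algebra.FiniteType.isNoetherianRing ℤ R
  have hMfin : Module.Finite R M := by
    obtain ⟨X, hX, hXN, hXL⟩ := normal_fg P hab
    let X' : Set P := {n | (n : Q) ∈ X}
    have hX' : X'.Finite := hX.preimage (Subtype.val_injective.injOn)
    let W : Submodule R M := Submodule.span R (cls P '' X')
    let L : Subgroup Q :=
      { carrier := {x | ∃ h : x ∈ P, cls P ⟨x, h⟩ ∈ W}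
        mul_mem' := by
          rintro a b ⟨ha, ha'⟩ ⟨hb, hb'⟩
          refine ⟨P.mul_mem ha hb, ?_⟩
          have : (⟨a * b, P.mul_mem ha hb⟩ : P) = ⟨a, ha⟩ * ⟨b, hb⟩ := rfl
          rw [this, cls_mul]
          exact W.add_mem ha' hb'
        one_mem' := ⟨P.one_mem, by
          have : (⟨1, P.one_mem⟩ : P) = 1 := rfl
          rw [this, cls_one]; exact W.zero_mem⟩
        inv_mem' := by
          rintro a ⟨ha, ha'⟩
          refine ⟨P.inv_mem ha, ?_⟩
          have : (⟨a⁻¹, P.inv_mem ha⟩ : P) = ⟨a, ha⟩⁻¹ := rfl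
          rw [this, cls_inv]
          exact W.neg_mem ha' }
    have hLn : L.Normal := by
      constructor
      rintro n ⟨hn, hn'⟩ g
      have hg : g * n * g⁻¹ ∈ P := Subgroup.Normal.conj_mem inferInstance _ hn _
      refine ⟨hg, ?_⟩
      have h1 := W.smul_mem (MonoidAlgebra.of ℤ _ (Abelianization.of g) : R) hn'
      rw [hsmul, act_cls] at h1
      have : (MulAut.conjNormal g : MulAut P) ⟨n, hn⟩ = ⟨g * n * g⁻¹, hg⟩ := by
        ext; simp
      rwa [this] at h1
    have hNL : P ≤ L := hXL L hLn (by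
      intro x hx
      exact ⟨hXN hx, Submodule.subset_span ⟨⟨x, hXN hx⟩, hx, rfl⟩⟩)
    refine ⟨⟨(hX'.image (cls P)).toFinset, ?_⟩⟩
    rw [Set.Finite.coe_toFinset, eq_top_iff]
    rintro x -
    obtain ⟨n, rfl⟩ := cls_surj P x
    obtain ⟨h, h'⟩ := hNL n.2
    exact h'
  have hinj : ∀ a b : P, cls P a = cls P b → a = b := by
    intro a b h
    have h1 := cls_eq P a b h
    rw [hPab, Subgroup.mem_bot] at h1
    have h2 : a⁻¹ * b = 1 := Subtype.ext h1
    exact (inv_mul_eq_one.mp h2)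
  have hfix : ∀ (g : Q) (a : P), (MonoidAlgebra.of ℤ _ (Abelianization.of g) : R) • cls P a = cls P a
      ↔ g * a * g⁻¹ = (a : Q) := by
    intro g a
    rw [hsmul, act_cls]
    constructor
    · intro h
      have := congrArg (fun z : P => (z : Q)) (hinj _ _ h)
      simpa using this
    · intro h
      congr 1
      apply Subtype.ext
      rw [MulAut.conjNormal_apply]
      exact h
  have hcp : ∀ (a : P) (n : ℕ), cls P (a ^ n) = n • cls P a := by
    intro a n
    simp [cls]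
  -- the elements of order dividing `p`
  let Vp : Submodule R M := Submodule.torsionBy R M (p : R)
  have hVp : ∀ a : P, cls P a ∈ Vp ↔ (a : Q) ^ p = 1 := by
    intro a
    rw [Submodule.mem_torsionBy_iff, Nat.cast_smul_eq_nsmul, ← hcp]
    constructor
    · intro h
      rw [← cls_one P] at h
      have := congrArg (fun z : P => (z : Q)) (hinj _ _ h)
      simpa using this
    · intro h
      have : a ^ p = 1 := Subtype.ext (by simpa using h)
      rw [this, cls_one]
  have hVfin : Module.Finite R Vp := by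
    have : IsNoetherian R M := isNoetherian_of_isNoetherianRing_of_finite R M
    infer_instance
  have hV : ∀ v : Vp, p • v = 0 := by
    rintro ⟨v, hv⟩
    apply Subtype.ext
    rw [Submodule.mem_torsionBy_iff, Nat.cast_smul_eq_nsmul] at hv
    exact hv
  obtain ⟨w, t₀, h⟩ := gen_pair (V := Vp) (MonoidAlgebra.of ℤ (Abelianization Q)) hp hV
  obtain ⟨w, hw⟩ := w
  obtain ⟨w, rfl⟩ := cls_surj P w
  obtain ⟨t₀, rfl⟩ := QuotientGroup.mk'_surjective _ t₀
  refine ⟨w, w.2, (hVp w).mp hw, t₀, fun a b hab' s hs => ?_⟩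
  have hy : t₀ * (w : Q) * t₀⁻¹ ∈ P := Subgroup.Normal.conj_mem inferInstance _ w.2 _
  have h1 : (MonoidAlgebra.of ℤ _ (Abelianization.of t₀) : R) • cls P w
      = cls P ⟨t₀ * (w : Q) * t₀⁻¹, hy⟩ := by
    rw [hsmul, act_cls]
    congr 1
  have h2 : a • cls P w + b • (MonoidAlgebra.of ℤ _ (Abelianization.of t₀) : R) • cls P w
      = cls P (w ^ a * ⟨t₀ * (w : Q) * t₀⁻¹, hy⟩ ^ b) := by
    rw [h1, cls_mul, hcp, hcp]
  obtain ⟨n, hn, h3⟩ := h a b hab' (Abelianization.of s) (by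
    apply Subtype.ext
    change (MonoidAlgebra.of ℤ _ (Abelianization.of s) : R) •
      (a • cls P w + b • (MonoidAlgebra.of ℤ _ (Abelianization.of t₀) : R) • cls P w)
      = a • cls P w + b • (MonoidAlgebra.of ℤ _ (Abelianization.of t₀) : R) • cls P w
    rw [h2, hfix]
    exact hs)
  refine ⟨n, hn, fun v hv hvp => ?_⟩
  have h4 := congrArg Subtype.val (h3 ⟨cls P ⟨v, hv⟩, (hVp ⟨v, hv⟩).mpr hvp⟩)
  rw [← map_pow] at h4
  exact (hfix _ _).mp h4

theorem exists_xy_p {G : Type*} [Group G] [Group.FG G] (N M : Subgroup G) [N.Normal] [M.Normal]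
    {p : ℕ} (hp : p.Prime) (hab : ∀ x ∈ M, ∀ y ∈ M, ⁅x, y⁆ ∈ N) (hT : ∀ x y : G, ⁅x, y⁆ ∈ M) :
    ∃ x ∈ M, ∃ y ∈ M, x ^ p ∈ N ∧ y ^ p ∈ N ∧
      (∀ s : G, ⁅s, y⁆ ∈ N → ∃ n : ℕ, 0 < n ∧ ∀ m ∈ M, m ^ p ∈ N → ⁅s ^ n, m⁆ ∈ N) ∧
      ∀ j < p, ∀ s : G, ⁅s, x * y ^ j⁆ ∈ N →
        ∃ n : ℕ, 0 < n ∧ ∀ m ∈ M, m ^ p ∈ N → ⁅s ^ n, m⁆ ∈ N := by
  set mk := QuotientGroup.mk' N with hmk
  have hmem : ∀ x : G, mk x = 1 ↔ x ∈ N := fun x => QuotientGroup.eq_one_iff x
  have hQfg : Group.FG (G ⧸ N) :=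
    Group.fg_of_surjective (f := mk) (QuotientGroup.mk'_surjective _)
  have hPn : (M.map mk).Normal :=
    Subgroup.Normal.map inferInstance mk (QuotientGroup.mk'_surjective N)
  have hc : commutator (G ⧸ N) ≤ M.map mk := by
    rw [_root_.commutator_def, commutator_le]
    intro a _ b _
    obtain ⟨x, rfl⟩ := QuotientGroup.mk'_surjective N a
    obtain ⟨y, rfl⟩ := QuotientGroup.mk'_surjective N b
    rw [← map_commutatorElement]
    exact mem_map_of_mem _ (hT x y)
  have hPab : ⁅M.map mk, M.map mk⁆ = ⊥ := by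
    rw [eq_bot_iff, commutator_le]
    rintro _ ⟨x, hx, rfl⟩ _ ⟨y, hy, rfl⟩
    rw [← map_commutatorElement, Subgroup.mem_bot, hmem]
    exact hab x hx y hy
  obtain ⟨_, ⟨x, hx, rfl⟩, hxp, t₀, h⟩ := pair_p (M.map mk) hc hPab hp
  obtain ⟨t, rfl⟩ := QuotientGroup.mk'_surjective N t₀
  rw [← map_pow, hmem] at hxp
  have hy : t * x * t⁻¹ ∈ M := Subgroup.Normal.conj_mem inferInstance x hx t
  have hyp : (t * x * t⁻¹) ^ p ∈ N := by
    rw [conj_pow]
    exact Subgroup.Normal.conj_mem inferInstance _ hxp t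
  -- fixed elements and commutators
  have hfix : ∀ s z : G, mk s * mk z * (mk s)⁻¹ = mk z ↔ ⁅s, z⁆ ∈ N := by
    intro s z
    rw [← hmem, map_commutatorElement, commutatorElement_def, mul_inv_eq_one]
  have main : ∀ a b : ℕ, ¬ (p ∣ a ∧ p ∣ b) → ∀ s : G, ⁅s, x ^ a * (t * x * t⁻¹) ^ b⁆ ∈ N →
      ∃ n : ℕ, 0 < n ∧ ∀ m ∈ M, m ^ p ∈ N → ⁅s ^ n, m⁆ ∈ N := by
    intro a b hab' s hs
    obtain ⟨n, hn, h1⟩ := h a b hab' (mk s) (by
      have h2 := (hfix s _).mpr hs
      rw [map_mul, map_pow, map_pow, map_mul, map_mul, map_inv] at h2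
      exact h2)
    refine ⟨n, hn, fun m hm hmp => ?_⟩
    rw [← hfix, map_pow]
    refine h1 _ (mem_map_of_mem _ hm) ?_
    rw [← map_pow, hmem]
    exact hmp
  have hp1 : ¬ p ∣ 1 := fun h => hp.one_lt.ne' (Nat.dvd_one.mp h)
  refine ⟨x, hx, t * x * t⁻¹, hy, hxp, hyp, ?_, ?_⟩
  · intro s hs
    refine main 0 1 (fun h => hp1 h.2) s ?_
    rwa [pow_zero, one_mul, pow_one]
  · intro j _ s hs
    refine main 1 j (fun h => hp1 h.1) s ?_
    rwa [pow_one]

/-- An element `s` of `C = centralizer {g}` has finite order modulo `M`: otherwise `s ^ (B + 1)`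
has a power in the kernel, beyond the bound `B` of the finite set `hker`. So the image of
`C` in `G ⧸ M` is finite and `C ⊓ M` is finitely generated. -/
theorem cent_fg_p {G : Type u} [Group G] (N M : Subgroup G) [N.Normal] [M.Normal] (p : ℕ)
    (hT : ∀ x y : G, ⁅x, y⁆ ∈ M)
    (hker : {τ : G ⧸ M | ∃ s : G, (s : G ⧸ M) = τ ∧ ∀ m ∈ M, m ^ p ∈ N → ⁅s, m⁆ ∈ N}.Finite)
    (hC : ∀ g : G, (centralizer {g}).FG) (g : M)
    (hg : ∀ s : G, ⁅s, (g : G)⁆ ∈ N →
      ∃ n : ℕ, 0 < n ∧ ∀ m ∈ M, m ^ p ∈ N → ⁅s ^ n, m⁆ ∈ N) :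
    (centralizer {g}).FG := by
  set C : Subgroup G := centralizer {(g : G)} with hCdef
  have hCfg : C.FG := hC g
  have hCg : Group.FG C := (Group.fg_iff_subgroup_fg C).mpr hCfg
  have htor : ∀ s ∈ C, IsOfFinOrder ((s : G) : G ⧸ M) := by
    intro s hs
    by_contra hcon
    have hinj := injective_pow_iff_not_isOfFinOrder.mpr hcon
    have hfin : {n : ℕ | ((s : G ⧸ M)) ^ n ∈
        {τ : G ⧸ M | ∃ s : G, (s : G ⧸ M) = τ ∧ ∀ m ∈ M, m ^ p ∈ N → ⁅s, m⁆ ∈ N}}.Finite :=
      hker.preimage hinj.injOn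
    obtain ⟨B, hB⟩ := hfin.bddAbove
    have h1 : ⁅s ^ (B + 1), (g : G)⁆ ∈ N := by
      have h2 : s ^ (B + 1) ∈ C := C.pow_mem hs _
      have h3 : ⁅s ^ (B + 1), (g : G)⁆ = 1 := by
        rw [commutatorElement_eq_one_iff_mul_comm]
        exact (mem_centralizer_singleton_iff.mp h2)
      rw [h3]
      exact N.one_mem
    obtain ⟨n, hn, h4⟩ := hg _ h1
    have h5 : (B + 1) * n ≤ B := by
      apply hB
      refine ⟨(s ^ (B + 1)) ^ n, ?_, h4⟩
      rw [← pow_mul, QuotientGroup.mk_pow]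
    nlinarith
  let f : C →* G ⧸ M := (QuotientGroup.mk' M).comp C.subtype
  have hfr : Finite f.range := by
    have hcomm : ∀ a b : f.range, a * b = b * a := by
      rintro ⟨_, x, rfl⟩ ⟨_, y, rfl⟩
      apply Subtype.ext
      change f x * f y = f y * f x
      rw [← commutatorElement_eq_one_iff_mul_comm, ← map_commutatorElement]
      change ((⁅x, y⁆ : C) : G ⧸ M) = 1
      rw [QuotientGroup.eq_one_iff]
      exact hT x y
    let _ : CommGroup f.range := { (inferInstance : Group f.range) with mul_comm := hcomm }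
    have hfg : Group.FG f.range := inferInstance
    refine CommGroup.finite_of_fg_torsion f.range ?_
    rintro ⟨_, x, rfl⟩
    have := htor x x.2
    rw [isOfFinOrder_iff_pow_eq_one] at this ⊢
    obtain ⟨n, hn, h⟩ := this
    exact ⟨n, hn, Subtype.ext h⟩
  have hfi : f.ker.FiniteIndex := inferInstance
  have hkfg : Group.FG f.ker := Subgroup.fg_of_index_ne_zero f.ker
  have hker' : f.ker.map C.subtype = C ⊓ M := by
    ext z
    constructor
    · rintro ⟨y, hy, rfl⟩
      exact ⟨y.2, (QuotientGroup.eq_one_iff _).mp hy⟩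
    · rintro ⟨h1, h2⟩
      exact ⟨⟨z, h1⟩, (QuotientGroup.eq_one_iff _).mpr h2, rfl⟩
  have hinf : (C ⊓ M).FG := by
    rw [← hker']
    exact map_fg C.subtype ((Group.fg_iff_subgroup_fg _).mp hkfg)
  have h3 : (centralizer {g} : Subgroup M) = (C ⊓ M).subgroupOf M := by
    ext z
    rw [mem_subgroupOf, mem_inf, mem_centralizer_singleton_iff, mem_centralizer_singleton_iff,
      Subtype.ext_iff]
    exact ⟨fun h => ⟨h, z.2⟩, fun h => h.1⟩
  have h2 : Group.FG (C ⊓ M : Subgroup G) := (Group.fg_iff_subgroup_fg _).mpr hinf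
  rw [h3]
  exact (Group.fg_iff_subgroup_fg _).mp
    (Group.fg_of_surjective (f := (subgroupOfEquivOfLe (inf_le_right : C ⊓ M ≤ M)).symm.toMonoidHom)
      (subgroupOfEquivOfLe (inf_le_right : C ⊓ M ≤ M)).symm.surjective)

/-- PROOF: `exists_xy_p`, `cent_fg_p`, `core` for `↥M` and `N.subgroupOf M`: `M`, `N` are finitely
generated; `N`, `M` (modulo `N` finitely generated abelian) and `G` (`G ⧸ M` finitely generated abelian)
have all subgroups finitely generated. -/
theorem main_p {G : Type u} [Group G] (N M : Subgroup G) [N.Normal] [M.Normal]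
    (hN : Group.IsNilpotent N) (hNM : N ≤ M) (hper : ∀ x ∈ M, ∃ n : ℕ, 0 < n ∧ x ^ n ∈ N)
    (hab : ∀ x ∈ M, ∀ y ∈ M, ⁅x, y⁆ ∈ N) (hT : ∀ x y : G, ⁅x, y⁆ ∈ M) {p : ℕ} (hp : p.Prime)
    (hker : {τ : G ⧸ M | ∃ s : G, (s : G ⧸ M) = τ ∧ ∀ m ∈ M, m ^ p ∈ N → ⁅s, m⁆ ∈ N}.Finite)
    (hC : ∀ g : G, (centralizer {g}).FG) (H : Subgroup G) : H.FG := by
  have hG : Group.FG G := by
    have h1 := hC 1
    have h2 : centralizer {(1 : G)} = ⊤ := by
      rw [eq_top_iff]; intro x _; rw [mem_centralizer_singleton_iff]; simp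
    rw [h2] at h1
    exact Group.fg_def.mpr h1
  obtain ⟨x, hx, y, hy, hxp, hyp, hyn, hxyn⟩ := exists_xy_p N M hp hab hT
  obtain ⟨c, hc⟩ := (isNilpotent_iff_lowerCentralSeries N).1 hN
  have hmapN : (N.subgroupOf M).map M.subtype = N := by
    rw [subgroupOf_map_subtype, inf_eq_left.2 hNM]
  have hc' : (N.subgroupOf M).lowerCentralSeries c = ⊥ := by
    apply Subgroup.map_injective M.subtype_injective
    rw [map_lowerCentralSeries, hmapN, hc, Subgroup.map_bot]
  have hP : PerAb (N.subgroupOf M) :=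
    { per := fun x => by
        obtain ⟨n, hn, h⟩ := hper x x.2
        exact ⟨n, hn, mem_subgroupOf.2 (by simpa using h)⟩
      ab := fun x y => mem_subgroupOf.2 (hab x x.2 y y.2) }
  have h5 := core p hp c M (N.subgroupOf M) hc' hP ⟨x, hx⟩ ⟨y, hy⟩
    (mem_subgroupOf.2 hxp) (mem_subgroupOf.2 hyp)
    (cent_fg_p N M p hT hker hC ⟨y, hy⟩ hyn)
    (fun j hj => cent_fg_p N M p hT hker hC (⟨x, hx⟩ * ⟨y, hy⟩ ^ j) (hxyn j hj))
  obtain ⟨hM, hNfg⟩ := h5
  have hNfg' : N.FG := by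
    have := map_fg M.subtype hNfg
    rwa [hmapN] at this
  have hNN : NoethSub N := noethSub_of_nilpotent_fg hN hNfg'
  have hMN : NoethSub M := noethSub_of_comm hNN hab M ((Group.fg_iff_subgroup_fg M).mp hM)
    le_sup_left le_rfl
  have hQ : Group.FG (G ⧸ M) := Group.fg_of_surjective (QuotientGroup.mk'_surjective M)
  have hQc : ∀ x y : G ⧸ M, x * y = y * x := by
    intro x y
    obtain ⟨x, rfl⟩ := QuotientGroup.mk_surjective x
    obtain ⟨y, rfl⟩ := QuotientGroup.mk_surjective y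
    rw [← commutatorElement_eq_one_iff_mul_comm]
    exact (QuotientGroup.eq_one_iff _).2 (hT x y)
  exact D5.Red.fg_of_ext M hMN (fun K => comm_fg' hQc hQ K) H

end Pool.Agent.LampC
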