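import Pool.Agent.Lib.LampC.Defs

set_option autoImplicit false

namespace Pool.Agent.LampC

open Subgroup PolycyclicCent
open scoped commutatorElement

private theorem unip_aux {Q : Type*} [Group Q] (V : Subgroup Q) [V.Normal]
    (hV : ∀ x ∈ V, ∀ y ∈ V, Commute x y) (t : Q) : ∀ e : ℕ, 0 < e →
    (∀ p : ℕ, p.Prime → p ∣ e → ∀ v ∈ V, v ^ p = 1 → Commute t v) →
    ∃ n : ℕ, 0 < n ∧ ∀ v ∈ V, v ^ e = 1 → Commute (t ^ n) v := by
  intro e
  induction e using Nat.strong_induction_on with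
  | _ e ih =>
  intro he h
  by_cases h1 : e = 1
  · refine ⟨1, one_pos, fun v _ hv1 => ?_⟩
    rw [h1, pow_one] at hv1
    rw [hv1]
    exact Commute.one_right _
  · have hp : e.minFac.Prime := Nat.minFac_prime h1
    obtain ⟨e', he'⟩ := Nat.minFac_dvd e
    set p := e.minFac with hpdef
    have he'0 : 0 < e' := by
      rcases Nat.eq_zero_or_pos e' with h0 | h0
      · rw [h0, mul_zero] at he'; omega
      · exact h0
    have hlt : e' < e := by
      rw [he']
      have := hp.two_le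
      nlinarith
    obtain ⟨n', hn', hc⟩ := ih e' hlt he'0 (fun q hq hqe v hv hvq =>
      h q hq (he' ▸ Dvd.dvd.mul_left hqe p) v hv hvq)
    refine ⟨n' * p, Nat.mul_pos hn' hp.pos, fun v hv hve => ?_⟩
    set u := t ^ n' with hu
    have hvp : Commute u (v ^ p) := by
      refine hc _ (V.pow_mem hv p) ?_
      rw [← pow_mul, ← he']
      exact hve
    have huv : u * v * u⁻¹ ∈ V := Subgroup.Normal.conj_mem inferInstance v hv u
    set d := u * v * u⁻¹ * v⁻¹ with hd
    have hdV : d ∈ V := V.mul_mem huv (V.inv_mem hv)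
    have hdp : d ^ p = 1 := by
      have hcomm : Commute (u * v * u⁻¹) v⁻¹ := hV _ huv _ (V.inv_mem hv)
      rw [hd, hcomm.mul_pow, conj_pow, inv_pow, hvp.eq]
      group
    have hud : Commute u d := by
      have : Commute t d := h p hp (he' ▸ Dvd.intro e' rfl) d hdV hdp
      exact this.pow_left n'
    have hk : ∀ k : ℕ, u ^ k * v = d ^ k * v * u ^ k := by
      intro k
      induction k with
      | zero => simp
      | succ k ihk =>
        have e1 : u * v = d * v * u := by rw [hd]; group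
        calc u ^ (k + 1) * v = u * (u ^ k * v) := by rw [pow_succ']; group
          _ = u * (d ^ k * v * u ^ k) := by rw [ihk]
          _ = (u * d ^ k) * v * u ^ k := by group
          _ = (d ^ k * u) * v * u ^ k := by rw [(hud.pow_right k).eq]
          _ = d ^ k * (u * v) * u ^ k := by group
          _ = d ^ k * (d * v * u) * u ^ k := by rw [e1]
          _ = d ^ (k + 1) * v * u ^ (k + 1) := by
              rw [pow_succ d, pow_succ' u]; group
    have h3 := hk p
    rw [hdp, one_mul] at h3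
    rw [pow_mul]
    exact h3

/-- PROOF: induction on `e` (`e = 1`; `e = p e'`). Write `σ` for the conjugation by `s` on `V = M ⧸ N`.
If `σ' = σ ^ n'` is trivial on `V[e']` and `m ∈ V[p e']`, then `m ^ p ∈ V[e']`, so
`d = σ' m * m⁻¹` has `d ^ p = 1`, so `σ' d = d` and `σ' ^ p m = d ^ p * m = m`. Take `n = n' p`. -/
theorem unip_pow {G : Type*} [Group G] (N M : Subgroup G) [N.Normal] [M.Normal]
    (hab : ∀ x ∈ M, ∀ y ∈ M, ⁅x, y⁆ ∈ N) (s : G) : ∀ e : ℕ, 0 < e →
    (∀ p : ℕ, p.Prime → p ∣ e → ∀ m ∈ M, m ^ p ∈ N → ⁅s, m⁆ ∈ N) →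
    ∃ n : ℕ, 0 < n ∧ ∀ m ∈ M, m ^ e ∈ N → ⁅s ^ n, m⁆ ∈ N := by
  intro e he h
  have key : ∀ x y : G, ⁅x, y⁆ ∈ N ↔
      Commute (QuotientGroup.mk' N x) (QuotientGroup.mk' N y) := by
    intro x y
    rw [← commutatorElement_eq_one_iff_commute, ← map_commutatorElement]
    exact (QuotientGroup.eq_one_iff _).symm
  have kpow : ∀ (x : G) (k : ℕ), x ^ k ∈ N ↔ (QuotientGroup.mk' N x) ^ k = 1 := by
    intro x k
    rw [← map_pow]
    exact (QuotientGroup.eq_one_iff _).symm
  haveI : (M.map (QuotientGroup.mk' N)).Normal :=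
    Subgroup.Normal.map inferInstance _ (QuotientGroup.mk'_surjective N)
  obtain ⟨n, hn, hc⟩ := unip_aux (M.map (QuotientGroup.mk' N)) (by
      rintro _ ⟨x, hx, rfl⟩ _ ⟨y, hy, rfl⟩
      exact (key x y).1 (hab x hx y hy)) (QuotientGroup.mk' N s) e he (by
      rintro p hp hpe _ ⟨m, hm, rfl⟩ hmp
      exact (key s m).1 (h p hp hpe m hm ((kpow m p).2 hmp)))
  refine ⟨n, hn, fun m hm hme => ?_⟩
  rw [key, map_pow]
  exact hc _ ⟨m, hm, rfl⟩ ((kpow m e).1 hme)

end Pool.Agent.LampC
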