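import Pool.Agent.Lib.LampC.CoreDet
import Pool.Agent.Lib.LampC.ExpM
import Pool.Agent.Lib.LampC.UnipM
import Pool.Agent.Lib.LampC.Pairs
import Pool.Agent.Lib.LampC.CentM

/-!
Nilpotent-by-(periodic abelian)-by-abelian groups with finitely generated centralizers, if only
finitely many elements of the top act trivially on the middle (helpers 50, 81, 88).
-/

set_option autoImplicit false

namespace Pool.Agent.LampC

universe u

open Subgroup PolycyclicCent
open scoped commutatorElement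

/-- PROOF: `e` from `exists_exp`, `𝒢` from `exists_set` for the primes dividing `e`; an element `s`
fixing some `g ∈ 𝒢` modulo `N` has a power fixing all elements of prime order of `M ⧸ N`, hence
(`unip_pow`) a power fixing `M ⧸ N`; `cent_fg_M`, `core_det`, and the end as in `main_p`. -/
theorem main_fk {G : Type u} [Group G] (N M : Subgroup G) [N.Normal] [M.Normal]
    (hN : Group.IsNilpotent N) (hNM : N ≤ M) (hper : ∀ x ∈ M, ∃ n : ℕ, 0 < n ∧ x ^ n ∈ N)
    (hab : ∀ x ∈ M, ∀ y ∈ M, ⁅x, y⁆ ∈ N) (hT : ∀ x y : G, ⁅x, y⁆ ∈ M)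
    (hker : {τ : G ⧸ M | ∃ s : G, (s : G ⧸ M) = τ ∧ ∀ m ∈ M, ⁅s, m⁆ ∈ N}.Finite)
    (hC : ∀ g : G, (centralizer {g}).FG) (H : Subgroup G) : H.FG := by
  have hG : Group.FG G := by
    have h1 := hC 1
    have h2 : centralizer {(1 : G)} = ⊤ := by
      rw [eq_top_iff]; intro x _; rw [mem_centralizer_singleton_iff]; simp
    rw [h2] at h1
    exact Group.fg_def.mpr h1
  -- powers of elements that commute modulo `N`
  have hpw : ∀ (s m : G) (k : ℕ), ⁅s, m⁆ ∈ N → ⁅s ^ k, m⁆ ∈ N := by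
    intro s m k h
    have e1 : ∀ a b : G, ⁅a, b⁆ ∈ N ↔
        Commute (QuotientGroup.mk' N a) (QuotientGroup.mk' N b) := by
      intro a b
      rw [← commutatorElement_eq_one_iff_commute, ← map_commutatorElement]
      exact (QuotientGroup.eq_one_iff _).symm
    rw [e1] at h ⊢
    rw [map_pow]
    exact h.pow_left k
  obtain ⟨e, he, hexp⟩ := exists_exp N M hper hab hT
  obtain ⟨𝒢, hne, hdet, h𝒢⟩ := exists_set N M hab hT e.primeFactors.toList
    (Finset.nodup_toList _)
    (fun p hp => Nat.prime_of_mem_primeFactors (Finset.mem_toList.1 hp))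
  have hfix : ∀ g ∈ 𝒢, ∀ s : G, ⁅s, (g : G)⁆ ∈ N → ∃ n : ℕ, 0 < n ∧ ∀ m ∈ M, ⁅s ^ n, m⁆ ∈ N := by
    intro g hg s hs
    have h1 := (h𝒢 g hg).2 s hs
    choose! f hf using h1
    have hf' : ∀ p ∈ e.primeFactors, 0 < f p ∧ ∀ m ∈ M, m ^ p ∈ N → ⁅s ^ f p, m⁆ ∈ N :=
      fun p hp => hf p (Finset.mem_toList.2 hp)
    obtain ⟨n, hn, h2⟩ := unip_pow N M hab (s ^ ∏ p ∈ e.primeFactors, f p) e he (by
      intro p hp hpe m hm hmp
      have hpm : p ∈ e.primeFactors := Nat.mem_primeFactors.2 ⟨hp, hpe, he.ne'⟩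
      obtain ⟨k, hk⟩ := Finset.dvd_prod_of_mem f hpm
      rw [hk, pow_mul]
      exact hpw _ _ _ ((hf' p hpm).2 m hm hmp))
    refine ⟨(∏ p ∈ e.primeFactors, f p) * n,
      Nat.mul_pos (Finset.prod_pos fun p hp => (hf' p hp).1) hn, fun m hm => ?_⟩
    rw [pow_mul]
    exact h2 m hm (hexp m hm)
  obtain ⟨c, hc⟩ := (isNilpotent_iff_lowerCentralSeries N).1 hN
  have hmapN : (N.subgroupOf M).map M.subtype = N := by
    rw [subgroupOf_map_subtype, inf_eq_left.2 hNM]
  have hc' : (N.subgroupOf M).lowerCentralSeries c = ⊥ := by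
    apply Subgroup.map_injective M.subtype_injective
    rw [map_lowerCentralSeries, hmapN, hc, Subgroup.map_bot]
  have hP : PerAb (N.subgroupOf M) :=
    { per := fun x => by
        obtain ⟨n, hn, h⟩ := hper x x.2
        exact ⟨n, hn, mem_subgroupOf.2 (by simpa using h)⟩
      ab := fun x y => mem_subgroupOf.2 (hab x x.2 y y.2) }
  obtain ⟨hM, hNfg⟩ := core_det c M (N.subgroupOf M) 𝒢 hc' hP hdet hne
    (fun g hg => cent_fg_M N M hT hker hC g (hfix g hg))
  have hNfg' : N.FG := by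
    have := map_fg M.subtype hNfg
    rwa [hmapN] at this
  have hNN : NoethSub N := noethSub_of_nilpotent_fg hN hNfg'
  have hMN : NoethSub M := noethSub_of_comm hNN hab M ((Group.fg_iff_subgroup_fg M).mp hM)
    le_sup_left le_rfl
  have hQ : Group.FG (G ⧸ M) := Group.fg_of_surjective (QuotientGroup.mk'_surjective M)
  have hQc : ∀ x y : G ⧸ M, x * y = y * x := by
    intro x y
    obtain ⟨x, rfl⟩ := QuotientGroup.mk_surjective x
    obtain ⟨y, rfl⟩ := QuotientGroup.mk_surjective y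
    rw [← commutatorElement_eq_one_iff_mul_comm]
    exact (QuotientGroup.eq_one_iff _).2 (hT x y)
  exact D5.Red.fg_of_ext M hMN (fun K => comm_fg' hQc hQ K) H

end Pool.Agent.LampC
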