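import Pool.Agent.Lib.LampC.FinK
import Pool.Agent.Lib.LampC.Fin

set_option autoImplicit false

namespace Pool.Agent.LampC

universe u

open Subgroup PolycyclicCent
open scoped commutatorElement

/-- the case that `M ⧸ N` is finite -/
theorem main_finite {G : Type u} [Group G] (N M : Subgroup G) [N.Normal] [M.Normal]
    (hN : Group.IsNilpotent N) (hNM : N ≤ M)
    (hab : ∀ x ∈ M, ∀ y ∈ M, ⁅x, y⁆ ∈ N) (hT : ∀ x y : G, ⁅x, y⁆ ∈ M)
    (hfin : Finite (M ⧸ N.subgroupOf M))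
    (hC : ∀ g : G, (centralizer {g}).FG) (H : Subgroup G) : H.FG := by
  have hG : Group.FG G := by
    have h1 := hC 1
    have h2 : centralizer {(1 : G)} = ⊤ := by
      rw [eq_top_iff]; intro x _; rw [mem_centralizer_singleton_iff]; simp
    rw [h2] at h1
    exact Group.fg_def.mpr h1
  -- the subgroup `M ⧸ N`
  set Q : Subgroup (G ⧸ N) := M.map (QuotientGroup.mk' N) with hQ
  have hQfin : Finite Q := by
    let f : M →* Q :=
      { toFun := fun x => ⟨QuotientGroup.mk' N x, ⟨x, x.2, rfl⟩⟩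
        map_one' := rfl
        map_mul' := fun _ _ => rfl }
    have hf : Function.Surjective f := by
      rintro ⟨_, x, hx, rfl⟩
      exact ⟨⟨x, hx⟩, rfl⟩
    have hker : N.subgroupOf M ≤ f.ker := by
      intro x hx
      rw [MonoidHom.mem_ker]
      exact Subtype.ext ((QuotientGroup.eq_one_iff _).2 hx)
    refine Finite.of_surjective (QuotientGroup.lift (N.subgroupOf M) f hker) ?_
    intro y
    obtain ⟨x, rfl⟩ := hf y
    exact ⟨QuotientGroup.mk x, rfl⟩
  have hQn : Q.Normal := by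
    rw [hQ]
    exact Subgroup.Normal.map (inferInstance : M.Normal) _ (QuotientGroup.mk'_surjective N)
  have hQno : NoethSub Q := by
    intro K hK
    have : Finite K := Finite.of_injective (Subgroup.inclusion hK) (Subgroup.inclusion_injective hK)
    rw [← Group.fg_iff_subgroup_fg]
    infer_instance
  have hcomm : ∀ x y : (G ⧸ N) ⧸ Q, x * y = y * x := by
    intro x y
    obtain ⟨x, rfl⟩ := QuotientGroup.mk_surjective x
    obtain ⟨y, rfl⟩ := QuotientGroup.mk_surjective y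
    obtain ⟨x, rfl⟩ := QuotientGroup.mk'_surjective N x
    obtain ⟨y, rfl⟩ := QuotientGroup.mk'_surjective N y
    rw [← commutatorElement_eq_one_iff_mul_comm]
    change (((⁅QuotientGroup.mk' N x, QuotientGroup.mk' N y⁆ : G ⧸ N)) : (G ⧸ N) ⧸ Q) = 1
    rw [QuotientGroup.eq_one_iff, ← map_commutatorElement]
    exact mem_map_of_mem _ (hT x y)
  have hfgQ : Group.FG ((G ⧸ N) ⧸ Q) :=
    Group.fg_of_surjective (f := (QuotientGroup.mk' Q).comp (QuotientGroup.mk' N))
      ((QuotientGroup.mk'_surjective Q).comp (QuotientGroup.mk'_surjective N))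
  have hsub : ∀ K : Subgroup ((G ⧸ N) ⧸ Q), K.FG := fun K => comm_fg' hcomm hfgQ K
  have hfg : ∀ K : Subgroup (G ⧸ N), K.FG := D5.Red.fg_of_ext Q hQno hsub
  have hsol : Group.IsSolvable (⊤ : Subgroup (G ⧸ N)) := by
    have hQs : Group.IsSolvable Q := by
      refine Group.isSolvable_of_comm ?_
      rintro ⟨_, x, hx, rfl⟩ ⟨_, y, hy, rfl⟩
      apply Subtype.ext
      change QuotientGroup.mk' N x * QuotientGroup.mk' N y
        = QuotientGroup.mk' N y * QuotientGroup.mk' N x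
      rw [← commutatorElement_eq_one_iff_mul_comm, ← map_commutatorElement,
        QuotientGroup.mk'_apply, QuotientGroup.eq_one_iff]
      exact hab x hx y hy
    have hCs : Group.IsSolvable ((G ⧸ N) ⧸ Q) := Group.isSolvable_of_comm hcomm
    have hS : Group.IsSolvable (G ⧸ N) :=
      Group.isSolvable_of_ker_le_range Q.subtype (QuotientGroup.mk' Q) (by
        rw [QuotientGroup.ker_mk', Subgroup.range_subtype])
    infer_instance
  exact D5.main N hN ⊤ inferInstance hsol hfg hC H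

/-- the final form: `M ⧸ N` is finite or only finitely many elements of `G ⧸ M` act trivially on it -/
theorem main_top {G : Type u} [Group G] (N M : Subgroup G) [N.Normal] [M.Normal]
    (hN : Group.IsNilpotent N) (hNM : N ≤ M) (hper : ∀ x ∈ M, ∃ n : ℕ, 0 < n ∧ x ^ n ∈ N)
    (hab : ∀ x ∈ M, ∀ y ∈ M, ⁅x, y⁆ ∈ N) (hT : ∀ x y : G, ⁅x, y⁆ ∈ M)
    (hker : Finite (M ⧸ N.subgroupOf M) ∨
      {τ : G ⧸ M | ∃ s : G, (s : G ⧸ M) = τ ∧ ∀ m ∈ M, ⁅s, m⁆ ∈ N}.Finite)
    (hC : ∀ g : G, (centralizer {g}).FG) (H : Subgroup G) : H.FG := by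
  rcases hker with h | h
  · exact main_finite N M hN hNM hab hT h hC H
  · exact main_fk N M hN hNM hper hab hT h hC H

/-- for a cyclic top the condition holds automatically (this gives `main` of `Fin.lean` again) -/
theorem ker_of_cyclic {G : Type u} [Group G] (N M : Subgroup G) [N.Normal] [M.Normal]
    (hNM : N ≤ M) (hper : ∀ x ∈ M, ∃ n : ℕ, 0 < n ∧ x ^ n ∈ N)
    (hab : ∀ x ∈ M, ∀ y ∈ M, ⁅x, y⁆ ∈ N) (hcyc : IsCyclic (G ⧸ M)) (hG : Group.FG G) :
    Finite (M ⧸ N.subgroupOf M) ∨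
      {τ : G ⧸ M | ∃ s : G, (s : G ⧸ M) = τ ∧ ∀ m ∈ M, ⁅s, m⁆ ∈ N}.Finite := by
  obtain ⟨τ, hτ⟩ := hcyc.exists_generator
  obtain ⟨t, rfl⟩ := QuotientGroup.mk_surjective τ
  have ht : ∀ x : G, ∃ k : ℤ, ∃ m ∈ M, x = m * t ^ k := by
    intro x
    obtain ⟨k, hk⟩ := Subgroup.mem_zpowers_iff.1 (hτ (QuotientGroup.mk x))
    refine ⟨k, x * (t ^ k)⁻¹, ?_, by group⟩
    rw [← QuotientGroup.eq_one_iff, QuotientGroup.mk_mul, QuotientGroup.mk_inv,
      QuotientGroup.mk_zpow, hk, mul_inv_cancel]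
  by_cases h0 : ∃ g₀ ∈ M, ∀ n : ℕ, 0 < n → ⁅t ^ n, g₀⁆ ∉ N
  · obtain ⟨g₀, hg₀, h0⟩ := h0
    right
    refine (Set.finite_singleton (1 : G ⧸ M)).subset ?_
    rintro _ ⟨s, rfl, hs⟩
    rw [Set.mem_singleton_iff, QuotientGroup.eq_one_iff]
    obtain ⟨k, m, hm, rfl⟩ := ht s
    have hk : k = 0 := by
      by_contra hk
      -- `D` = elements fixed modulo `N`
      have h1 : ⁅t ^ k, g₀⁆ ∈ N := by
        have h2 := hs g₀ hg₀
        have h3 : ⁅m⁻¹, t ^ k * g₀ * (t ^ k)⁻¹⁆ ∈ N := hab _ (M.inv_mem hm) _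
          (Subgroup.Normal.conj_mem inferInstance _ hg₀ _)
        rw [← QuotientGroup.eq_one_iff] at h2 h3 ⊢
        have e2 : (((⁅m * t ^ k, g₀⁆ : G)) : G ⧸ N) = (m : G ⧸ N) * ((t ^ k * g₀ * (t ^ k)⁻¹ : G) : G ⧸ N)
            * (m : G ⧸ N)⁻¹ * (g₀ : G ⧸ N)⁻¹ := by
          rw [← QuotientGroup.mk_mul, ← QuotientGroup.mk_inv, ← QuotientGroup.mk_mul,
            ← QuotientGroup.mk_inv, ← QuotientGroup.mk_mul]
          congr 1
          rw [commutatorElement_def]
          group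
        have e3 : (((⁅m⁻¹, t ^ k * g₀ * (t ^ k)⁻¹⁆ : G)) : G ⧸ N)
            = (m : G ⧸ N)⁻¹ * ((t ^ k * g₀ * (t ^ k)⁻¹ : G) : G ⧸ N)
            * (m : G ⧸ N) * ((t ^ k * g₀ * (t ^ k)⁻¹ : G) : G ⧸ N)⁻¹ := by
          rw [commutatorElement_def]
          simp
        have e4 : (((⁅t ^ k, g₀⁆ : G)) : G ⧸ N) = ((t ^ k * g₀ * (t ^ k)⁻¹ : G) : G ⧸ N)
            * (g₀ : G ⧸ N)⁻¹ := by
          rw [commutatorElement_def]
          rfl
        rw [e2] at h2
        rw [e3] at h3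
        rw [e4]
        generalize ((t ^ k * g₀ * (t ^ k)⁻¹ : G) : G ⧸ N) = u at h2 h3 ⊢
        generalize (m : G ⧸ N) = m' at h2 h3 ⊢
        generalize (g₀ : G ⧸ N) = g' at h2 h3 ⊢
        have h4 : m'⁻¹ * u * m' = u := by
          rw [mul_inv_eq_one] at h3
          exact h3
        have h5' : u * m' = m' * u := by
          have := congrArg (fun z => m' * z) h4
          simpa [mul_assoc] using this
        have h5 : m' * u * m'⁻¹ = u := by
          rw [← h5', mul_inv_cancel_right]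
        rw [h5] at h2
        exact h2
      have h6 : ∀ j : ℤ, ⁅t ^ j, g₀⁆ ∈ N → ⁅t ^ (-j), g₀⁆ ∈ N := by
        intro j hj
        have h7 : (t ^ j)⁻¹ * (⁅t ^ j, g₀⁆)⁻¹ * (t ^ j)⁻¹⁻¹ ∈ N :=
          Subgroup.Normal.conj_mem inferInstance _ (N.inv_mem hj) _
        have h8 : ⁅t ^ (-j), g₀⁆ = (t ^ j)⁻¹ * (⁅t ^ j, g₀⁆)⁻¹ * (t ^ j)⁻¹⁻¹ := by
          rw [commutatorElement_def, commutatorElement_def]
          group
        rw [h8]
        exact h7
      obtain ⟨n, hn | hn⟩ := k.eq_nat_or_neg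
      · refine h0 n ?_ ?_
        · omega
        · rw [hn, zpow_natCast] at h1
          exact h1
      · refine h0 n ?_ ?_
        · omega
        · have := h6 _ h1
          rw [hn, neg_neg, zpow_natCast] at this
          exact this
    rw [hk, zpow_zero, mul_one]
    exact hm
  · push Not at h0
    left
    have hF := finite_of_periodic N M hNM hper hab t ht h0
    infer_instance

end Pool.Agent.LampC
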