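import Pool.Agent.Lib.LampC.DetR
import Pool.Agent.Lib.LampC.PForm
import Pool.Agent.Lib.LampC.ExpM
import Pool.Agent.Lib.LampC.UnipM

set_option autoImplicit false

namespace Pool.Agent.LampC

universe u

open Subgroup PolycyclicCent
open scoped commutatorElement

private theorem exists_setR {G : Type u} [Group G] [Group.FG G] (N M : Subgroup G) [N.Normal] [M.Normal]
    (hab : ∀ x ∈ M, ∀ y ∈ M, ⁅x, y⁆ ∈ N) (hT : ∀ x y : G, ⁅x, y⁆ ∈ M) (l : List ℕ)
    (hl : l.Nodup) (hp : ∀ p ∈ l, p.Prime) :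
    ∃ 𝒢 : Set M, 𝒢.Finite ∧ DetR (N.subgroupOf M) 𝒢 ∧ ∀ g ∈ 𝒢, (g : G) ^ l.prod ∈ N ∧
      ∀ s : G, ⁅s, (g : G)⁆ ∈ N → ∀ p ∈ l, ∃ n : ℕ, 0 < n ∧
        ∀ m ∈ M, m ^ p ∈ N → ⁅s ^ n, m⁆ ∈ N := by
  have hq : ∀ x : G, (QuotientGroup.mk' N) x = 1 ↔ x ∈ N := fun x => QuotientGroup.eq_one_iff x
  have hcomm : ∀ a b : G, ⁅a, b⁆ ∈ N ↔
      Commute ((QuotientGroup.mk' N) a) ((QuotientGroup.mk' N) b) := by
    intro a b
    rw [← hq, map_commutatorElement, commutatorElement_eq_one_iff_commute]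
  induction l with
  | nil =>
    refine ⟨{1}, Set.finite_singleton _, detR_one _, ?_⟩
    intro g hg
    rw [Set.mem_singleton_iff] at hg
    subst hg
    refine ⟨by simp, ?_⟩
    intro s _ p hp
    exact absurd hp (List.not_mem_nil)
  | cons p l ih =>
    obtain ⟨hpl, hl'⟩ := List.nodup_cons.1 hl
    have hpp : p.Prime := hp p (List.mem_cons_self)
    have hp' : ∀ r ∈ l, r.Prime := fun r hr => hp r (List.mem_cons_of_mem _ hr)
    obtain ⟨𝒢, hne, hdet, hg⟩ := ih hl' hp'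
    obtain ⟨x, hxM, y, hyM, hxp, hyp, hY, hX⟩ := exists_xy_p N M hpp hab hT
    have hcop : Nat.Coprime l.prod p := by
      rw [Nat.coprime_comm, Nat.coprime_list_prod_right_iff]
      intro r hr
      rw [Nat.coprime_primes hpp (hp' r hr)]
      rintro rfl
      exact hpl hr
    obtain ⟨k, hk1, hk2⟩ := Nat.chineseRemainder hcop 1 0
    -- the key step
    have key : ∀ g ∈ 𝒢, ∀ z ∈ M, z ^ p ∈ N →
        ((g : G) * z) ^ (p * l.prod) ∈ N ∧ ∀ s : G, ⁅s, (g : G) * z⁆ ∈ N →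
          ⁅s, (g : G)⁆ ∈ N ∧ ⁅s, z⁆ ∈ N := by
      intro g hgG z hz hzp
      have hgz : Commute ((QuotientGroup.mk' N) (g : G)) ((QuotientGroup.mk' N) z) :=
        (hcomm _ _).1 (hab _ g.2 _ hz)
      have hgL : ((QuotientGroup.mk' N) (g : G)) ^ l.prod = 1 := by
        rw [← map_pow]
        exact (hq _).2 (hg g hgG).1
      have hzL : ((QuotientGroup.mk' N) z) ^ p = 1 := by
        rw [← map_pow]
        exact (hq _).2 hzp
      refine ⟨?_, ?_⟩
      · rw [← hq, map_pow, map_mul, hgz.mul_pow, mul_comm p, pow_mul, hgL, one_pow, one_mul,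
          mul_comm, pow_mul, hzL, one_pow]
      · intro s hs
        rw [hcomm, map_mul] at hs
        have e1 : ((QuotientGroup.mk' N) (g : G) * (QuotientGroup.mk' N) z) ^ k =
            (QuotientGroup.mk' N) (g : G) := by
          rw [hgz.mul_pow, pow_eq_pow_of_modEq hk1 hgL, pow_eq_pow_of_modEq hk2 hzL, pow_one,
            pow_zero, mul_one]
        have h1 : Commute ((QuotientGroup.mk' N) s) ((QuotientGroup.mk' N) (g : G)) := by
          rw [← e1]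
          exact hs.pow_right k
        have e2 : ((QuotientGroup.mk' N) (g : G))⁻¹ *
            ((QuotientGroup.mk' N) (g : G) * (QuotientGroup.mk' N) z) =
              (QuotientGroup.mk' N) z := by
          rw [inv_mul_cancel_left]
        have h2 : Commute ((QuotientGroup.mk' N) s) ((QuotientGroup.mk' N) z) := by
          rw [← e2]
          exact h1.inv_right.mul_right hs
        exact ⟨(hcomm _ _).2 h1, (hcomm _ _).2 h2⟩
    have hxy : ∀ j, (x * y ^ j) ^ p ∈ N := by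
      intro j
      have h1 : Commute ((QuotientGroup.mk' N) x) ((QuotientGroup.mk' N) y) :=
        (hcomm _ _).1 (hab _ hxM _ hyM)
      rw [← hq, map_pow, map_mul, map_pow, (h1.pow_right j).mul_pow, ← map_pow, (hq _).2 hxp,
        one_mul, ← pow_mul, mul_comm, pow_mul, ← map_pow, (hq _).2 hyp, one_pow]
    have hxyM : ∀ j, x * y ^ j ∈ M := fun j => M.mul_mem hxM (M.pow_mem hyM j)
    have hab' : ∀ a b : M, ⁅a, b⁆ ∈ N.subgroupOf M := by
      intro a b
      rw [Subgroup.mem_subgroupOf]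
      exact hab _ a.2 _ b.2
    have hstep := detR_step (N.subgroupOf M) hab' hdet hpp (x := ⟨x, hxM⟩) (y := ⟨y, hyM⟩)
      (by rw [Subgroup.mem_subgroupOf]; exact hxp) (by rw [Subgroup.mem_subgroupOf]; exact hyp)
    refine ⟨_, ?_, hstep, ?_⟩
    · refine ((hne.image (fun g : M => g * ⟨y, hyM⟩)).union (Set.Finite.image2
        (fun (g : M) (j : ℕ) => g * (⟨x, hxM⟩ * ⟨y, hyM⟩ ^ j)) hne (Set.finite_Iio p))).subset ?_
      rintro u ⟨g, hgG, hu⟩
      rcases hu with rfl | ⟨j, hj, rfl⟩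
      · exact Or.inl ⟨g, hgG, rfl⟩
      · exact Or.inr ⟨g, hgG, j, hj, rfl⟩
    · rintro u ⟨g, hgG, hu⟩
      rw [List.prod_cons]
      rcases hu with rfl | ⟨j, hj, rfl⟩
      · obtain ⟨k1, k2⟩ := key g hgG y hyM hyp
        refine ⟨k1, fun s hs r hr => ?_⟩
        obtain ⟨hs1, hs2⟩ := k2 s hs
        rcases List.mem_cons.1 hr with rfl | hr
        · exact hY s hs2
        · exact (hg g hgG).2 s hs1 r hr
      · obtain ⟨k1, k2⟩ := key g hgG (x * y ^ j) (hxyM j) (hxy j)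
        refine ⟨k1, fun s hs r hr => ?_⟩
        obtain ⟨hs1, hs2⟩ := k2 s hs
        rcases List.mem_cons.1 hr with rfl | hr
        · exact hX j hj s hs2
        · exact (hg g hgG).2 s hs1 r hr

/-- PROOF: `exists_set` (Pairs.lean) with `detR_one`, `detR_step` in place of `det_one`, `det_step`, and
`𝒢.Finite` added; then `hkey` of `main_fk` (FinK.lean: `exists_exp`, `unip_pow`). -/
theorem exists_genR {G : Type u} [Group G] [Group.FG G] (N M : Subgroup G) [N.Normal] [M.Normal]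
    (hper : ∀ x ∈ M, ∃ n : ℕ, 0 < n ∧ x ^ n ∈ N) (hab : ∀ x ∈ M, ∀ y ∈ M, ⁅x, y⁆ ∈ N)
    (hT : ∀ x y : G, ⁅x, y⁆ ∈ M) :
    ∃ 𝒢 : Set M, 𝒢.Finite ∧ DetR (N.subgroupOf M) 𝒢 ∧ ∀ g ∈ 𝒢, ∀ s : G, ⁅s, (g : G)⁆ ∈ N →
      ∃ n : ℕ, 0 < n ∧ ∀ m ∈ M, ⁅s ^ n, m⁆ ∈ N := by
  -- powers of elements that commute modulo `N`
  have hpw : ∀ (s m : G) (k : ℕ), ⁅s, m⁆ ∈ N → ⁅s ^ k, m⁆ ∈ N := by
    intro s m k h
    have e1 : ∀ a b : G, ⁅a, b⁆ ∈ N ↔
        Commute (QuotientGroup.mk' N a) (QuotientGroup.mk' N b) := by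
      intro a b
      rw [← commutatorElement_eq_one_iff_commute, ← map_commutatorElement]
      exact (QuotientGroup.eq_one_iff _).symm
    rw [e1] at h ⊢
    rw [map_pow]
    exact h.pow_left k
  obtain ⟨e, he, hexp⟩ := exists_exp N M hper hab hT
  obtain ⟨𝒢, hfin, hdet, h𝒢⟩ := exists_setR N M hab hT e.primeFactors.toList
    (Finset.nodup_toList _)
    (fun p hp => Nat.prime_of_mem_primeFactors (Finset.mem_toList.1 hp))
  refine ⟨𝒢, hfin, hdet, ?_⟩
  intro g hg s hs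
  have h1 := (h𝒢 g hg).2 s hs
  choose! f hf using h1
  have hf' : ∀ p ∈ e.primeFactors, 0 < f p ∧ ∀ m ∈ M, m ^ p ∈ N → ⁅s ^ f p, m⁆ ∈ N :=
    fun p hp => hf p (Finset.mem_toList.2 hp)
  obtain ⟨n, hn, h2⟩ := unip_pow N M hab (s ^ ∏ p ∈ e.primeFactors, f p) e he (by
    intro p hp hpe m hm hmp
    have hpm : p ∈ e.primeFactors := Nat.mem_primeFactors.2 ⟨hp, hpe, he.ne'⟩
    obtain ⟨k, hk⟩ := Finset.dvd_prod_of_mem f hpm
    rw [hk, pow_mul]
    exact hpw _ _ _ ((hf' p hpm).2 m hm hmp))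
  refine ⟨(∏ p ∈ e.primeFactors, f p) * n,
    Nat.mul_pos (Finset.prod_pos fun p hp => (hf' p hp).1) hn, fun m hm => ?_⟩
  rw [pow_mul]
  exact h2 m hm (hexp m hm)

end Pool.Agent.LampC
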