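import Pool.Agent.Lib.LampC.Defs

set_option autoImplicit false

namespace Pool.Agent.LampC

open Subgroup PolycyclicCent
open scoped commutatorElement

/-- PROOF: `B j` = all `a ∈ A` killed by all lists of length `j`; `⁅M₀, B (j + 1)⁆ ≤ B j` (append one
element at the end of the list), `B k = A`, `B 0 = ⊥`, so the lower central series of `M₀` reaches `⊥`
after `k + 1` steps. (On `A` the maps `b ↦ ⁅v, b⁆` are homomorphisms.) -/
theorem nilp_ext {G : Type*} [Group G] (A M₀ : Subgroup G) [A.Normal]
    (hA : ∀ a ∈ A, ∀ b ∈ A, a * b = b * a) (hAM : A ≤ M₀) (hab : ∀ x ∈ M₀, ∀ y ∈ M₀, ⁅x, y⁆ ∈ A)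
    (k : ℕ) (hk : ∀ l : List G, (∀ v ∈ l, v ∈ M₀) → l.length = k →
      ∀ a ∈ A, l.foldr (fun v b => ⁅v, b⁆) a = 1) : Group.IsNilpotent M₀ := by
  have hmem : ∀ (l : List G), ∀ a ∈ A, l.foldr (fun v b => ⁅v, b⁆) a ∈ A := by
    intro l
    induction l with
    | nil => exact fun a ha => ha
    | cons v l ih =>
      intro a ha
      rw [List.foldr_cons]
      have h1 := ih a ha
      rw [commutatorElement_def]
      exact A.mul_mem ((inferInstance : A.Normal).conj_mem _ h1 v) (A.inv_mem h1)
  have hmul : ∀ (l : List G), ∀ a ∈ A, ∀ b ∈ A, l.foldr (fun v b => ⁅v, b⁆) (a * b) =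
      l.foldr (fun v b => ⁅v, b⁆) a * l.foldr (fun v b => ⁅v, b⁆) b := by
    intro l
    induction l with
    | nil => exact fun a _ b _ => rfl
    | cons v l ih =>
      intro a ha b hb
      rw [List.foldr_cons, List.foldr_cons, List.foldr_cons, ih a ha b hb]
      have hx := hmem l a ha
      have hy := hmem l b hb
      set x := l.foldr (fun v b => ⁅v, b⁆) a
      set y := l.foldr (fun v b => ⁅v, b⁆) b
      have hvy : ⁅v, y⁆ ∈ A := by
        rw [commutatorElement_def]
        exact A.mul_mem ((inferInstance : A.Normal).conj_mem _ hy v) (A.inv_mem hy)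
      have h1 : ⁅v, x * y⁆ = v * x * v⁻¹ * (⁅v, y⁆ * x⁻¹) := by
        rw [commutatorElement_def, commutatorElement_def]
        group
      rw [h1, hA _ hvy _ (A.inv_mem hx), commutatorElement_def v x]
      group
  have hone : ∀ l : List G, l.foldr (fun v b => ⁅v, b⁆) (1 : G) = 1 := by
    intro l
    have h1 := hmul l 1 A.one_mem 1 A.one_mem
    rw [one_mul] at h1
    exact left_eq_mul.1 h1
  let B : ℕ → Subgroup G := fun j =>
    { carrier := {a | a ∈ A ∧ ∀ l : List G, (∀ v ∈ l, v ∈ M₀) → l.length = j →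
        l.foldr (fun v b => ⁅v, b⁆) a = 1}
      mul_mem' := by
        rintro a b ⟨ha, ha'⟩ ⟨hb, hb'⟩
        refine ⟨A.mul_mem ha hb, fun l hl hj => ?_⟩
        rw [hmul l a ha b hb, ha' l hl hj, hb' l hl hj, one_mul]
      one_mem' := ⟨A.one_mem, fun l _ _ => hone l⟩
      inv_mem' := by
        rintro a ⟨ha, ha'⟩
        refine ⟨A.inv_mem ha, fun l hl hj => ?_⟩
        have h1 := hmul l a ha a⁻¹ (A.inv_mem ha)
        rw [mul_inv_cancel, hone, ha' l hl hj, one_mul] at h1
        exact h1.symm }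
  have hB : ∀ (j : ℕ) (a : G), a ∈ B j ↔ a ∈ A ∧ ∀ l : List G, (∀ v ∈ l, v ∈ M₀) →
      l.length = j → l.foldr (fun v b => ⁅v, b⁆) a = 1 := fun j a => Iff.rfl
  have hstep : ∀ j, ∀ a ∈ B (j + 1), ∀ v ∈ M₀, ⁅a, v⁆ ∈ B j := by
    intro j a ha v hv
    rw [hB] at ha
    have h1 : ⁅v, a⁆ ∈ B j := by
      rw [hB]
      refine ⟨?_, fun l hl hj => ?_⟩
      · exact hmem [v] a ha.1
      · have h2 := ha.2 (l ++ [v]) (by
          intro w hw
          rcases List.mem_append.1 hw with h | h
          · exact hl w h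
          · rw [List.mem_singleton] at h
            rw [h]
            exact hv) (by rw [List.length_append, hj]; rfl)
        rw [List.foldr_append] at h2
        exact h2
    rw [← commutatorElement_inv]
    exact (B j).inv_mem h1
  rw [isNilpotent_iff_lowerCentralSeries]
  have key : ∀ i, i ≤ k → M₀.lowerCentralSeries (i + 1) ≤ B (k - i) := by
    intro i
    induction i with
    | zero =>
      intro _
      rw [Subgroup.lowerCentralSeries_succ, Subgroup.lowerCentralSeries_zero, commutator_le]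
      intro x hx y hy
      rw [hB, Nat.sub_zero]
      exact ⟨hab x hx y hy, fun l hl hj => hk l hl hj _ (hab x hx y hy)⟩
    | succ i ih =>
      intro hi
      rw [Subgroup.lowerCentralSeries_succ, commutator_le]
      intro x hx y hy
      have h1 := ih (by omega) hx
      have h2 : k - i = k - (i + 1) + 1 := by omega
      rw [h2] at h1
      exact hstep _ x h1 y hy
  refine ⟨k + 1, ?_⟩
  rw [eq_bot_iff]
  intro x hx
  have h1 := key k le_rfl hx
  rw [Nat.sub_self, hB] at h1
  have h2 := h1.2 [] (by simp) rfl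
  rw [mem_bot]
  exact h2

end Pool.Agent.LampC
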