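import Pool.Agent.Lib.LampC.DetRDef
import Pool.Agent.Lib.MP_d5e6ed_al.Main

set_option autoImplicit false

namespace Pool.Agent.LampC

universe u

open Subgroup PolycyclicCent
open scoped commutatorElement

/-- PROOF: `L` = the subgroup of `G ⧸ N` generated by the images of the finitely many
`D g = centralizer {g} ⊓ Z`: finitely generated and commutative (inside `Z ⧸ N`);
`R = MonoidAlgebra ℤ L` acts on `Additive (Abelianization N)` through `act N` (trivial on `N`), the
elements of `M ≤ Z` act `R`-linearly (`hZ`). For `g ∈ 𝒢`: an element fixed by `g` is `cls N a`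
with `a ∈ D g ⊓ N` (`N` commutative, `cls` injective), and by `normal_fg` for `↥(D g)` (quotient by `N`
abelian) `D g ⊓ N` is the normal closure in `D g` of a finite set: the kernel of `ρ g - 1` is a
finitely generated `R`-module, noetherian. Then `hdet`. -/
theorem exists_noeth {G : Type u} [Group G] (N M Z : Subgroup G) [N.Normal] [M.Normal] [Z.Normal]
    (hN : ∀ x ∈ N, ∀ y ∈ N, x * y = y * x) (hNM : N ≤ M) (hMZ : M ≤ Z)
    (hZ : ∀ x ∈ Z, ∀ y ∈ Z, ⁅x, y⁆ ∈ N) (𝒢 : Set M) (h𝒢 : 𝒢.Finite)
    (hdet : DetR (N.subgroupOf M) 𝒢) (hD : ∀ g ∈ 𝒢, (centralizer {(g : G)} ⊓ Z).FG) :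
    ∃ (R : Type u) (_ : CommRing R) (_ : IsNoetherianRing R)
      (_ : Module R (Additive (Abelianization N)))
      (ρ : M →* Module.End R (Additive (Abelianization N))),
      Module.Finite R (Additive (Abelianization N)) ∧ ∀ (m : M) (x : Additive (Abelianization N)),
        ρ m x = act N (m : G) x := by
  classical
  -- the group `Lam` generated by the `D g`
  choose! S hS using hD
  set T : Set G := ⋃ g ∈ 𝒢, (S g : Set G) with hT
  have hTf : T.Finite := h𝒢.biUnion fun g _ => (S g).finite_toSet
  set Lam : Subgroup G := closure T with hLam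
  have hDL : ∀ g ∈ 𝒢, centralizer {(g : G)} ⊓ Z ≤ Lam := by
    intro g hg
    rw [← hS g hg, hLam]
    exact closure_mono (Set.subset_biUnion_of_mem (u := fun g => (S g : Set G)) hg)
  have hLZ : Lam ≤ Z := by
    rw [hLam, closure_le]
    intro x hx
    obtain ⟨g, hg, hx⟩ := Set.mem_iUnion₂.1 hx
    have h1 : x ∈ closure (S g : Set G) := subset_closure hx
    rw [hS g hg] at h1
    exact h1.2
  have hLfg : Group.FG Lam :=
    (Group.fg_iff_subgroup_fg _).mpr ⟨hTf.toFinset, by rw [Set.Finite.coe_toFinset]⟩
  have hAfg : Group.FG (Abelianization Lam) :=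
    Group.fg_of_surjective (f := Abelianization.of) (QuotientGroup.mk'_surjective _)
  have hcN : commutator Lam ≤ N.subgroupOf Lam := by
    rw [_root_.commutator_def, commutator_le]
    intro x _ y _
    rw [mem_subgroupOf]
    exact hZ x (hLZ x.2) y (hLZ y.2)
  let actL : Abelianization Lam →* Module.End ℤ (Additive (Abelianization N)) :=
    QuotientGroup.lift (commutator Lam) ((act N).comp Lam.subtype)
      (fun g hg => act_of_mem N (g : G) (mem_subgroupOf.1 (hcN hg)))
  let R := MonoidAlgebra ℤ (Abelianization Lam)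
  let A := Additive (Abelianization N)
  let ringL : R →ₐ[ℤ] Module.End ℤ A := MonoidAlgebra.lift ℤ _ _ actL
  have hringL : ∀ c : Lam, ringL (MonoidAlgebra.of ℤ _ (Abelianization.of c)) = act N (c : G) := by
    intro c
    change MonoidAlgebra.lift ℤ _ _ actL (MonoidAlgebra.of ℤ _ (Abelianization.of c)) = _
    rw [MonoidAlgebra.lift_of]
    rfl
  let iM : Module R A := Module.compHom A ringL.toRingHom
  have hsm : ∀ (r : R) (x : A), r • x = ringL r x := fun r x => rfl
  have hsmul : ∀ (c : Lam) (x : A),
      (MonoidAlgebra.of ℤ _ (Abelianization.of c) : R) • x = act N (c : G) x := by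
    intro c x
    rw [hsm, hringL]
  have hRnoeth : IsNoetherianRing R := Algebra.FiniteType.isNoetherianRing ℤ R
  -- the elements of `M` act linearly
  have hcomm : ∀ (m : M) (r : R), Commute (act N (m : G)) (ringL r) := by
    intro m r
    induction r using MonoidAlgebra.induction_on with
    | of a =>
      obtain ⟨c, rfl⟩ := QuotientGroup.mk'_surjective _ a
      have h1 : ringL (MonoidAlgebra.of ℤ _ (Abelianization.of c)) = act N (c : G) := hringL c
      change Commute _ (ringL (MonoidAlgebra.of ℤ _ (Abelianization.of c)))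
      rw [h1, commute_iff_eq, ← map_mul, ← map_mul]
      have h2 : (m : G) * c = ⁅(m : G), (c : G)⁆ * (c * m) := by
        rw [commutatorElement_def]; group
      rw [h2, map_mul, act_of_mem N _ (hZ _ (hMZ m.2) _ (hLZ c.2)), one_mul]
    | add f g hf hg =>
      rw [map_add]
      exact hf.add_right hg
    | smul z f hf =>
      rw [map_smul]
      exact hf.smul_right z
  let ρ : M →* Module.End R A :=
    { toFun := fun m =>
        { toFun := fun x => act N (m : G) x
          map_add' := fun x y => map_add _ x y
          map_smul' := fun r x => by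
            rw [RingHom.id_apply, hsm, hsm]
            exact congrArg (fun f : Module.End ℤ A => f x) (hcomm m r).eq }
      map_one' := by
        refine LinearMap.ext fun x => ?_
        show act N ((1 : M) : G) x = x
        rw [Subgroup.coe_one, map_one]
        rfl
      map_mul' := fun m m' => by
        refine LinearMap.ext fun x => ?_
        show act N ((m * m' : M) : G) x = act N (m : G) (act N (m' : G) x)
        rw [Subgroup.coe_mul, map_mul]
        rfl }
  have hρ : ∀ (m : M) (x : A), ρ m x = act N (m : G) x := fun _ _ => rfl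
  have hNN : ⁅N, N⁆ = ⊥ := by
    rw [eq_bot_iff, commutator_le]
    intro x hx y hy
    rw [mem_bot, commutatorElement_eq_one_iff_mul_comm]
    exact hN x hx y hy
  have hinj : ∀ a b : N, cls N a = cls N b → a = b := by
    intro a b h
    have h1 := cls_eq N a b h
    rw [hNN, Subgroup.mem_bot] at h1
    have h2 : a⁻¹ * b = 1 := Subtype.ext h1
    exact (inv_mul_eq_one.mp h2)
  have hnoeth : IsNoetherian R A := by
    refine hdet R A ρ ?_ ?_
    · intro n hn
      refine LinearMap.ext fun x => ?_
      rw [hρ, act_of_mem N _ (mem_subgroupOf.1 hn)]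
      rfl
    · intro g hg
      set D : Subgroup G := centralizer {(g : G)} ⊓ Z with hDdef
      have hDfg : Group.FG D := (Group.fg_iff_subgroup_fg _).mpr ⟨S g, hS g hg⟩
      have hcD : commutator D ≤ N.subgroupOf D := by
        rw [_root_.commutator_def, commutator_le]
        intro x _ y _
        rw [mem_subgroupOf]
        exact hZ x x.2.2 y y.2.2
      obtain ⟨X, hX, hXN, hXL⟩ := normal_fg (N.subgroupOf D) hcD
      let X' : Set N := {n | ∃ x ∈ X, (x : G) = n}
      have hX' : X'.Finite := by
        have h1 : ((fun n : N => (n : G)) '' X').Finite := by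
          refine (hX.image (fun x : D => (x : G))).subset ?_
          rintro _ ⟨n, ⟨x, hx, hxn⟩, rfl⟩
          exact ⟨x, hx, hxn⟩
        exact Set.Finite.of_finite_image h1 Subtype.val_injective.injOn
      let W : Submodule R A := Submodule.span R (cls N '' X')
      have hWfg : W.FG := Submodule.fg_span (hX'.image _)
      have hWn : IsNoetherian R W := isNoetherian_of_fg_of_noetherian W hWfg
      let L : Subgroup D :=
        { carrier := {x | ∃ h : (x : G) ∈ N, cls N ⟨x, h⟩ ∈ W}
          mul_mem' := by
            rintro a b ⟨ha, ha'⟩ ⟨hb, hb'⟩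
            refine ⟨N.mul_mem ha hb, ?_⟩
            have : (⟨((a * b : D) : G), N.mul_mem ha hb⟩ : N) = ⟨a, ha⟩ * ⟨b, hb⟩ := rfl
            rw [this, cls_mul]
            exact W.add_mem ha' hb'
          one_mem' := ⟨N.one_mem, by
            have : (⟨((1 : D) : G), N.one_mem⟩ : N) = 1 := rfl
            rw [this, cls_one]; exact W.zero_mem⟩
          inv_mem' := by
            rintro a ⟨ha, ha'⟩
            refine ⟨N.inv_mem ha, ?_⟩
            have : (⟨((a⁻¹ : D) : G), N.inv_mem ha⟩ : N) = ⟨a, ha⟩⁻¹ := rfl
            rw [this, cls_inv]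
            exact W.neg_mem ha' }
      have hLn : L.Normal := by
        constructor
        rintro n ⟨hn, hn'⟩ d
        have hdn : (d : G) * n * (d : G)⁻¹ ∈ N := Subgroup.Normal.conj_mem inferInstance _ hn _
        refine ⟨hdn, ?_⟩
        have h1 := W.smul_mem (MonoidAlgebra.of ℤ _
          (Abelianization.of (⟨(d : G), hDL g hg d.2⟩ : Lam)) : R) hn'
        rw [hsmul, act_cls] at h1
        have : (MulAut.conjNormal (d : G) : MulAut N) ⟨n, hn⟩ = ⟨(d : G) * n * (d : G)⁻¹, hdn⟩ := by
          ext; simp
        rw [this] at h1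
        exact h1
      have hNL : N.subgroupOf D ≤ L := hXL L hLn (by
        intro x hx
        have hxN : (x : G) ∈ N := mem_subgroupOf.1 (hXN hx)
        exact ⟨hxN, Submodule.subset_span ⟨⟨x, hxN⟩, ⟨x, hx, rfl⟩, rfl⟩⟩)
      have hKW : LinearMap.ker (ρ g - 1) ≤ W := by
        intro x hx
        obtain ⟨a, rfl⟩ := cls_surj N x
        rw [LinearMap.mem_ker, LinearMap.sub_apply, hρ, sub_eq_zero, act_cls] at hx
        have h1 : (MulAut.conjNormal (g : G) : MulAut N) a = a := hinj _ _ hx
        have h2 : (g : G) * a * (g : G)⁻¹ = a := by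
          have := congrArg (fun z : N => (z : G)) h1
          simpa using this
        have h3 : (a : G) ∈ D := by
          refine ⟨mem_centralizer_singleton_iff.2 ?_, hMZ (hNM a.2)⟩
          exact (mul_inv_eq_iff_eq_mul.1 h2).symm
        obtain ⟨_, h5⟩ := hNL (x := ⟨(a : G), h3⟩) (mem_subgroupOf.2 a.2)
        exact h5
      exact isNoetherian_of_le hKW
  exact ⟨R, inferInstance, hRnoeth, iM, ρ, inferInstance, hρ⟩

end Pool.Agent.LampC
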