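import Mathlib

set_option autoImplicit false

namespace Pool.Agent.LampC

private theorem list_prod_mem_pow {B : Type*} [CommRing B] (I : Ideal B) :
    ∀ l : List B, (∀ x ∈ l, x ∈ I) → l.prod ∈ I ^ l.length := by
  intro l
  induction l with
  | nil => intro _; simp
  | cons a l ih =>
    intro h
    rw [List.prod_cons, List.length_cons, pow_succ']
    exact Ideal.mul_mem_mul (h a (by simp)) (ih fun x hx => h x (by simp [hx]))

/-- the case of a commutative noetherian ring -/
private theorem unip_ring {B V : Type*} [CommRing B] [IsNoetherianRing B] [Group V] (σ : V →* B)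
    {e : ℕ} (he : 0 < e) (hexp : ∀ v, σ v ^ e = 1) :
    ∃ (V₀ : Subgroup V) (k : ℕ), V₀.FiniteIndex ∧ (∀ v, v ∈ V₀ ↔ IsNilpotent (σ v - 1)) ∧
      ∀ l : List V, (∀ v ∈ l, v ∈ V₀) → l.length = k → (l.map (fun v => σ v - 1)).prod = 0 := by
  classical
  haveI : NeZero e := ⟨he.ne'⟩
  haveI hfin : Finite (minimalPrimes B) := (minimalPrimes.finite_of_isNoetherianRing B).to_subtype
  haveI hP : ∀ P : minimalPrimes B, (P : Ideal B).IsPrime := fun P => P.2.1.1
  let φ : ∀ P : minimalPrimes B, V →* rootsOfUnity e (B ⧸ (P : Ideal B)) := fun P =>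
    ((Units.map (Ideal.Quotient.mk (P : Ideal B) : B →* B ⧸ (P : Ideal B))).comp
      σ.toHomUnits).codRestrict (rootsOfUnity e (B ⧸ (P : Ideal B))) (by
        intro v
        rw [mem_rootsOfUnity, ← map_pow]
        have h1 : v ^ e ∈ σ.toHomUnits.ker := by
          rw [MonoidHom.mem_ker]
          ext
          rw [MonoidHom.coe_toHomUnits, map_pow, hexp, Units.val_one]
        rw [MonoidHom.comp_apply, MonoidHom.mem_ker.1 h1, map_one])
  haveI hfinP : ∀ P : minimalPrimes B, Finite (rootsOfUnity e (B ⧸ (P : Ideal B))) :=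
    fun P => inferInstance
  let Φ : V →* (∀ P : minimalPrimes B, rootsOfUnity e (B ⧸ (P : Ideal B))) := MonoidHom.pi φ
  haveI : Finite (∀ P : minimalPrimes B, rootsOfUnity e (B ⧸ (P : Ideal B))) := Pi.finite
  have hmem : ∀ v, v ∈ Φ.ker ↔ σ v - 1 ∈ nilradical B := by
    intro v
    have h1 : nilradical B = sInf (minimalPrimes B) := by
      rw [minimalPrimes, Ideal.sInf_minimalPrimes]
      rfl
    rw [h1, Submodule.mem_sInf, MonoidHom.mem_ker]
    constructor
    · intro h P hPm
      have h2 := congrFun h ⟨P, hPm⟩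
      have h3 := congrArg (fun z : rootsOfUnity e (B ⧸ P) => ((z : (B ⧸ P)ˣ) : B ⧸ P)) h2
      have h4 : Ideal.Quotient.mk P (σ v) = 1 := h3
      rw [← Ideal.Quotient.eq_zero_iff_mem, map_sub, h4, map_one, sub_self]
    · intro h
      funext P
      apply Subtype.ext
      apply Units.ext
      have h2 := h P.1 P.2
      rw [← Ideal.Quotient.eq_zero_iff_mem, map_sub, map_one, sub_eq_zero] at h2
      exact h2
  obtain ⟨k, hk⟩ := IsNoetherianRing.isNilpotent_nilradical B
  refine ⟨Φ.ker, k, inferInstance, fun v => by rw [hmem, mem_nilradical], fun l hl hlk => ?_⟩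
  have h1 := list_prod_mem_pow (nilradical B) (l.map (fun v => σ v - 1)) (by
    intro x hx
    rw [List.mem_map] at hx
    obtain ⟨v, hv, rfl⟩ := hx
    exact (hmem v).1 (hl v hv))
  rw [List.length_map, hlk, hk] at h1
  simpa using h1

/-- PROOF: `B` = the (commutative) `R`-subalgebra of `Module.End R A` generated by the `ρ v`; it is
a finite `R`-module (`Module.End R A` embeds in `A ^ n`), so a noetherian ring. For each of the finitely
many minimal primes `P` of `B` the images of the `ρ v` in the domain `B ⧸ P` are roots of `X ^ e - 1`,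
finitely many. `V₀` = all `v` with `ρ v - 1` in the nilradical (the intersection of the minimal primes),
a subgroup of finite index; `k` = nilpotency index of the nilradical. -/
theorem unip_mod {R A V : Type*} [CommRing R] [IsNoetherianRing R] [AddCommGroup A] [Module R A]
    [Module.Finite R A] [Group V] (ρ : V →* Module.End R A) (hcomm : ∀ u v, Commute (ρ u) (ρ v))
    {e : ℕ} (he : 0 < e) (hexp : ∀ v, ρ v ^ e = 1) :
    ∃ (V₀ : Subgroup V) (k : ℕ), V₀.FiniteIndex ∧ (∀ v, v ∈ V₀ ↔ IsNilpotent (ρ v - 1)) ∧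
      ∀ l : List V, (∀ v ∈ l, v ∈ V₀) → l.length = k → (l.map (fun v => ρ v - 1)).prod = 0 := by
  classical
  let S : Subalgebra R (Module.End R A) := Algebra.adjoin R (Set.range ρ)
  letI hS : CommRing S := Algebra.adjoinCommRingOfComm R (by
    rintro _ ⟨u, rfl⟩ _ ⟨v, rfl⟩
    exact hcomm u v)
  have hA : IsNoetherian R A := isNoetherian_of_isNoetherianRing_of_finite R A
  have hE : IsNoetherian R (Module.End R A) := isNoetherian_linearMap R A A
  have hSn : IsNoetherian R S :=
    isNoetherian_of_injective S.val.toLinearMap Subtype.val_injective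
  have hSr : IsNoetherianRing S := isNoetherian_of_tower R hSn
  let σ : V →* S :=
    { toFun := fun v => ⟨ρ v, Algebra.subset_adjoin ⟨v, rfl⟩⟩
      map_one' := Subtype.ext (map_one ρ)
      map_mul' := fun u v => Subtype.ext (map_mul ρ u v) }
  have hσ : ∀ v, ((σ v : S) : Module.End R A) = ρ v := fun v => rfl
  have hval : ∀ (v : V) (n : ℕ), (((σ v - 1 : S) ^ n : S) : Module.End R A) = (ρ v - 1) ^ n :=
    fun v n => rfl
  obtain ⟨V₀, k, h1, h2, h3⟩ := unip_ring σ he (fun v => Subtype.ext (hexp v))
  refine ⟨V₀, k, h1, fun v => ?_, fun l hl hlk => ?_⟩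
  · rw [h2]
    constructor
    · rintro ⟨n, hn⟩
      exact ⟨n, (hval v n).symm.trans (congrArg (Subtype.val : S → Module.End R A) hn)⟩
    · rintro ⟨n, hn⟩
      exact ⟨n, Subtype.ext ((hval v n).trans hn)⟩
  · have h4 := h3 l hl hlk
    have h5 := congrArg S.val h4
    rw [map_list_prod, List.map_map, map_zero] at h5
    exact h5

end Pool.Agent.LampC
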