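import Pool.Agent.Lib.LampC.ExpM

set_option autoImplicit false

namespace Pool.Agent.LampC

universe u

open Subgroup PolycyclicCent
open scoped commutatorElement

/-- if `C` is finitely generated, `⁅C, C⁆ ≤ Y` and every element of `C` has a positive power in `Y`,
then `C ⊓ Y` is finitely generated (it has finite index in `C`; compare `cent_fg_M`, CentM.lean) -/
theorem inf_fg_of_torsion {G : Type u} [Group G] (C Y : Subgroup G) [Y.Normal] (hC : C.FG)
    (hc : ∀ x ∈ C, ∀ y ∈ C, ⁅x, y⁆ ∈ Y) (ht : ∀ s ∈ C, ∃ n : ℕ, 0 < n ∧ s ^ n ∈ Y) :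
    (C ⊓ Y).FG := by
  have hCg : Group.FG C := (Group.fg_iff_subgroup_fg C).mpr hC
  let f : C →* G ⧸ Y := (QuotientGroup.mk' Y).comp C.subtype
  have hfr : Finite f.range := by
    have hcomm : ∀ a b : f.range, a * b = b * a := by
      rintro ⟨_, x, rfl⟩ ⟨_, y, rfl⟩
      apply Subtype.ext
      change f x * f y = f y * f x
      rw [← commutatorElement_eq_one_iff_mul_comm, ← map_commutatorElement]
      change ((⁅x, y⁆ : C) : G ⧸ Y) = 1
      rw [QuotientGroup.eq_one_iff]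
      exact hc x x.2 y y.2
    let _ : CommGroup f.range := { (inferInstance : Group f.range) with mul_comm := hcomm }
    have hfg : Group.FG f.range := inferInstance
    refine CommGroup.finite_of_fg_torsion f.range ?_
    rintro ⟨_, x, rfl⟩
    obtain ⟨n, hn, h⟩ := ht x x.2
    rw [isOfFinOrder_iff_pow_eq_one]
    refine ⟨n, hn, Subtype.ext ?_⟩
    change (f x) ^ n = 1
    rw [← map_pow]
    exact (QuotientGroup.eq_one_iff _).mpr h
  have hfi : f.ker.FiniteIndex := inferInstance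
  have hkfg : Group.FG f.ker := Subgroup.fg_of_index_ne_zero f.ker
  have hker' : f.ker.map C.subtype = C ⊓ Y := by
    ext z
    constructor
    · rintro ⟨y, hy, rfl⟩
      exact ⟨y.2, (QuotientGroup.eq_one_iff _).mp hy⟩
    · rintro ⟨h1, h2⟩
      exact ⟨⟨z, h1⟩, (QuotientGroup.eq_one_iff _).mpr h2, rfl⟩
  rw [← hker']
  exact map_fg C.subtype ((Group.fg_iff_subgroup_fg _).mp hkfg)

/-- the elements that commute with `K` modulo `N` -/
private def cmod {G : Type u} [Group G] (N K : Subgroup G) [N.Normal] : Subgroup G :=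
  (centralizer ((K.map (QuotientGroup.mk' N) : Subgroup (G ⧸ N)) : Set (G ⧸ N))).comap
    (QuotientGroup.mk' N)

private lemma mem_cmod {G : Type u} [Group G] {N K : Subgroup G} [N.Normal] {s : G} :
    s ∈ cmod N K ↔ ∀ k ∈ K, ⁅s, k⁆ ∈ N := by
  unfold cmod
  rw [mem_comap, mem_centralizer_iff]
  constructor
  · intro h k hk
    have h1 := h (QuotientGroup.mk' N k) ⟨k, hk, rfl⟩
    rw [← QuotientGroup.eq_one_iff]
    change QuotientGroup.mk' N ⁅s, k⁆ = 1
    rw [map_commutatorElement, commutatorElement_eq_one_iff_mul_comm]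
    exact h1.symm
  · rintro h _ ⟨k, hk, rfl⟩
    have h1 := (QuotientGroup.eq_one_iff (N := N) _).mpr (h k hk)
    change QuotientGroup.mk' N ⁅s, k⁆ = 1 at h1
    rw [map_commutatorElement, commutatorElement_eq_one_iff_mul_comm] at h1
    exact h1.symm

private lemma normal_cmod {G : Type u} [Group G] (N K : Subgroup G) [N.Normal] [K.Normal] :
    (cmod N K).Normal := by
  unfold cmod
  have : (K.map (QuotientGroup.mk' N)).Normal :=
    Subgroup.Normal.map inferInstance _ (QuotientGroup.mk'_surjective N)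
  infer_instance

private lemma pow_comm {Q : Type*} [Group Q] {a b : Q} (h : Commute a ⁅a, b⁆) (e : ℕ) :
    a ^ e * b = ⁅a, b⁆ ^ e * b * a ^ e := by
  induction e with
  | zero => simp
  | succ e ih =>
    have h1 : a * b = ⁅a, b⁆ * b * a := by rw [commutatorElement_def]; group
    have h2 : a * ⁅a, b⁆ ^ e = ⁅a, b⁆ ^ e * a := (h.pow_right e).eq
    calc a ^ (e + 1) * b = a * (a ^ e * b) := by rw [pow_succ' a e, mul_assoc]
      _ = a * ⁅a, b⁆ ^ e * (b * a ^ e) := by rw [ih]; simp only [mul_assoc]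
      _ = ⁅a, b⁆ ^ e * (a * b) * a ^ e := by rw [h2]; simp only [mul_assoc]
      _ = ⁅a, b⁆ ^ (e + 1) * b * (a * a ^ e) := by
        rw [h1, pow_succ]; simp only [mul_assoc]
      _ = ⁅a, b⁆ ^ (e + 1) * b * a ^ (e + 1) := by rw [← pow_succ']

/-- PROOF: `M₁ = {s | ∀ m ∈ M, ⁅s, m⁆ ∈ N}`, `Z = {s ∈ M₁ | ∀ w ∈ M₁, ⁅s, w⁆ ∈ N}`. `M ≤ Z`;
`⁅M₁, M₁⁆ ≤ M ≤ Z`; for `s, w ∈ M₁`: `⁅s ^ e, w⁆ ∈ ⁅s, w⁆ ^ e N` (`⁅s, w⁆ ∈ M` commutes with `s`
modulo `N`), so `s ^ e ∈ Z` for `e` of `exists_exp`. `inf_fg_of_torsion` twice. -/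
theorem exists_Z {G : Type u} [Group G] [Group.FG G] (N M : Subgroup G) [N.Normal] [M.Normal]
    (hper : ∀ x ∈ M, ∃ n : ℕ, 0 < n ∧ x ^ n ∈ N) (hab : ∀ x ∈ M, ∀ y ∈ M, ⁅x, y⁆ ∈ N)
    (hT : ∀ x y : G, ⁅x, y⁆ ∈ M) :
    ∃ Z : Subgroup G, Z.Normal ∧ M ≤ Z ∧ (∀ x ∈ Z, ∀ y ∈ Z, ⁅x, y⁆ ∈ N) ∧
      ∀ C : Subgroup G, C.FG → (∀ s ∈ C, ∃ n : ℕ, 0 < n ∧ ∀ m ∈ M, ⁅s ^ n, m⁆ ∈ N) →
        (C ⊓ Z).FG := by
  obtain ⟨e, he0, he⟩ := exists_exp N M hper hab hT
  have hM₁n : (cmod N M).Normal := normal_cmod N M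
  have hZn' : (cmod N (cmod N M)).Normal := normal_cmod N (cmod N M)
  have hMM₁ : M ≤ cmod N M := fun m hm => mem_cmod.mpr fun k hk => hab m hm k hk
  have hMZ' : M ≤ cmod N (cmod N M) := by
    intro m hm
    refine mem_cmod.mpr fun w hw => ?_
    rw [← commutatorElement_inv]
    exact N.inv_mem (mem_cmod.mp hw m hm)
  have hZn : (cmod N M ⊓ cmod N (cmod N M)).Normal := inferInstance
  refine ⟨cmod N M ⊓ cmod N (cmod N M), hZn, le_inf hMM₁ hMZ', ?_, ?_⟩
  · intro x hx y hy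
    exact mem_cmod.mp hx.2 y hy.1
  · intro C hC ht
    have h1 : (C ⊓ cmod N M).FG := by
      refine inf_fg_of_torsion C (cmod N M) hC (fun x _ y _ => hMM₁ (hT x y)) ?_
      intro s hs
      obtain ⟨n, hn, h⟩ := ht s hs
      exact ⟨n, hn, mem_cmod.mpr h⟩
    have h2 : (C ⊓ cmod N M ⊓ cmod N (cmod N M)).FG := by
      refine inf_fg_of_torsion _ (cmod N (cmod N M)) h1 (fun x _ y _ => hMZ' (hT x y)) ?_
      rintro s ⟨-, hs⟩
      refine ⟨e, he0, mem_cmod.mpr fun w hw => ?_⟩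
      have hc : ⁅s, w⁆ ∈ M := hT s w
      have h3 : Commute (QuotientGroup.mk' N s) ⁅QuotientGroup.mk' N s, QuotientGroup.mk' N w⁆ := by
        rw [← map_commutatorElement]
        show QuotientGroup.mk' N s * QuotientGroup.mk' N ⁅s, w⁆ =
            QuotientGroup.mk' N ⁅s, w⁆ * QuotientGroup.mk' N s
        rw [← commutatorElement_eq_one_iff_mul_comm, ← map_commutatorElement,
          QuotientGroup.mk'_apply, QuotientGroup.eq_one_iff]
        exact mem_cmod.mp hs _ hc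
      have h4 := pow_comm h3 e
      have h5 : ⁅QuotientGroup.mk' N s, QuotientGroup.mk' N w⁆ ^ e = 1 := by
        rw [← map_commutatorElement, ← map_pow, QuotientGroup.mk'_apply, QuotientGroup.eq_one_iff]
        exact he _ hc
      rw [h5, one_mul] at h4
      rw [← QuotientGroup.eq_one_iff]
      change QuotientGroup.mk' N ⁅s ^ e, w⁆ = 1
      rw [map_commutatorElement, commutatorElement_eq_one_iff_mul_comm, map_pow]
      exact h4
    rwa [inf_assoc] at h2

end Pool.Agent.LampC
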