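import Pool.Agent.Lib.LampC.FinK2
import Pool.Agent.Lib.LampC.GenR
import Pool.Agent.Lib.LampC.UnipMod
import Pool.Agent.Lib.LampC.NilpExt
import Pool.Agent.Lib.LampC.ZSub
import Pool.Agent.Lib.LampC.NoethR

set_option autoImplicit false

namespace Pool.Agent.LampC

universe u

open Subgroup PolycyclicCent
open scoped commutatorElement

/-- PROOF: `exists_genR`, `exists_Z` (for `C = centralizer {g}`), `exists_noeth`, `unip_mod` for
`V = ↥M` with `e` of `exists_exp`; `M₀ = V₀.map M.subtype` contains `N`, is normal in `G` and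
nilpotent (`nilp_ext`); `main_finite M₀ M`. -/
theorem main_u {G : Type u} [Group G] (N M : Subgroup G) [N.Normal] [M.Normal]
    (hN : ∀ x ∈ N, ∀ y ∈ N, x * y = y * x) (hNM : N ≤ M)
    (hper : ∀ x ∈ M, ∃ n : ℕ, 0 < n ∧ x ^ n ∈ N)
    (hab : ∀ x ∈ M, ∀ y ∈ M, ⁅x, y⁆ ∈ N) (hT : ∀ x y : G, ⁅x, y⁆ ∈ M)
    (hC : ∀ g : G, (centralizer {g}).FG) (H : Subgroup G) : H.FG := by
  classical
  have hG : Group.FG G := by
    have h1 := hC 1
    have h2 : centralizer {(1 : G)} = ⊤ := by
      rw [eq_top_iff]; intro x _; rw [mem_centralizer_singleton_iff]; simp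
    rw [h2] at h1
    exact Group.fg_def.mpr h1
  obtain ⟨e, he, hexp⟩ := exists_exp N M hper hab hT
  obtain ⟨𝒢, h𝒢f, hdet, h𝒢⟩ := exists_genR N M hper hab hT
  obtain ⟨Z, hZn, hMZ, hZab, hZC⟩ := exists_Z N M hper hab hT
  have hD : ∀ g ∈ 𝒢, (centralizer {(g : G)} ⊓ Z).FG := by
    intro g hg
    refine hZC _ (hC g) (fun s hs => h𝒢 g hg s ?_)
    have h1 : ⁅s, (g : G)⁆ = 1 := by
      rw [commutatorElement_eq_one_iff_mul_comm]
      exact mem_centralizer_singleton_iff.mp hs
    rw [h1]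
    exact N.one_mem
  obtain ⟨R, iR, iN, iM, ρ, hfin, hρ⟩ := exists_noeth N M Z hN hNM hMZ hZab 𝒢 h𝒢f hdet hD
  have hcomm : ∀ u v : M, Commute (ρ u) (ρ v) := by
    intro u v
    have h1 : act N ((u : G) * v) = act N ((v : G) * u) := by
      have h2 : (u : G) * v = ⁅(u : G), (v : G)⁆ * (v * u) := by
        rw [commutatorElement_def]; group
      rw [h2, map_mul, act_of_mem N _ (hab u u.2 v v.2), one_mul]
    refine LinearMap.ext fun x => ?_
    change ρ u (ρ v x) = ρ v (ρ u x)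
    rw [hρ, hρ, hρ, hρ]
    rw [map_mul, map_mul] at h1
    exact LinearMap.congr_fun h1 x
  have hexp' : ∀ v : M, ρ v ^ e = 1 := by
    intro v
    rw [← map_pow]
    refine LinearMap.ext fun x => ?_
    rw [hρ, Subgroup.coe_pow, act_of_mem N _ (hexp v v.2)]
    rfl
  obtain ⟨V₀, k, hV₀f, hV₀, hprod⟩ := unip_mod ρ hcomm he hexp'
  -- nilpotency in terms of `act`
  have hpw : ∀ (v : M) (j : ℕ) (x : Additive (Abelianization N)),
      ((ρ v - 1) ^ j) x = ((act N (v : G) - 1) ^ j) x := by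
    intro v j
    induction j with
    | zero => intro x; rfl
    | succ j ih =>
      intro x
      rw [pow_succ, pow_succ]
      change ((ρ v - 1) ^ j) (ρ v x - x) = ((act N (v : G) - 1) ^ j) (act N (v : G) x - x)
      rw [ih, hρ]
  have hV : ∀ v : M, v ∈ V₀ ↔ IsNilpotent (act N (v : G) - 1) := by
    intro v
    rw [hV₀]
    constructor
    · rintro ⟨j, hj⟩
      refine ⟨j, LinearMap.ext fun x => ?_⟩
      rw [← hpw, hj]
      rfl
    · rintro ⟨j, hj⟩
      refine ⟨j, LinearMap.ext fun x => ?_⟩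
      rw [hpw, hj]
      rfl
  set M₀ : Subgroup G := V₀.map M.subtype with hM₀
  have hmem : ∀ x : G, x ∈ M₀ ↔ x ∈ M ∧ IsNilpotent (act N x - 1) := by
    intro x
    constructor
    · rintro ⟨v, hv, rfl⟩
      exact ⟨v.2, (hV v).mp hv⟩
    · rintro ⟨h1, h2⟩
      exact ⟨⟨x, h1⟩, (hV ⟨x, h1⟩).mpr h2, rfl⟩
  have hM₀M : M₀ ≤ M := fun x hx => ((hmem x).mp hx).1
  have hNM₀ : N ≤ M₀ := by
    intro x hx
    rw [hmem]
    refine ⟨hNM hx, 1, ?_⟩
    rw [act_of_mem N x hx, sub_self, pow_one]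
  have hM₀n : M₀.Normal := by
    constructor
    intro x hx g
    rw [hmem] at hx ⊢
    refine ⟨Subgroup.Normal.conj_mem inferInstance _ hx.1 _, ?_⟩
    obtain ⟨j, hj⟩ := hx.2
    let w : (Module.End ℤ (Additive (Abelianization N)))ˣ :=
      ⟨act N g, act N g⁻¹, by rw [← map_mul, mul_inv_cancel, map_one],
        by rw [← map_mul, inv_mul_cancel, map_one]⟩
    refine ⟨j, ?_⟩
    have h1 : act N (g * x * g⁻¹) - 1 = (w : Module.End ℤ (Additive (Abelianization N))) *
        (act N x - 1) * ((w⁻¹ : (Module.End ℤ (Additive (Abelianization N)))ˣ) :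
          Module.End ℤ (Additive (Abelianization N))) := by
      change act N (g * x * g⁻¹) - 1 = act N g * (act N x - 1) * act N g⁻¹
      rw [map_mul, map_mul, mul_sub, sub_mul, mul_one, ← map_mul, ← map_mul, ← map_mul,
        mul_inv_cancel, map_one]
    rw [h1, Units.conj_pow, hj]
    simp
  -- nilpotency of `M₀`
  have hinj : ∀ a b : N, cls N a = cls N b → a = b := by
    intro a b h
    have h1 := cls_eq N a b h
    have h2 : ⁅N, N⁆ = ⊥ := by
      rw [eq_bot_iff, commutator_le]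
      intro x hx y hy
      rw [Subgroup.mem_bot, commutatorElement_eq_one_iff_mul_comm]
      exact hN x hx y hy
    rw [h2, Subgroup.mem_bot] at h1
    have h3 : a⁻¹ * b = 1 := Subtype.ext h1
    exact (inv_mul_eq_one.mp h3)
  have hfold : ∀ (l : List G) (a : G) (ha : a ∈ N),
      ∃ h : l.foldr (fun v b => ⁅v, b⁆) a ∈ N,
        cls N ⟨l.foldr (fun v b => ⁅v, b⁆) a, h⟩ =
          (l.map (fun v => act N v - 1)).prod (cls N ⟨a, ha⟩) := by
    intro l
    induction l with
    | nil => intro a ha; exact ⟨ha, rfl⟩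
    | cons v l ih =>
      intro a ha
      obtain ⟨h1, h2⟩ := ih a ha
      have h3 : v * l.foldr (fun v b => ⁅v, b⁆) a * v⁻¹ ∈ N :=
        Subgroup.Normal.conj_mem inferInstance _ h1 _
      have h4 : ⁅v, l.foldr (fun v b => ⁅v, b⁆) a⁆ ∈ N := by
        rw [commutatorElement_def]
        exact N.mul_mem h3 (N.inv_mem h1)
      refine ⟨h4, ?_⟩
      rw [List.map_cons, List.prod_cons]
      change _ = (act N v - 1) ((l.map (fun v => act N v - 1)).prod (cls N ⟨a, ha⟩))
      rw [← h2]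
      change _ = act N v (cls N ⟨l.foldr (fun v b => ⁅v, b⁆) a, h1⟩)
        - cls N ⟨l.foldr (fun v b => ⁅v, b⁆) a, h1⟩
      rw [act_cls, sub_eq_add_neg, ← cls_inv, ← cls_mul]
      congr 1
  have hlift : ∀ l : List G, (∀ v ∈ l, v ∈ M₀) →
      ∃ l' : List M, (∀ v ∈ l', v ∈ V₀) ∧ l'.length = l.length ∧
        ∀ x, (l'.map (fun v => ρ v - 1)).prod x = (l.map (fun v => act N v - 1)).prod x := by
    intro l
    induction l with
    | nil => intro _; exact ⟨[], by simp, rfl, fun x => rfl⟩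
    | cons v l ih =>
      intro hl
      obtain ⟨l', h1, h2, h3⟩ := ih (fun u hu => hl u (List.mem_cons_of_mem _ hu))
      have h4 := (hmem v).mp (hl v List.mem_cons_self)
      refine ⟨⟨v, h4.1⟩ :: l', ?_, by simp [h2], ?_⟩
      · intro u hu
        rcases List.mem_cons.mp hu with rfl | hu
        · exact (hV _).mpr h4.2
        · exact h1 u hu
      · intro x
        rw [List.map_cons, List.map_cons, List.prod_cons, List.prod_cons]
        change (ρ ⟨v, h4.1⟩ - 1) ((l'.map (fun v => ρ v - 1)).prod x)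
          = (act N v - 1) ((l.map (fun v => act N v - 1)).prod x)
        rw [h3]
        change ρ ⟨v, h4.1⟩ _ - _ = act N v _ - _
        rw [hρ]
        rfl
  have hnil : Group.IsNilpotent M₀ := by
    refine nilp_ext N M₀ hN hNM₀ (fun x hx y hy => hab x (hM₀M hx) y (hM₀M hy)) k ?_
    intro l hl hlk a ha
    obtain ⟨h1, h2⟩ := hfold l a ha
    obtain ⟨l', h3, h4, h5⟩ := hlift l hl
    rw [← h5, hprod l' h3 (h4.trans hlk)] at h2
    have h6 := hinj ⟨_, h1⟩ 1 (by rw [h2, cls_one]; rfl)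
    exact congrArg Subtype.val h6
  have hfinite : Finite (M ⧸ M₀.subgroupOf M) := by
    have h1 : M₀.subgroupOf M = V₀ := by
      rw [hM₀, Subgroup.subgroupOf]
      exact Subgroup.comap_map_eq_self_of_injective M.subtype_injective V₀
    rw [h1]
    infer_instance
  exact main_finite M₀ M hnil hM₀M (fun x hx y hy => hNM₀ (hab x hx y hy)) hT hfinite hC H

end Pool.Agent.LampC
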