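import Pool.Agent.Lib.LampC.Defs

set_option autoImplicit false

namespace Pool.Agent.LampC

open Subgroup PolycyclicCent
open scoped commutatorElement

/-- PROOF: `C ⧸ (C ⊓ N)` embeds in the periodic abelian group `Γ ⧸ N` and is finitely generated, so
it is finite (`CommGroup.finite_of_fg_torsion`); subgroups of finite index of finitely generated
groups are finitely generated (instance, see `cent_fg_finiteIndex` in `MP_d5e6ed_al/Main.lean`). -/
theorem inf_fg {Γ : Type*} [Group Γ] (N : Subgroup Γ) [N.Normal] (hP : PerAb N)
    {C : Subgroup Γ} (hC : C.FG) : (C ⊓ N).FG := by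
  classical
  have hCfg : Group.FG C := (Group.fg_iff_subgroup_fg _).mpr hC
  have hnorm : (N.subgroupOf C).Normal := inferInstance
  let Q := C ⧸ (N.subgroupOf C)
  have hcomm : ∀ a b : Q, a * b = b * a := by
    intro a b
    induction a using QuotientGroup.induction_on with
    | H a =>
      induction b using QuotientGroup.induction_on with
      | H b =>
        have h : (a * b)⁻¹ * (b * a) ∈ N.subgroupOf C := by
          rw [mem_subgroupOf]
          have h1 := hP.ab ((b : Γ)⁻¹) ((a : Γ)⁻¹)
          rw [commutatorElement_def] at h1
          simpa [mul_assoc] using h1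
        exact QuotientGroup.eq.mpr h
  letI : CommGroup Q := { (inferInstance : Group Q) with mul_comm := hcomm }
  have hQfg : Group.FG Q := by
    have := Group.fg_of_surjective (f := QuotientGroup.mk' (N.subgroupOf C))
      (QuotientGroup.mk'_surjective _)
    exact this
  have htor : Monoid.IsTorsion Q := by
    intro a
    induction a using QuotientGroup.induction_on with
    | H a =>
      obtain ⟨n, hn, h⟩ := hP.per a
      rw [isOfFinOrder_iff_pow_eq_one]
      refine ⟨n, hn, ?_⟩
      have : ((a ^ n : C) : Q) = 1 := by
        rw [QuotientGroup.eq_one_iff, mem_subgroupOf]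
        simpa using h
      simpa using this
  have hfin : Finite Q := CommGroup.finite_of_fg_torsion Q htor
  have hidx : (N.subgroupOf C).FiniteIndex := by
    exact Subgroup.finiteIndex_of_finite_quotient
  have h2 : Group.FG (N.subgroupOf C) := by infer_instance
  have h3 : (C ⊓ N) = (N.subgroupOf C).map C.subtype := by
    rw [subgroupOf_map_subtype, inf_comm]
  rw [h3]
  exact map_fg _ ((Group.fg_iff_subgroup_fg _).mp h2)

end Pool.Agent.LampC
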