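import Mathlib

set_option autoImplicit false

namespace Pool.Agent.LampC

private lemma mkp_key (A : Type*) [AddCommGroup A] (δ γ : A →+ A) (hγ : ∀ x, γ x = x + δ x)
    (n : ℕ) (a : A) : ∃ c, γ^[n] a = a + n • δ a + δ (δ c) := by
  induction n with
  | zero => exact ⟨0, by simp⟩
  | succ n ih =>
    obtain ⟨c, hc⟩ := ih
    refine ⟨c + n • a + δ c, ?_⟩
    rw [Function.iterate_succ_apply', hc, hγ]
    simp only [map_add, map_nsmul, succ_nsmul]
    abel

/-- PROOF. Let `δ a = γ a - a` (additive, commutes with itself). CLAIM: for all `j ≥ 2` and `a`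
there is `b` with `δ a = (2^j * k) • b`; `j = 2` is `h`. Step: `0 = γ^q a - a = q • δ a + δ (δ c)`,
and `δ (δ c) = (2^j * k) • (2^j * k) • b'`. If `q = 2`: `2 • (δ a - (2^(2j-1) * k^2) • c) = 0` and
the bracket is `k • _`, so it is `0` by `hk`; `2j - 1 ≥ j + 1`. If `q = 2 r + 1`:
`δ a = q • δ a - (2r) • δ a` is a multiple of `2^(j+1) * k`.
So `δ a ∈ ⋂ j, 2^j • A`: by Krull (`Ideal.mem_iInf_smul_pow_eq_bot_iff` for the ideal `(2)` of
`ℤ`), `(1 - 2 s) • δ a = 0` for some `s`, so `δ a` is torsion, and as `δ a = k • b` it is `0`. -/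
theorem mk_prime (A : Type*) [AddCommGroup A] [AddGroup.FG A] (k : ℕ)
    (hk : ∀ (a : A) (n : ℕ), 0 < n → n • a = 0 → k • a = 0) (γ : A →+ A) {q : ℕ}
    (hq : q.Prime) (hγ : ∀ a, γ^[q] a = a) (h : ∀ a, ∃ b, γ a = a + (4 * k) • b) :
    ∀ a, γ a = a := by
  classical
  rcases Nat.eq_zero_or_pos k with hk0 | hk0
  · intro a
    obtain ⟨b, hb⟩ := h a
    rw [hb, hk0]
    simp
  set δ : A →+ A := γ - AddMonoidHom.id A with hδ
  have hγδ : ∀ x, γ x = x + δ x := by
    intro x
    simp [hδ]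
  have hP : ∀ j : ℕ, ∀ a, ∃ b, δ a = (2 ^ (j + 2) * k) • b := by
    intro j
    induction j with
    | zero =>
      intro a
      obtain ⟨b, hb⟩ := h a
      refine ⟨b, ?_⟩
      have : δ a = γ a - a := by simp [hδ]
      rw [this, hb]
      norm_num
    | succ j ih =>
      intro a
      obtain ⟨c, hc⟩ := mkp_key A δ γ hγδ q a
      rw [hγ a] at hc
      have h1 : q • δ a + δ (δ c) = 0 := by
        have : a + (q • δ a + δ (δ c)) = a + 0 := by
          rw [add_zero, ← add_assoc]
          exact hc.symm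
        exact add_left_cancel this
      obtain ⟨b1, hb1⟩ := ih c
      obtain ⟨b2, hb2⟩ := ih b1
      have h2 : δ (δ c) = (2 ^ (j + 2) * k) • (2 ^ (j + 2) * k) • b2 := by
        rw [hb1, map_nsmul, hb2]
      obtain ⟨b, hb⟩ := ih a
      rcases hq.eq_two_or_odd' with h3 | h3
      · -- q = 2
        subst h3
        have hz : ∃ y, δ a + (2 ^ (j + 1) * k * (2 ^ (j + 2) * k)) • b2 = k • y := by
          refine ⟨(2 ^ (j + 2)) • b + (2 ^ (j + 1) * (2 ^ (j + 2) * k)) • b2, ?_⟩
          rw [hb, smul_add, smul_smul, smul_smul]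
          congr 2 <;> ring
        obtain ⟨y, hy⟩ := hz
        have h4 : (2 * k) • y = 0 := by
          rw [mul_smul, ← hy, smul_add, smul_smul]
          have : 2 * (2 ^ (j + 1) * k * (2 ^ (j + 2) * k))
              = (2 ^ (j + 2) * k) * (2 ^ (j + 2) * k) := by ring
          rw [this, mul_smul, ← h2]
          exact h1
        have h5 := hk y (2 * k) (by positivity) h4
        rw [h5] at hy
        refine ⟨-((2 ^ j * k) • b2), ?_⟩
        have h6 : δ a = -((2 ^ (j + 1) * k * (2 ^ (j + 2) * k)) • b2) :=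
          eq_neg_of_add_eq_zero_left hy
        rw [h6, smul_neg, smul_smul]
        congr 2
        ring
      · -- q odd
        obtain ⟨r, hr⟩ := h3
        have h4 : δ a = -((2 ^ (j + 2) * k) • (2 ^ (j + 2) * k) • b2)
            - (2 * r) • ((2 ^ (j + 2) * k) • b) := by
          have h5 : q • δ a = -((2 ^ (j + 2) * k) • (2 ^ (j + 2) * k) • b2) := by
            rw [← h2]
            exact eq_neg_of_add_eq_zero_left h1
          rw [hr, add_smul, one_smul] at h5
          rw [← h5, ← hb]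
          abel
        refine ⟨-((2 ^ (j + 1) * k) • b2) - r • b, ?_⟩
        have e1 : (2 ^ (j + 2) * k) • (2 ^ (j + 2) * k) • b2
            = (2 ^ (j + 1 + 2) * k) • ((2 ^ (j + 1) * k) • b2) := by
          rw [smul_smul, smul_smul]
          congr 1
          ring
        have e2 : (2 * r) • ((2 ^ (j + 2) * k) • b)
            = (2 ^ (j + 1 + 2) * k) • (r • b) := by
          rw [smul_smul, smul_smul]
          congr 1
          ring
        rw [h4, e1, e2, smul_sub, smul_neg]
  intro a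
  have hfin : Module.Finite ℤ A := Module.Finite.iff_addGroup_fg.2 inferInstance
  have hmem : δ a ∈ (⨅ i : ℕ, (Ideal.span {(2 : ℤ)}) ^ i • ⊤ : Submodule ℤ A) := by
    rw [Submodule.mem_iInf]
    intro i
    obtain ⟨b, hb⟩ := hP i a
    rw [hb, Ideal.span_singleton_pow]
    have : (2 ^ (i + 2) * k) • b = ((2 : ℤ) ^ i) • ((4 * k) • b) := by
      have e : ((2 : ℤ) ^ i) • ((4 * k) • b) = (2 ^ i : ℕ) • ((4 * k) • b) := by
        have e0 : ((2 : ℤ) ^ i) = ((2 ^ i : ℕ) : ℤ) := by push_cast; rfl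
        rw [e0, natCast_zsmul]
      rw [e, smul_smul]
      congr 1
      ring
    rw [this]
    exact Submodule.smul_mem_smul (Ideal.mem_span_singleton_self _) trivial
  rw [Ideal.mem_iInf_smul_pow_eq_bot_iff] at hmem
  obtain ⟨⟨r, hr⟩, hr2⟩ := hmem
  obtain ⟨s, hs⟩ := Ideal.mem_span_singleton'.1 hr
  obtain ⟨b, hb⟩ := hP 0 a
  have hb' : δ a = k • ((4 : ℕ) • b) := by
    rw [hb, smul_smul]
    congr 1
    ring
  set y := (4 : ℕ) • b with hy
  have h1 : (1 - r) • δ a = 0 := by
    rw [sub_smul, one_smul, sub_eq_zero]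
    exact hr2.symm
  have h2 : (1 - r).natAbs • δ a = 0 := by
    rcases Int.natAbs_eq (1 - r) with h3 | h3
    · rw [h3, natCast_zsmul] at h1
      exact h1
    · rw [h3, neg_smul, neg_eq_zero, natCast_zsmul] at h1
      exact h1
  have h3 : 0 < (1 - r).natAbs := by
    rw [Int.natAbs_pos]
    intro h0
    omega
  have h4 : δ a = 0 := by
    rw [hb', smul_smul] at h2
    rw [hb']
    exact hk y _ (by positivity) h2
  rw [hγδ, h4, add_zero]

end Pool.Agent.LampC
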