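import Mathlib

set_option autoImplicit false

namespace Pool.Agent.LampC

open scoped Pointwise

/-- B. H. Neumann: a group is not the union of finitely many subgroups of infinite index -/
theorem exists_not_mem {T : Type*} [CommGroup T] (s : Finset (Subgroup T)) :
    ∃ t : T, ∀ H ∈ s, ¬ H.FiniteIndex → t ∉ H := by
  classical
  by_contra hcon
  push Not at hcon
  have hcov : ⋃ H ∈ s.filter (fun H => ¬ H.FiniteIndex), (1 : T) • ((H : Subgroup T) : Set T) =
      Set.univ := by
    rw [Set.eq_univ_iff_forall]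
    intro t
    obtain ⟨H, hH, hf, ht⟩ := hcon t
    rw [Set.mem_iUnion₂]
    exact ⟨H, Finset.mem_filter.2 ⟨hH, hf⟩, by simpa using ht⟩
  obtain ⟨k, hk, hkf⟩ := Subgroup.exists_finiteIndex_of_leftCoset_cover
    (s := s.filter (fun H => ¬ H.FiniteIndex)) (H := fun H => H) (g := fun _ => 1) hcov
  exact (Finset.mem_filter.1 hk).2 hkf

end Pool.Agent.LampC
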