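import Pool.Agent.Lib.LampC.Dbl

set_option autoImplicit false

namespace Pool.Agent.LampC

/-- PROOF: call `v` periodic if `τ^[n] v = v` for some `n > 0` (a subgroup `P`, closed under `τ`).
Take the least `n > 0` with `n • v₀ ∈ P`, a prime divisor `p` of `n`, `h = (n / p) • v₀`; `h ∉ P`,
`p • h ∈ P`, say `τ^[k] (p • h) = p • h`. Put `w = τ^[k] h - h`. Then `p • w = 0`, and `w ∉ P` by
`double`. `τ w ∉ P` as `τ` is injective. If `w + j • τ w ∈ P` with `0 < j < p`, then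
`(-j)^(p-1) • τ^[p-1] w - w ∈ P`, and `(-j)^(p-1) = 1` modulo `p`, so `τ^[p-1] w - w ∈ P`, and
`double` gives `w ∈ P` (`p = 2` included). -/
theorem exists_pair {V : Type*} [AddCommGroup V] (τ : V →+ V) (hτ : Function.Injective τ)
    (htor : ∀ v : V, ∃ n : ℕ, 0 < n ∧ n • v = 0) (v₀ : V)
    (h₀ : ∀ n : ℕ, 0 < n → τ^[n] v₀ ≠ v₀) :
    ∃ p : ℕ, p.Prime ∧ ∃ w : V, p • w = 0 ∧ (∀ n : ℕ, 0 < n → τ^[n] (τ w) ≠ τ w) ∧
      ∀ j < p, ∀ n : ℕ, 0 < n → τ^[n] (w + j • τ w) ≠ w + j • τ w := by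
  classical
  have iadd : ∀ (n : ℕ) (x y : V), τ^[n] (x + y) = τ^[n] x + τ^[n] y := iterate_map_add τ
  have isub : ∀ (n : ℕ) (x y : V), τ^[n] (x - y) = τ^[n] x - τ^[n] y := iterate_map_sub τ
  have ineg : ∀ (n : ℕ) (x : V), τ^[n] (-x) = -τ^[n] x := iterate_map_neg τ
  have ismul : ∀ (n m : ℕ) (x : V), τ^[n] (m • x) = m • τ^[n] x := by
    intro n m x
    induction m with
    | zero => simp [iterate_map_zero]
    | succ m ih => rw [succ_nsmul, succ_nsmul, iadd, ih]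
  have iper : ∀ (n m : ℕ) (x : V), τ^[n] x = x → τ^[n * m] x = x := by
    intro n m x hx
    rw [Function.iterate_mul]
    exact Function.iterate_fixed hx m
  -- the periodic elements
  let P : AddSubgroup V :=
    { carrier := {v | ∃ n : ℕ, 0 < n ∧ τ^[n] v = v}
      zero_mem' := ⟨1, one_pos, by simp⟩
      add_mem' := by
        rintro a b ⟨n, hn, ha⟩ ⟨m, hm, hb⟩
        refine ⟨n * m, Nat.mul_pos hn hm, ?_⟩
        rw [iadd, iper n m a ha, Nat.mul_comm, iper m n b hb]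
      neg_mem' := by
        rintro a ⟨n, hn, ha⟩
        exact ⟨n, hn, by rw [ineg, ha]⟩ }
  have hmem : ∀ v, v ∈ P ↔ ∃ n : ℕ, 0 < n ∧ τ^[n] v = v := fun v => Iff.rfl
  have hPτ : ∀ (m : ℕ) (v : V), v ∈ P → τ^[m] v ∈ P := by
    rintro m v ⟨n, hn, hv⟩
    refine ⟨n, hn, ?_⟩
    rw [← Function.iterate_add_apply, Nat.add_comm, Function.iterate_add_apply, hv]
  have hPinj : ∀ v : V, τ v ∈ P → v ∈ P := by
    rintro v ⟨n, hn, hv⟩
    exact ⟨n, hn, hτ ((Function.iterate_succ_apply' (⇑τ) n v).symm.trans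
      ((Function.iterate_succ_apply (⇑τ) n v).trans hv))⟩
  have hv₀ : v₀ ∉ P := by
    rintro ⟨n, hn, hv⟩
    exact h₀ n hn hv
  -- least multiple
  have hex : ∃ n : ℕ, 0 < n ∧ n • v₀ ∈ P := by
    obtain ⟨n, hn, hv⟩ := htor v₀
    exact ⟨n, hn, by rw [hv]; exact P.zero_mem⟩
  obtain ⟨hn0, hnP⟩ := Nat.find_spec hex
  have hmin : ∀ m, 0 < m → m < Nat.find hex → m • v₀ ∉ P := fun m hm hlt hmP =>
    Nat.find_min hex hlt ⟨hm, hmP⟩
  set n := Nat.find hex with hn
  have hn1 : n ≠ 1 := by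
    intro h1
    rw [h1, one_smul] at hnP
    exact hv₀ hnP
  have hp : n.minFac.Prime := Nat.minFac_prime hn1
  set p := n.minFac with hpdef
  have hpn : p ∣ n := Nat.minFac_dvd n
  obtain ⟨q, hq⟩ := hpn
  have hq0 : 0 < q := by
    rcases Nat.eq_zero_or_pos q with h1 | h1
    · rw [h1, Nat.mul_zero] at hq
      omega
    · exact h1
  have hqn : q < n := by
    rw [hq]
    have := hp.two_le
    nlinarith
  have hhP : q • v₀ ∉ P := hmin q hq0 hqn
  set h := q • v₀ with hh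
  have hph : p • h ∈ P := by
    rw [hh, smul_smul, ← hq]
    exact hnP
  obtain ⟨k, hk, hkp⟩ := hph
  obtain ⟨r, hr, hrh⟩ := htor h
  set w := τ^[k] h - h with hw
  have hpw : p • w = 0 := by
    rw [hw, smul_sub, ← ismul, hkp, sub_self]
  have hwP : w ∉ P := by
    rintro ⟨l, hl, hlw⟩
    exact hhP (double τ hk hl hr hrh hlw)
  refine ⟨p, hp, w, hpw, ?_, ?_⟩
  · intro m hm hmw
    exact hwP (hPinj w ⟨m, hm, hmw⟩)
  · intro j hj m hm hmw
    rcases Nat.eq_zero_or_pos j with hj0 | hj0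
    · rw [hj0, zero_smul, add_zero] at hmw
      exact hwP ⟨m, hm, hmw⟩
    have hjP : w + j • τ w ∈ P := ⟨m, hm, hmw⟩
    have hind : ∀ i : ℕ, w - (-(j : ℤ)) ^ i • τ^[i] w ∈ P := by
      intro i
      induction i with
      | zero => simp [P.zero_mem]
      | succ i ih =>
        have e1 : w - (-(j : ℤ)) ^ (i + 1) • τ^[i + 1] w =
            (w - (-(j : ℤ)) ^ i • τ^[i] w) + (-(j : ℤ)) ^ i • τ^[i] (w + j • τ w) := by
          rw [iadd, ismul, ← Function.iterate_succ_apply, smul_add, pow_succ, mul_smul, neg_smul,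
            smul_neg, natCast_zsmul]
          abel
        rw [e1]
        exact P.add_mem ih (P.zsmul_mem (hPτ i _ hjP) _)
    have h2 := hind (p - 1)
    have hcop : IsCoprime (-(j : ℤ)) (p : ℤ) := by
      rw [IsCoprime.neg_left_iff, Nat.isCoprime_iff_coprime]
      exact (Nat.coprime_of_lt_prime (by omega) hj hp).symm
    have h3 : (-(j : ℤ)) ^ (p - 1) ≡ 1 [ZMOD p] := Int.ModEq.pow_card_sub_one_eq_one hp hcop
    obtain ⟨c, hc⟩ := h3.symm.dvd
    have h4 : (-(j : ℤ)) ^ (p - 1) • τ^[p - 1] w = τ^[p - 1] w := by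
      have h5 : (-(j : ℤ)) ^ (p - 1) = 1 + p * c := by linarith
      have h6 : (p : ℤ) • τ^[p - 1] w = 0 := by
        rw [natCast_zsmul, ← ismul, hpw, iterate_map_zero]
      rw [h5, add_smul, one_smul, mul_comm, mul_smul, h6, smul_zero, add_zero]
    rw [h4] at h2
    have h7 : τ^[p - 1] w - w ∈ P := by
      have := P.neg_mem h2
      rwa [neg_sub] at this
    obtain ⟨l, hl, hlw⟩ := h7
    have hp1 : 0 < p - 1 := by
      have := hp.two_le
      omega
    exact hwP (double τ hp1 hl hp.pos hpw hlw)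

end Pool.Agent.LampC
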