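import Pool.Agent.Lib.LampC.Defs
import Pool.Agent.Lib.LampC.Pair

set_option autoImplicit false

namespace Pool.Agent.LampC

open Subgroup PolycyclicCent
open scoped commutatorElement

variable {G : Type*} [Group G] (N M : Subgroup G) [N.Normal] [M.Normal]

/-- PROOF: `exists_pair` for `V = Additive (M ⧸ N.subgroupOf M)` (commutative by `hab`) and
`τ` = conjugation by `t`; `x` over `w`, `y = t x t⁻¹`. -/
theorem exists_xy (hNM : N ≤ M) (hper : ∀ x ∈ M, ∃ n : ℕ, 0 < n ∧ x ^ n ∈ N)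
    (hab : ∀ x ∈ M, ∀ y ∈ M, ⁅x, y⁆ ∈ N) (t : G) {g₀ : G} (hg₀ : g₀ ∈ M)
    (h₀ : ∀ n : ℕ, 0 < n → ⁅t ^ n, g₀⁆ ∉ N) :
    ∃ p : ℕ, p.Prime ∧ ∃ x ∈ M, ∃ y ∈ M, x ^ p ∈ N ∧ y ^ p ∈ N ∧
      (∀ n : ℕ, 0 < n → ⁅t ^ n, y⁆ ∉ N) ∧
      ∀ j < p, ∀ n : ℕ, 0 < n → ⁅t ^ n, x * y ^ j⁆ ∉ N := by
  -- work in the quotient group `Q = G ⧸ N` and its subgroup `M' = M.map mk`
  set mk := QuotientGroup.mk' N with hmk
  have hmem : ∀ x : G, mk x = 1 ↔ x ∈ N := fun x => QuotientGroup.eq_one_iff x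
  set V := M.map mk with hV
  have hVn : V.Normal := Subgroup.Normal.map inferInstance mk (QuotientGroup.mk'_surjective N)
  have hVc : ∀ a b : V, a * b = b * a := by
    rintro ⟨_, x, hx, rfl⟩ ⟨_, y, hy, rfl⟩
    apply Subtype.ext
    change mk x * mk y = mk y * mk x
    rw [← commutatorElement_eq_one_iff_mul_comm, ← map_commutatorElement, hmem]
    exact hab x hx y hy
  let _ : CommGroup V := { (inferInstance : Group V) with mul_comm := hVc }
  let τ : V →* V := (MulAut.conjNormal (mk t) : MulAut V).toMonoidHom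
  have hτ : ∀ a : V, ((τ a : V) : G ⧸ N) = mk t * a * (mk t)⁻¹ := by
    intro a
    exact MulAut.conjNormal_apply (mk t) a
  let σ : Additive V →+ Additive V := MonoidHom.toAdditive τ
  have hσ : ∀ a : V, σ (Additive.ofMul a) = Additive.ofMul (τ a) := fun a => rfl
  have hτn : ∀ (n : ℕ) (a : V), ((τ^[n] a : V) : G ⧸ N) = mk t ^ n * a * (mk t ^ n)⁻¹ := by
    intro n
    induction n with
    | zero => intro a; simp
    | succ k ih =>
      intro a
      rw [Function.iterate_succ_apply', hτ, ih, pow_succ']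
      group
  have hσn : ∀ (n : ℕ) (a : V), σ^[n] (Additive.ofMul a) = Additive.ofMul (τ^[n] a) := by
    intro n
    induction n with
    | zero => intro a; rfl
    | succ k ih =>
      intro a
      rw [Function.iterate_succ_apply', Function.iterate_succ_apply', ih, hσ]
  have hinj : Function.Injective σ := by
    intro a b h
    exact (MulAut.conjNormal (mk t) : MulAut V).injective h
  -- fixed points
  have hfix : ∀ (n : ℕ) (x : G) (hx : x ∈ M),
      τ^[n] ⟨mk x, x, hx, rfl⟩ = ⟨mk x, x, hx, rfl⟩ ↔ ⁅t ^ n, x⁆ ∈ N := by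
    intro n x hx
    rw [Subtype.ext_iff, hτn]
    change mk t ^ n * mk x * (mk t ^ n)⁻¹ = mk x ↔ _
    rw [← hmem, map_commutatorElement, map_pow, commutatorElement_def, mul_inv_eq_one]
  have htor : ∀ v : Additive V, ∃ n : ℕ, 0 < n ∧ n • v = 0 := by
    intro v
    obtain ⟨x, hx, hxv⟩ := (Additive.toMul v).2
    obtain ⟨n, hn, hxn⟩ := hper x hx
    refine ⟨n, hn, ?_⟩
    apply Additive.toMul.injective
    rw [toMul_nsmul, toMul_zero]
    apply Subtype.ext
    rw [Subgroup.coe_pow, ← hxv, ← map_pow]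
    exact (hmem _).mpr hxn
  obtain ⟨p, hp, w, hpw, h1, h2⟩ := exists_pair σ hinj htor
    (Additive.ofMul ⟨mk g₀, g₀, hg₀, rfl⟩) (by
      intro n hn h
      rw [hσn] at h
      exact h₀ n hn ((hfix n g₀ hg₀).mp (Additive.ofMul.injective h)))
  obtain ⟨x, hx, hxw⟩ := (Additive.toMul w).2
  have hw : w = Additive.ofMul ⟨mk x, x, hx, rfl⟩ := by
    apply Additive.toMul.injective
    exact Subtype.ext hxw.symm
  have hy : t * x * t⁻¹ ∈ M := Subgroup.Normal.conj_mem inferInstance x hx t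
  have hτw : σ w = Additive.ofMul ⟨mk (t * x * t⁻¹), t * x * t⁻¹, hy, rfl⟩ := by
    rw [hw, hσ]
    refine congrArg Additive.ofMul (Subtype.ext ?_)
    rw [hτ]
    change mk t * mk x * (mk t)⁻¹ = mk (t * x * t⁻¹)
    rw [map_mul, map_mul, map_inv]
  have hxp : x ^ p ∈ N := by
    rw [hw] at hpw
    have := congrArg (fun z => ((Additive.toMul z : V) : G ⧸ N)) hpw
    rw [← hmem, map_pow]
    exact this
  refine ⟨p, hp, x, hx, t * x * t⁻¹, hy, hxp, ?_, ?_, ?_⟩
  · rw [conj_pow]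
    exact Subgroup.Normal.conj_mem inferInstance _ hxp t
  · intro n hn h
    refine h1 n hn ?_
    rw [hτw, hσn, (hfix n _ hy).mpr h]
  · intro j hj n hn h
    refine h2 j hj n hn ?_
    have hxy : x * (t * x * t⁻¹) ^ j ∈ M := M.mul_mem hx (M.pow_mem hy j)
    have he : w + j • σ w = Additive.ofMul ⟨mk (x * (t * x * t⁻¹) ^ j), _, hxy, rfl⟩ := by
      rw [hτw, hw]
      apply Additive.toMul.injective
      rw [toMul_add, toMul_nsmul]
      apply Subtype.ext
      change mk x * (mk (t * x * t⁻¹)) ^ j = mk (x * (t * x * t⁻¹) ^ j)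
      rw [map_mul mk x, map_pow]
    rw [he, hσn, (hfix n _ hxy).mpr h]

end Pool.Agent.LampC
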