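import Pool.Agent.Lib.LampC.Core
import Pool.Agent.Lib.LampC.CentLe
import Pool.Agent.Lib.LampC.XY

set_option autoImplicit false

namespace Pool.Agent.LampC

universe u

open Subgroup PolycyclicCent
open scoped commutatorElement

/-- the case of an element of `M` that is not periodic under `t` modulo `N`. PROOF: `exists_xy`,
`cent_le` (so the centralizers of `y`, `x y^j` lie in `M` and are the centralizers in `↥M`), `core` for
`↥M` and `N.subgroupOf M`: `M` and `N` are finitely generated; `noethSub_of_nilpotent_fg`,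
`noethSub_of_comm`, and `D5.Red.fg_of_ext` with `G ⧸ M` cyclic. -/
theorem main_nonper {G : Type u} [Group G] (N M : Subgroup G) [N.Normal] [M.Normal]
    (hN : Group.IsNilpotent N) (hNM : N ≤ M) (hper : ∀ x ∈ M, ∃ n : ℕ, 0 < n ∧ x ^ n ∈ N)
    (hab : ∀ x ∈ M, ∀ y ∈ M, ⁅x, y⁆ ∈ N) (hcyc : IsCyclic (G ⧸ M))
    (hC : ∀ g : G, (centralizer {g}).FG) (t : G)
    (ht : ∀ x : G, ∃ k : ℤ, ∃ m ∈ M, x = m * t ^ k) {g₀ : G} (hg₀ : g₀ ∈ M)
    (h₀ : ∀ n : ℕ, 0 < n → ⁅t ^ n, g₀⁆ ∉ N) (H : Subgroup G) : H.FG := by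
  obtain ⟨p, hp, x, hx, y, hy, hxp, hyp, hyn, hxyn⟩ := exists_xy N M hNM hper hab t hg₀ h₀
  have key : ∀ g : M, (∀ n : ℕ, 0 < n → ⁅t ^ n, (g : G)⁆ ∉ N) →
      (centralizer {g} : Subgroup M).FG := by
    intro g hg
    have h1 : centralizer {(g : G)} ≤ M := cent_le N M hab t ht g.2 hg
    have h3 : (centralizer {g} : Subgroup M) = (centralizer {(g : G)}).subgroupOf M := by
      ext z
      rw [mem_subgroupOf, mem_centralizer_singleton_iff, mem_centralizer_singleton_iff,
        Subtype.ext_iff]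
      rfl
    have h2 : Group.FG (centralizer {(g : G)}) := (Group.fg_iff_subgroup_fg _).mpr (hC g)
    rw [h3]
    exact (Group.fg_iff_subgroup_fg _).mp
      (Group.fg_of_surjective (f := (subgroupOfEquivOfLe h1).symm.toMonoidHom)
        (subgroupOfEquivOfLe h1).symm.surjective)
  obtain ⟨c, hc⟩ := (isNilpotent_iff_lowerCentralSeries N).1 hN
  have hmapN : (N.subgroupOf M).map M.subtype = N := by
    rw [subgroupOf_map_subtype, inf_eq_left.2 hNM]
  have hc' : (N.subgroupOf M).lowerCentralSeries c = ⊥ := by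
    apply Subgroup.map_injective M.subtype_injective
    rw [map_lowerCentralSeries, hmapN, hc, Subgroup.map_bot]
  have hP : PerAb (N.subgroupOf M) :=
    { per := fun x => by
        obtain ⟨n, hn, h⟩ := hper x x.2
        exact ⟨n, hn, mem_subgroupOf.2 (by simpa using h)⟩
      ab := fun x y => mem_subgroupOf.2 (hab x x.2 y y.2) }
  have h5 := core p hp c M (N.subgroupOf M) hc' hP ⟨x, hx⟩ ⟨y, hy⟩ (mem_subgroupOf.2 hxp)
    (mem_subgroupOf.2 hyp) (key ⟨y, hy⟩ hyn) (fun j hj => key (⟨x, hx⟩ * ⟨y, hy⟩ ^ j) (hxyn j hj))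
  obtain ⟨hM, hNfg⟩ := h5
  have hNfg' : N.FG := by
    have := map_fg M.subtype hNfg
    rwa [hmapN] at this
  have hNN : NoethSub N := noethSub_of_nilpotent_fg hN hNfg'
  have hMN : NoethSub M := noethSub_of_comm hNN hab M ((Group.fg_iff_subgroup_fg M).mp hM)
    le_sup_left le_rfl
  refine D5.Red.fg_of_ext M hMN (fun K => ?_) H
  obtain ⟨g, hg⟩ := (Subgroup.isCyclic_iff_exists_zpowers_eq_top K).1 inferInstance
  rw [← hg, zpowers_eq_closure]
  exact ⟨{g}, by simp⟩

end Pool.Agent.LampC
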