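import Mathlib

set_option autoImplicit false

namespace Pool.Agent.LampC

/-- the part `A[p]` of `etrick`. PROOF: `(α - 1)^p = α^p - 1 = 0` on `A[p]` (in
`Module.End (ZMod p)` of `A[p]`, or `sub_pow_char` / `sub_pow_expChar` there), kernels of
`(α - 1)^j`, induction on `j`. -/
theorem fg_torsion {A : Type*} [AddCommGroup A] {p : ℕ} (hp : p.Prime) (α : A →+ A)
    (hA : ∀ a : A, p • a = 0) (hα : ∀ a, α^[p] a = a)
    (h1 : ∀ H : AddSubgroup A, (∀ a ∈ H, α a = a) → H.FG) : AddGroup.FG A := by
  classical
  set α' : Module.End ℤ A := α.toIntLinearMap with hα'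
  have hp0 : ((p : ℕ) : Module.End ℤ A) = 0 := by
    ext a
    rw [Module.End.natCast_apply]
    exact hA a
  have hαp : α' ^ p = 1 := by
    ext a
    rw [Module.End.pow_apply]
    exact hα a
  set δ : Module.End ℤ A := α' + (-1) with hδ
  have hδp : δ ^ p = 0 := by
    have hc : Commute α' (-1 : Module.End ℤ A) := (Commute.one_right α').neg_right
    rw [hδ, hc.add_pow_prime_eq hp, hαp, hp0, zero_mul, zero_mul, zero_mul, add_zero]
    rcases hp.eq_two_or_odd' with h2 | h2
    · subst h2
      have : (1 : Module.End ℤ A) + (-1) ^ 2 = ((2 : ℕ) : Module.End ℤ A) := by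
        rw [neg_one_sq]
        norm_num
      rw [this, hp0]
    · rw [h2.neg_one_pow, add_neg_cancel]
  have hK : ∀ j : ℕ, (LinearMap.ker (δ ^ j)).FG := by
    intro j
    induction j with
    | zero =>
      have : LinearMap.ker (δ ^ 0) = ⊥ := by
        rw [pow_zero]
        exact LinearMap.ker_id
      rw [this]
      exact Submodule.fg_bot
    | succ j ih =>
      refine Submodule.fg_of_fg_map_of_fg_inf_ker (δ ^ j) ?_ ?_
      · rw [Submodule.fg_iff_addSubgroup_fg]
        apply h1
        intro a ha
        obtain ⟨x, hx, rfl⟩ := ha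
        have hx' : (δ ^ (j + 1)) x = 0 := hx
        rw [pow_succ', Module.End.mul_apply] at hx'
        have e : δ ((δ ^ j) x) = α ((δ ^ j) x) - (δ ^ j) x := by
          rw [hδ]
          simp [hα', sub_eq_add_neg]
        rw [e, sub_eq_zero] at hx'
        exact hx'
      · have e : LinearMap.ker (δ ^ (j + 1)) ⊓ LinearMap.ker (δ ^ j) = LinearMap.ker (δ ^ j) := by
          rw [inf_eq_right]
          intro x hx
          rw [LinearMap.mem_ker] at hx ⊢
          rw [pow_succ', Module.End.mul_apply, hx, map_zero]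
        rw [e]
        exact ih
  have htop := hK p
  rw [hδp, LinearMap.ker_zero] at htop
  exact Module.Finite.iff_addGroup_fg.1 ⟨htop⟩

end Pool.Agent.LampC
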